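import Pool.Agent.GH.D5.Base5
import Pool.Agent.GH.D3.QHaupt3

open PowerSeries Filter Topology

noncomputable section

namespace GH

namespace D5

/-! The weight two Eisenstein series `θf/f`. -/

section

variable {R : Type*} [CommRing R]

lemma d5_thq_coeff (F : PowerSeries R) (n : ℕ) :
    PowerSeries.coeff n (thq F) = (n : R) * PowerSeries.coeff n F := by
  unfold thq
  rw [PowerSeries.coeff_mk]

lemma d5_thq_mul (F G : PowerSeries R) : thq (F * G) = thq F * G + F * thq G := by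
  ext n
  rw [map_add, d5_thq_coeff, PowerSeries.coeff_mul, PowerSeries.coeff_mul, PowerSeries.coeff_mul,
    Finset.mul_sum, ← Finset.sum_add_distrib]
  refine Finset.sum_congr rfl fun p hp => ?_
  rw [d5_thq_coeff, d5_thq_coeff]
  have h : p.1 + p.2 = n := Finset.HasAntidiagonal.mem_antidiagonal.1 hp
  rw [← h]
  push_cast
  ring

lemma d5_thq_one : thq (1 : PowerSeries R) = 0 := by
  ext n
  rw [d5_thq_coeff, PowerSeries.coeff_one, map_zero]
  split_ifs with h
  · rw [h]; simp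
  · simp

/-- `j ∑_{l ≥ 1} X^(jl)`. -/
def d5G (R : Type*) [CommRing R] (j : ℕ) : PowerSeries R :=
  PowerSeries.mk fun n => if j ∣ n ∧ n ≠ 0 then (j : R) else 0

lemma d5e_G (j : ℕ) (hj : 1 ≤ j) : thq (1 - (X : PowerSeries R) ^ j) = - (d5G R j * (1 - X ^ j)) := by
  ext n
  rw [d5_thq_coeff, map_neg, mul_sub, mul_one, map_sub, map_sub, PowerSeries.coeff_mul_X_pow',
    PowerSeries.coeff_one, PowerSeries.coeff_X_pow]
  unfold d5G
  rw [PowerSeries.coeff_mk, PowerSeries.coeff_mk]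
  by_cases h1 : n = j
  · subst h1
    have h0 : n ≠ 0 := by omega
    rw [if_neg h0, if_pos rfl, if_pos ⟨dvd_refl _, h0⟩, if_pos le_rfl, if_neg (by simp)]
    ring
  · by_cases h2 : j ≤ n
    · have h0 : n ≠ 0 := by omega
      have h3 : (j ∣ n - j ∧ n - j ≠ 0) ↔ (j ∣ n ∧ n ≠ 0) := by
        constructor
        · rintro ⟨h, _⟩
          have h5 := dvd_add h (dvd_refl j)
          rw [Nat.sub_add_cancel h2] at h5
          exact ⟨h5, h0⟩
        · rintro ⟨h, _⟩
          exact ⟨Nat.dvd_sub h (dvd_refl _), by omega⟩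
      rw [if_neg h0, if_neg h1, if_pos h2]
      by_cases h4 : j ∣ n ∧ n ≠ 0
      · rw [if_pos h4, if_pos (h3.2 h4)]; ring
      · rw [if_neg h4, if_neg (fun h => h4 (h3.1 h))]; ring
    · rw [if_neg h2, if_neg h1]
      have h4 : ¬ (j ∣ n ∧ n ≠ 0) := by
        rintro ⟨h, h0⟩
        exact h2 (Nat.le_of_dvd (Nat.pos_of_ne_zero h0) h)
      rw [if_neg h4]
      by_cases h0 : n = 0
      · rw [h0]; simp
      · rw [if_neg h0]; simp

lemma d5_prod (k : ℕ) (hk : 1 ≤ k) (M : ℕ) :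
    thq (∏ m ∈ Finset.range M, (1 - (X : PowerSeries R) ^ (k * (m + 1)))) =
      - ((∑ m ∈ Finset.range M, d5G R (k * (m + 1))) *
        ∏ m ∈ Finset.range M, (1 - (X : PowerSeries R) ^ (k * (m + 1)))) := by
  induction M with
  | zero => simp [d5_thq_one]
  | succ M ih =>
    rw [Finset.prod_range_succ, Finset.sum_range_succ, d5_thq_mul, ih,
      d5e_G (k * (M + 1)) (Nat.mul_pos (by omega) (by omega))]
    ring

/-- `∑_{d ∣ n, k ∣ d} d`. -/
def d5S (R : Type*) [CommRing R] (k : ℕ) : PowerSeries R :=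
  PowerSeries.mk fun n => ∑ d ∈ n.divisors, if k ∣ d then (d : R) else 0

lemma d5_S_coeff (k : ℕ) (hk : 1 ≤ k) (n M : ℕ) (h : n ≤ M) :
    PowerSeries.coeff n (∑ m ∈ Finset.range M, d5G R (k * (m + 1))) =
      PowerSeries.coeff n (d5S R k) := by
  unfold d5S
  rw [map_sum, PowerSeries.coeff_mk, ← Finset.sum_filter]
  unfold d5G
  simp only [PowerSeries.coeff_mk]
  rw [← Finset.sum_filter]
  refine Finset.sum_bij (fun m _ => k * (m + 1)) ?_ ?_ ?_ ?_
  · intro m hm
    rw [Finset.mem_filter] at hm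
    rw [Finset.mem_filter, Nat.mem_divisors]
    exact ⟨hm.2, dvd_mul_right _ _⟩
  · intro a _ b _ hab
    have := Nat.eq_of_mul_eq_mul_left (by omega : 0 < k) hab
    omega
  · intro d hd
    rw [Finset.mem_filter, Nat.mem_divisors] at hd
    obtain ⟨⟨hd1, hn⟩, l, rfl⟩ := hd
    have hd0 : k * l ≠ 0 := fun h0 => hn (by rw [h0] at hd1; exact Nat.eq_zero_of_zero_dvd hd1)
    have hl : 1 ≤ l := by
      rcases Nat.eq_zero_or_pos l with h0 | h0
      · rw [h0, mul_zero] at hd0; exact absurd rfl hd0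
      · exact h0
    have hle : k * l ≤ n := Nat.le_of_dvd (Nat.pos_of_ne_zero hn) hd1
    have hl2 : l ≤ k * l := by nlinarith
    refine ⟨l - 1, ?_, ?_⟩
    · rw [Finset.mem_filter, Finset.mem_range, Nat.sub_add_cancel hl]
      exact ⟨by omega, hd1, hn⟩
    · show k * (l - 1 + 1) = k * l
      rw [Nat.sub_add_cancel hl]
  · intro m _
    rfl

/-- The logarithmic derivative of the product `∏ (1 - q^(kn))`. -/
lemma d5_euler (k : ℕ) (hk : 1 ≤ k) : thq (euler R k) = - (d5S R k * euler R k) := by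
  ext n
  have h1 := congrArg (PowerSeries.coeff n) (d5_prod (R := R) k hk n)
  rw [d5_thq_coeff, ← D3.d3_coeff_euler R k n n hk le_rfl, map_neg] at h1
  rw [d5_thq_coeff, h1, map_neg]
  congr 1
  rw [PowerSeries.coeff_mul, PowerSeries.coeff_mul]
  refine Finset.sum_congr rfl fun p hp => ?_
  have h : p.1 + p.2 = n := Finset.HasAntidiagonal.mem_antidiagonal.1 hp
  rw [d5_S_coeff k hk p.1 n (by omega), ← D3.d3_coeff_euler R k p.2 n hk (by omega)]

lemma d5_inv : thq (invOfUnit (euler R 1) 1) = d5S R 1 * invOfUnit (euler R 1) 1 := by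
  have h1 : euler R 1 * invOfUnit (euler R 1) 1 = 1 := fx_mul_inv R
  have h2 := congrArg thq h1
  rw [d5_thq_mul, d5_euler 1 le_rfl, d5_thq_one] at h2
  have h3 : euler R 1 * thq (invOfUnit (euler R 1) 1) = d5S R 1 := by
    linear_combination h2 + d5S R 1 * h1
  calc thq (invOfUnit (euler R 1) 1)
      = (euler R 1 * invOfUnit (euler R 1) 1) * thq (invOfUnit (euler R 1) 1) := by
        rw [h1, one_mul]
    _ = (euler R 1 * thq (invOfUnit (euler R 1) 1)) * invOfUnit (euler R 1) 1 := by ring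
    _ = d5S R 1 * invOfUnit (euler R 1) 1 := by rw [h3]

lemma d5_pow (F D : PowerSeries R) (h : thq F = D * F) (m : ℕ) :
    thq (F ^ m) = (m : PowerSeries R) * D * F ^ m := by
  induction m with
  | zero => simp [d5_thq_one]
  | succ m ih =>
    rw [pow_succ, d5_thq_mul, ih, h]
    push_cast
    ring

lemma d5_dlog : dlog5 R = 1 + 6 * (d5S R 1 - d5S R 5) := by
  have h1 : thq (euler R 5 * invOfUnit (euler R 1) 1) =
      (d5S R 1 - d5S R 5) * (euler R 5 * invOfUnit (euler R 1) 1) := by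
    rw [d5_thq_mul, d5_euler 5 (by norm_num), d5_inv]
    ring
  have h2 := d5_pow _ _ h1 6
  have h3 : (euler R 5 * invOfUnit (euler R 1) 1) ^ 6 *
      invOfUnit ((euler R 5 * invOfUnit (euler R 1) 1) ^ 6) 1 = 1 := by
    refine PowerSeries.mul_invOfUnit _ _ ?_
    rw [map_pow, map_mul, fx_constantCoeff_euler, fx_constantCoeff_inv]
    simp
  unfold dlog5
  rw [h2, mul_assoc, h3]
  push_cast
  ring

end

/-- `θf/f = 1 + 6 ∑ (∑_{d ∣ n, 5 ∤ d} d) q^n`. -/
theorem dlog5_eq (K : Type*) [Field K] : dlog5 K = 1 + PowerSeries.mk fun n ↦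
    6 * ∑ d ∈ n.divisors, if 5 ∣ d then 0 else (d : K) := by
  rw [d5_dlog]
  congr 1
  ext n
  have h6 : (6 : PowerSeries K) = C (6 : K) := by rw [map_ofNat]
  rw [h6, PowerSeries.coeff_C_mul, map_sub, PowerSeries.coeff_mk]
  unfold d5S
  rw [PowerSeries.coeff_mk, PowerSeries.coeff_mk, ← Finset.sum_sub_distrib]
  congr 1
  refine Finset.sum_congr rfl fun d _ => ?_
  rw [if_pos (one_dvd d)]
  split_ifs <;> simp

end D5

end GH
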