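import Pool.Agent.GH.Base
import Pool.Agent.GH.DefsU

/-!
# Ghost conjecture `(5,1)`: definitions used in the proof

`phi5 = E(q)^5/E(q^5)` (weight two), `hser5 = q E(q^25)/E(q)`, `dlog5 = θf/f`, the matrices
`Mat5 e y` of `U_5` in the bases `φ^y (θf/f)^e f^j` (`e = 0, 1`) of the forms of weight `2(y+e)`
on the component `e`, the evaluation `ev5 w : ℤ_5[[W]] → ℂ_5` and the parametrisation
`w = 121^y - 1` of the weights `z^{2y}`.
-/

open PowerSeries Filter Topology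

noncomputable section

namespace GH

namespace D5

instance fact_prime_five : Fact (Nat.Prime 5) := ⟨by norm_num⟩

/-- `φ = ∏ (1-q^n)^5/(1-q^{5n})`. -/
def phi5 (R : Type*) [CommRing R] : PowerSeries R := euler R 1 ^ 5 * invOfUnit (euler R 5) 1

/-- `h = q ∏ (1-q^{25n})/(1-q^n)`. -/
def hser5 (R : Type*) [CommRing R] : PowerSeries R :=
  X * (euler R 25 * invOfUnit (euler R 1) 1)

/-- `Q = 1 + 5T + 15T² + 25T³ + 25T⁴`. -/
def Qser5 (K : Type*) [CommRing K] : PowerSeries K :=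
  1 + C (5 : K) * X + C (15 : K) * X ^ 2 + C (25 : K) * X ^ 3 + C (25 : K) * X ^ 4

/-- `R_0 = 1 + 4T + 9T² + 10T³ + 5T⁴`, `R_1 = 1 + 10T + 45T² + 100T³ + 125T⁴`. -/
def Rser5 (K : Type*) [CommRing K] (e : ℕ) : PowerSeries K :=
  if e = 0 then
    1 + C (4 : K) * X + C (9 : K) * X ^ 2 + C (10 : K) * X ^ 3 + C (5 : K) * X ^ 4
  else
    1 + C (10 : K) * X + C (45 : K) * X ^ 2 + C (100 : K) * X ^ 3 + C (125 : K) * X ^ 4

/-- `θF = q dF/dq`. -/
def thq {R : Type*} [CommRing R] (F : PowerSeries R) : PowerSeries R :=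
  PowerSeries.mk fun n ↦ (n : R) * PowerSeries.coeff n F

/-- `θf/f` for the series `f = q ∏ ((1-q^{5n})/(1-q^n))^6`, computed as `θ(u)/u + 1` for
`f = q u`. -/
def dlog5 (R : Type*) [CommRing R] : PowerSeries R :=
  1 + thq ((euler R 5 * invOfUnit (euler R 1) 1) ^ 6) *
    invOfUnit ((euler R 5 * invOfUnit (euler R 1) 1) ^ 6) 1

/-- `φ^y`, a form of weight `2y`. -/
def phiPow {K : Type*} [Field K] (y : K) : PowerSeries K := ppow (phi5 K) y

/-- The form `φ^y (θf/f)^e` of weight `2(y+e)`. -/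
def frm5 {K : Type*} [Field K] (e : ℕ) (y : K) : PowerSeries K := phiPow y * dlog5 K ^ e

/-- The matrix of `U_5` in the basis `φ^y (θf/f)^e f^j`, `e = 0, 1`:
`[T^{5i-j}] R_e Q^{i+j-1-y}`. -/
def Mat5 {K : Type*} [Field K] (e : ℕ) (y : K) (i j : ℕ) : K :=
  if j ≤ 5 * i then
    PowerSeries.coeff (5 * i - j) (Rser5 K e * ppow (Qser5 K) ((i : K) + j - 1 - y))
  else 0

/-- The field `ℂ_5`. -/
abbrev C5 : Type := PadicComplex 5

/-- The Iwasawa algebra `ℤ_5[[W]]`. -/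
abbrev Lam5 : Type := PowerSeries ℤ_[5]

/-- The inclusion `ℤ_5 → ℂ_5`. -/
def iota5 : ℤ_[5] →+* C5 := (algebraMap ℚ_[5] C5).comp PadicInt.Coe.ringHom

/-- The evaluation of a power series over `ℤ_5` at `w`, `‖w‖ < 1`. -/
def ev5 (w : C5) (F : Lam5) : C5 := ∑' n : ℕ, iota5 (PowerSeries.coeff n F) * w ^ n

/-- The coefficientwise evaluation of a power series over `ℤ_5[[W]]`. -/
def evS5 (w : C5) (F : PowerSeries Lam5) : PowerSeries C5 :=
  PowerSeries.mk fun n ↦ ev5 w (PowerSeries.coeff n F)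

/-- `w(y) = 121^y - 1 = ∑_{n ≥ 1} binom(y, n) 120^n`. -/
def wx5 (y : C5) : C5 := ∑' n : ℕ, PowerSeries.coeff (n + 1) (binS y) * 120 ^ (n + 1)

/-- The 5-stabilised Eisenstein series
`1 - 2k/((1-5^(k-1)) B_k) ∑ (∑_{d ∣ n, 5 ∤ d} d^(k-1)) q^n` over `ℚ`. -/
def eisStab5 (k : ℕ) : PowerSeries ℚ :=
  1 + PowerSeries.mk fun n ↦ -(2 * k / ((1 - 5 ^ (k - 1)) * bernoulli k)) *
    ∑ d ∈ n.divisors, if 5 ∣ d then 0 else (d : ℚ) ^ (k - 1)

end D5

end GH
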