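import Pool.Agent.GH.D5.ClG4
import Pool.Agent.GH.ClEk

open PowerSeries Filter Topology

noncomputable section

namespace GH

namespace D5

/-! Eisenstein series of weight divisible by four in terms of `φ` and `f`. -/

open scoped MatrixGroups
open ModularForm UpperHalfPlane

/-! ### constant terms -/

theorem d5_ce_eis_zero (k : ℕ) : PowerSeries.constantCoeff (eisQ k) = 1 := by
  rw [← PowerSeries.coeff_zero_eq_constantCoeff_apply]
  unfold eisQ
  rw [map_add, PowerSeries.coeff_mk]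
  simp

theorem d5_ce_euler_zero (n : ℕ) : PowerSeries.constantCoeff (euler ℚ n) = 1 := by
  rw [← PowerSeries.coeff_zero_eq_constantCoeff_apply]
  unfold euler
  rw [PowerSeries.coeff_mk]
  simp

theorem d5_ce_invOfUnit_zero (u : PowerSeries ℚ) :
    PowerSeries.constantCoeff (invOfUnit u 1) = 1 := by
  rw [PowerSeries.constantCoeff_invOfUnit]
  simp

theorem d5_ce_phi5_zero : PowerSeries.constantCoeff (phi5 ℚ) = 1 := by
  unfold phi5
  rw [map_mul, map_pow, d5_ce_euler_zero, d5_ce_invOfUnit_zero, one_pow, mul_one]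

theorem d5_ce_haupt_zero : PowerSeries.constantCoeff (hauptmodul 5 ℚ) = 0 := by
  unfold hauptmodul
  rw [map_mul, PowerSeries.constantCoeff_X, zero_mul]

theorem d5_ce_G4_zero : PowerSeries.constantCoeff G4 = 1 := by
  unfold G4
  rw [map_mul, map_pow, d5_ce_phi5_zero, map_add, map_add, map_mul, map_mul, map_pow,
    d5_ce_haupt_zero, map_one]
  ring

/-- `E_4 = G4`. -/
theorem eisQ_four (hG : ∃ F : ModularForm 𝒮ℒ 4,
      qExpansion 1 F = PowerSeries.map (algebraMap ℚ ℂ) G4) : eisQ 4 = G4 := by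
  obtain ⟨F, hF⟩ := hG
  obtain ⟨c, hc⟩ := c2_main 1 4 (by norm_num) F G4 hF
  rw [show 1 / 3 + 1 = 1 from rfl, Finset.sum_range_one, mul_zero, Nat.sub_zero, pow_one,
    pow_zero, mul_one] at hc
  have h1 := congrArg PowerSeries.constantCoeff hc
  rw [map_mul, d5_ce_G4_zero, d5_ce_eis_zero, mul_one, PowerSeries.constantCoeff_C] at h1
  rw [hc, ← h1, map_one, one_mul]

/-- `E_{4m} = φ^{2m} P(f)`. -/
theorem eisQ_eq_phi5 (h4 : eisQ 4 = G4)
    (hd : hauptmodul 5 ℚ * phi5 ℚ ^ 6 = X * euler ℚ 1 ^ 24) (m : ℕ) (hm : 1 ≤ m) :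
    ∃ P : Polynomial ℚ, eisQ (4 * m) = phi5 ℚ ^ (2 * m) *
      ∑ i ∈ Finset.range (P.natDegree + 1), C (P.coeff i) * hauptmodul 5 ℚ ^ i := by
  obtain ⟨c, hc⟩ := eisQ_eq_sum m hm
  obtain ⟨h, hh⟩ : ∃ h : PowerSeries ℚ, h = hauptmodul 5 ℚ := ⟨_, rfl⟩
  obtain ⟨t, ht⟩ : ∃ t : PowerSeries ℚ, t = phi5 ℚ := ⟨_, rfl⟩
  obtain ⟨P, hP⟩ : ∃ P : Polynomial ℚ, P = ∑ b ∈ Finset.range (m / 3 + 1),
      Polynomial.C (c b) * (1 + Polynomial.C 250 * Polynomial.X +
        Polynomial.C 3125 * Polynomial.X ^ 2) ^ (m - 3 * b) * Polynomial.X ^ b := ⟨_, rfl⟩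
  refine ⟨P, ?_⟩
  have h1 : ∑ i ∈ Finset.range (P.natDegree + 1), C (P.coeff i) * hauptmodul 5 ℚ ^ i =
      Polynomial.aeval (hauptmodul 5 ℚ) P := by
    rw [Polynomial.aeval_eq_sum_range]
    refine Finset.sum_congr rfl fun i _ => ?_
    rw [PowerSeries.smul_eq_C_mul]
  rw [h1, hP, map_sum, hc, Finset.mul_sum]
  refine Finset.sum_congr rfl fun b hb => ?_
  rw [Finset.mem_range] at hb
  rw [map_mul, map_mul, map_pow, map_pow, map_add, map_add, map_one, map_mul, map_mul, map_pow,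
    Polynomial.aeval_X, Polynomial.aeval_C, Polynomial.aeval_C, Polynomial.aeval_C, ← hd, h4,
    G4, ← hh, ← ht]
  have h2 : (algebraMap ℚ (PowerSeries ℚ)) 250 = C 250 := rfl
  have h5 : (algebraMap ℚ (PowerSeries ℚ)) 3125 = C 3125 := rfl
  have h3 : (algebraMap ℚ (PowerSeries ℚ)) (c b) = C (c b) := rfl
  rw [h2, h3, h5]
  have h4 : t ^ (2 * m) = (t ^ 2) ^ (m - 3 * b) * (t ^ 6) ^ b := by
    rw [← pow_mul, ← pow_mul, ← pow_add]
    congr 1
    have : 3 * b ≤ m := by omega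
    omega
  rw [h4, mul_pow, mul_pow]
  ring

/-! ### the stabilisation -/

theorem d5_ce_sigma (j n : ℕ) (hn : n ≠ 0) :
    (ArithmeticFunction.sigma j (5 * n) : ℚ) - 5 ^ j * (ArithmeticFunction.sigma j n : ℚ) =
      ∑ d ∈ n.divisors, if 5 ∣ d then 0 else (d : ℚ) ^ j := by
  have h5n : 5 * n ≠ 0 := by omega
  rw [ArithmeticFunction.sigma_apply, ArithmeticFunction.sigma_apply]
  push_cast
  have h1 : ∑ d ∈ (5 * n).divisors, (d : ℚ) ^ j =
      ∑ d ∈ (5 * n).divisors.filter (fun d => ¬ 5 ∣ d), (d : ℚ) ^ j +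
        ∑ d ∈ (5 * n).divisors.filter (fun d => ¬ ¬ 5 ∣ d), (d : ℚ) ^ j :=
    (Finset.sum_filter_add_sum_filter_not _ _ _).symm
  have h3 : (5 * n).divisors.filter (fun d => ¬ 5 ∣ d) =
      n.divisors.filter (fun d => ¬ 5 ∣ d) := by
    ext d
    simp only [Finset.mem_filter, Nat.mem_divisors]
    constructor
    · rintro ⟨⟨h, _⟩, hd⟩
      have hcop : Nat.Coprime d 5 := ((Nat.Prime.coprime_iff_not_dvd Nat.prime_five).2 hd).symm
      exact ⟨⟨(Nat.Coprime.dvd_mul_left hcop).1 h, hn⟩, hd⟩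
    · rintro ⟨⟨h, _⟩, hd⟩
      exact ⟨⟨Dvd.dvd.mul_left h 5, h5n⟩, hd⟩
  have h4 : (5 * n).divisors.filter (fun d => ¬ ¬ 5 ∣ d) =
      n.divisors.image (fun d => 5 * d) := by
    ext d
    simp only [Finset.mem_filter, Nat.mem_divisors, Finset.mem_image, not_not]
    constructor
    · rintro ⟨⟨h, _⟩, e, rfl⟩
      exact ⟨e, ⟨Nat.dvd_of_mul_dvd_mul_left (by norm_num) h, hn⟩, rfl⟩
    · rintro ⟨e, ⟨h, _⟩, rfl⟩
      exact ⟨⟨Nat.mul_dvd_mul_left 5 h, h5n⟩, Dvd.intro e rfl⟩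
  rw [h1, h3, h4, Finset.sum_image (fun a _ b _ hab => by
    have : 5 * a = 5 * b := hab
    omega)]
  rw [Finset.mul_sum, Finset.sum_filter]
  have h5 : ∑ d ∈ n.divisors, (((5 * d : ℕ)) : ℚ) ^ j = ∑ d ∈ n.divisors, 5 ^ j * (d : ℚ) ^ j := by
    refine Finset.sum_congr rfl fun d _ => ?_
    push_cast
    rw [mul_pow]
  have h6 : ∑ d ∈ n.divisors, (if ¬ 5 ∣ d then (d : ℚ) ^ j else 0) =
      ∑ d ∈ n.divisors, (if 5 ∣ d then 0 else (d : ℚ) ^ j) := by
    refine Finset.sum_congr rfl fun d _ => ?_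
    rw [ite_not]
  rw [h5, h6]
  ring

/-- The 5-stabilisation. -/
theorem eisStab5_eq (k : ℕ) (hk : 2 ≤ k) :
    C ((1 : ℚ) - 5 ^ (k - 1)) * eisStab5 k = U 5 (eisQ k) - C ((5 : ℚ) ^ (k - 1)) * eisQ k := by
  have hne : (1 : ℚ) - 5 ^ (k - 1) ≠ 0 := by
    have h1 : (1 : ℚ) < 5 ^ (k - 1) := one_lt_pow₀ (by norm_num) (by omega)
    linarith
  ext n
  rw [map_sub (PowerSeries.coeff n), PowerSeries.coeff_C_mul, PowerSeries.coeff_C_mul]
  unfold U
  rw [PowerSeries.coeff_mk]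
  unfold eisStab5 eisQ
  rw [map_add, map_add, map_add, PowerSeries.coeff_mk, PowerSeries.coeff_mk,
    PowerSeries.coeff_mk, PowerSeries.coeff_one, PowerSeries.coeff_one]
  by_cases hn : n = 0
  · subst hn
    simp
  · rw [if_neg hn, if_neg (by omega)]
    have h1 := d5_ce_sigma (k - 1) n hn
    rw [← h1]
    have h2 : (1 - 5 ^ (k - 1) : ℚ) * (2 * k / ((1 - 5 ^ (k - 1)) * bernoulli k)) =
        2 * k / bernoulli k := by
      rw [mul_div_assoc', mul_div_mul_left _ _ hne]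
    linear_combination (-(ArithmeticFunction.sigma (k - 1) (5 * n) : ℚ) +
      5 ^ (k - 1) * (ArithmeticFunction.sigma (k - 1) n : ℚ)) * h2

end D5

end GH
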