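import Pool.Agent.GH.D5.UMat5A
import Pool.Agent.GH.D3.ClG12

open PowerSeries Filter Topology

noncomputable section

namespace GH

namespace D5

/-! The level one form `φ² (1 + 250f + 3125f²)` of weight four. -/

open GH.E4 GH.D3 ModularForm
open Complex (I exp)

/-- `φ² (1 + 250f + 3125f²)`. -/
def G4 : PowerSeries ℚ := phi5 ℚ ^ 2 *
  (1 + C (250 : ℚ) * hauptmodul 5 ℚ + C (3125 : ℚ) * hauptmodul 5 ℚ ^ 2)

/-- `G4(q^5) = φ² (1 + 10f + 5f²)`. -/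
theorem G4_expand (hh : HIds5 ℚ) : G4.expand 5 five_ne = phi5 ℚ ^ 2 *
    (1 + C (10 : ℚ) * hauptmodul 5 ℚ + C (5 : ℚ) * hauptmodul 5 ℚ ^ 2) := by
  have h1 : C (250 : ℚ) = (250 : PowerSeries ℚ) := map_ofNat _ 250
  have h2 : C (3125 : ℚ) = (3125 : PowerSeries ℚ) := map_ofNat _ 3125
  have h3 : C (10 : ℚ) = (10 : PowerSeries ℚ) := map_ofNat _ 10
  have h4 : C (5 : ℚ) = (5 : PowerSeries ℚ) := map_ofNat _ 5
  have h5 : G4.expand 5 five_ne = (phi5 ℚ).expand 5 five_ne ^ 2 *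
      (1 + 250 * (hauptmodul 5 ℚ).expand 5 five_ne +
        3125 * (hauptmodul 5 ℚ).expand 5 five_ne ^ 2) := by
    rw [G4, h1, h2]
    simp only [map_mul, map_pow, map_add, map_one, map_ofNat]
  have hf2 := hh.f2
  rw [h5, h3, h4, ← hh.t3]
  generalize (hauptmodul 5 ℚ).expand 5 five_ne = F at hf2 ⊢
  rw [hh.f1]
  generalize hser5 ℚ = h at hf2 ⊢
  generalize phi5 ℚ = φ
  linear_combination (φ ^ 2 * (250 * (1 + 5 * h + 15 * h ^ 2 + 25 * h ^ 3 + 25 * h ^ 4) +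
    3125 * (F * (1 + 5 * h + 15 * h ^ 2 + 25 * h ^ 3 + 25 * h ^ 4) + h ^ 5))) * hf2

/-! ### Values of the series -/

theorem d5_as_euler5 : AS (euler ℂ 5) := by
  rw [euler_expand ℂ 5 five_ne]
  exact (as_expand as_euler 5 five_ne).1

theorem d5_norm_pow {Q : ℂ} (hQ : ‖Q‖ < 1) : ‖Q ^ 5‖ < 1 := by
  rw [norm_pow]
  exact pow_lt_one₀ (norm_nonneg _) hQ five_ne

theorem d5_evc_euler5 {Q : ℂ} (hQ : ‖Q‖ < 1) : evc (euler ℂ 5) Q = Pq (Q ^ 5) := by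
  rw [euler_expand ℂ 5 five_ne, (as_expand as_euler 5 five_ne).2 Q hQ,
    evc_euler (d5_norm_pow hQ)]

theorem d5_as_einv5 : AS (invOfUnit (euler ℂ 5) 1) := by
  rw [einv_expand 5 five_ne]
  exact (as_expand as_einv 5 five_ne).1

theorem d5_evc_einv5 {Q : ℂ} (hQ : ‖Q‖ < 1) :
    evc (invOfUnit (euler ℂ 5) 1) Q = (Pq (Q ^ 5))⁻¹ := by
  rw [einv_expand 5 five_ne, (as_expand as_einv 5 five_ne).2 Q hQ, evc_einv (d5_norm_pow hQ)]

theorem d5_haupt5_eq : hauptmodul 5 ℂ = X ^ 1 * (euler ℂ 5 * einv) ^ 6 := by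
  rw [hauptmodul, pow_one, einv]

theorem d5_as_haupt5 : AS (hauptmodul 5 ℂ) := by
  rw [d5_haupt5_eq]
  exact (AS.X_pow 1).mul ((d5_as_euler5.mul as_einv).pow 6)

theorem d5_evc_haupt5 {Q : ℂ} (hQ : ‖Q‖ < 1) :
    evc (hauptmodul 5 ℂ) Q = Q * (Pq (Q ^ 5) * (Pq Q)⁻¹) ^ 6 := by
  rw [d5_haupt5_eq, evc_mul (AS.X_pow 1) ((d5_as_euler5.mul as_einv).pow 6) hQ, evc_X_pow,
    pow_one, evc_pow (d5_as_euler5.mul as_einv) 6 hQ, evc_mul d5_as_euler5 as_einv hQ,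
    d5_evc_euler5 hQ, evc_einv hQ]

theorem d5_as_phi5 : AS (phi5 ℂ) := (as_euler.pow 5).mul d5_as_einv5

theorem d5_evc_phi5 {Q : ℂ} (hQ : ‖Q‖ < 1) :
    evc (phi5 ℂ) Q = Pq Q ^ 5 * (Pq (Q ^ 5))⁻¹ := by
  rw [phi5, evc_mul (as_euler.pow 5) d5_as_einv5 hQ, evc_pow as_euler 5 hQ, evc_euler hQ,
    d5_evc_einv5 hQ]

/-- The series `φ² (1 + c f + d f²)` over `ℂ`. -/
def d5_ser (c d : ℂ) : PowerSeries ℂ := phi5 ℂ ^ 2 *
  (C 1 + C c * hauptmodul 5 ℂ + C d * hauptmodul 5 ℂ ^ 2)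

theorem d5_as_ser (c d : ℂ) : AS (d5_ser c d) :=
  (d5_as_phi5.pow 2).mul (((AS.const 1).add ((AS.const c).mul d5_as_haupt5)).add
    ((AS.const d).mul (d5_as_haupt5.pow 2)))

theorem d5_evc_ser (c d : ℂ) {Q : ℂ} (hQ : ‖Q‖ < 1) : evc (d5_ser c d) Q =
    evc (phi5 ℂ) Q ^ 2 * (1 + c * evc (hauptmodul 5 ℂ) Q + d * evc (hauptmodul 5 ℂ) Q ^ 2) := by
  have e1 : AS (C 1 : PowerSeries ℂ) := AS.const 1
  have e2 : AS (C c * hauptmodul 5 ℂ) := (AS.const c).mul d5_as_haupt5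
  have e3 : AS (C d * hauptmodul 5 ℂ ^ 2) := (AS.const d).mul (d5_as_haupt5.pow 2)
  rw [d5_ser, evc_mul (d5_as_phi5.pow 2) ((e1.add e2).add e3) hQ, evc_pow d5_as_phi5 2 hQ,
    evc_add (e1.add e2) e3 hQ, evc_add e1 e2 hQ, evc_const, evc_mul (AS.const c) d5_as_haupt5 hQ,
    evc_const, evc_mul (AS.const d) (d5_as_haupt5.pow 2) hQ, evc_const,
    evc_pow d5_as_haupt5 2 hQ]

/-! ### The functions on the upper half plane -/

/-- `a = η²`. -/
def d5_a (z : ℂ) : ℂ := eta z ^ 2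

theorem d5_a_ne {z : ℂ} (hz : 0 < z.im) : d5_a z ≠ 0 := pow_ne_zero _ (eta_ne_zero hz)

theorem d5_a_eq (z : ℂ) :
    d5_a z = exp (Real.pi * I * z / 6) * Pq (exp (2 * Real.pi * I * z)) ^ 2 := by
  rw [d5_a, eta, mul_pow]
  congr 1
  · rw [Function.Periodic.qParam, ← Complex.exp_nat_mul]
    congr 1
    push_cast
    ring
  · rw [Pq]
    simp only [eta_q, eta_q_exp]

theorem d5_sqrt_two {z : ℂ} (hz : z ≠ 0) : Complex.sqrt z ^ 2 = z := by
  rw [_root_.sqrt_eq_exp hz, ← Complex.exp_nat_mul]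
  have : ((2 : ℕ) : ℂ) * (Complex.log z / 2) = Complex.log z := by
    push_cast
    ring
  rw [this, Complex.exp_log hz]

theorem d5_a_S {z : ℂ} (hz : 0 < z.im) : d5_a (-1 / z) = -I * z * d5_a z := by
  have hz0 : z ≠ 0 := by
    rintro rfl
    simp at hz
  have h := eta_comp_eq_csqrt_I_inv hz
  have h1 : eta (-1 / z) = (Complex.sqrt I)⁻¹ * (Complex.sqrt z * eta z) := h
  rw [d5_a, h1, mul_pow, inv_pow, mul_pow, d5_sqrt_two hz0, d5_sqrt_two Complex.I_ne_zero,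
    d5_a, Complex.inv_I]
  ring

theorem d5_im_five {z : ℂ} (hz : 0 < z.im) : 0 < (5 * z).im := by
  have := im_nat_mul hz (n := 5) (by norm_num)
  simpa using this

theorem d5_im_fifth {z : ℂ} (hz : 0 < z.im) : 0 < (z / 5).im := by
  have h : z / 5 = (((1 / 5 : ℝ)) : ℂ) * z := by
    push_cast
    ring
  rw [h, Complex.re_ofReal_mul |> fun _ ↦ Complex.im_ofReal_mul]
  positivity

/-- `φ²`. -/
def d5_p (z : ℂ) : ℂ := d5_a z ^ 5 / d5_a (5 * z)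

/-- `f`. -/
def d5_f (z : ℂ) : ℂ := (d5_a (5 * z) / d5_a z) ^ 3

theorem d5_norm_exp {z : ℂ} (hz : 0 < z.im) : ‖exp (2 * Real.pi * I * z)‖ < 1 := by
  rw [← eta_q_exp]
  exact Function.Periodic.norm_qParam_lt_one one_pos hz

theorem d5_p_eq {z : ℂ} (hz : 0 < z.im) :
    d5_p z = evc (phi5 ℂ) (exp (2 * Real.pi * I * z)) ^ 2 := by
  have hQ := d5_norm_exp hz
  rw [d5_evc_phi5 hQ, d5_p, d5_a_eq, d5_a_eq]
  have h1 : exp (2 * Real.pi * I * (5 * z)) = exp (2 * Real.pi * I * z) ^ 5 := by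
    rw [← Complex.exp_nat_mul]
    congr 1
    push_cast
    ring
  have h2 : exp (Real.pi * I * (5 * z) / 6) = exp (Real.pi * I * z / 6) ^ 5 := by
    rw [← Complex.exp_nat_mul]
    congr 1
    push_cast
    ring
  rw [h1, h2]
  have h3 : Pq (exp (2 * Real.pi * I * z) ^ 5) ≠ 0 := Pq_ne (d5_norm_pow hQ)
  have h4 : exp (Real.pi * I * z / 6) ≠ 0 := Complex.exp_ne_zero _
  field_simp

theorem d5_f_eq {z : ℂ} (hz : 0 < z.im) :
    d5_f z = evc (hauptmodul 5 ℂ) (exp (2 * Real.pi * I * z)) := by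
  have hQ := d5_norm_exp hz
  rw [d5_evc_haupt5 hQ, d5_f, d5_a_eq, d5_a_eq]
  have h1 : exp (2 * Real.pi * I * (5 * z)) = exp (2 * Real.pi * I * z) ^ 5 := by
    rw [← Complex.exp_nat_mul]
    congr 1
    push_cast
    ring
  have h2 : exp (Real.pi * I * (5 * z) / 6) = exp (Real.pi * I * z / 6) ^ 5 := by
    rw [← Complex.exp_nat_mul]
    congr 1
    push_cast
    ring
  have h5 : exp (2 * Real.pi * I * z) = exp (Real.pi * I * z / 6) ^ 12 := by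
    rw [← Complex.exp_nat_mul]
    congr 1
    push_cast
    ring
  rw [h1, h2]
  have h3 : Pq (exp (2 * Real.pi * I * z)) ≠ 0 := Pq_ne hQ
  have h4 : exp (Real.pi * I * z / 6) ≠ 0 := Complex.exp_ne_zero _
  obtain ⟨E, hE⟩ : ∃ E : ℂ, E = exp (Real.pi * I * z / 6) := ⟨_, rfl⟩
  obtain ⟨A, hA⟩ : ∃ A : ℂ, A = Pq (exp (2 * Real.pi * I * z)) := ⟨_, rfl⟩
  obtain ⟨B, hB⟩ : ∃ B : ℂ, B = Pq (exp (2 * Real.pi * I * z) ^ 5) := ⟨_, rfl⟩
  rw [← hA, ← hB, h5, ← hE]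
  rw [← hE] at h4
  rw [← hA] at h3
  field_simp

/-- The function `φ² (1 + c f + d f²)`. -/
def d5_G (c d z : ℂ) : ℂ := d5_p z * (1 + c * d5_f z + d * d5_f z ^ 2)

theorem d5_G_eq (c d : ℂ) {z : ℂ} (hz : 0 < z.im) :
    evc (d5_ser c d) (exp (2 * Real.pi * I * z)) = d5_G c d z := by
  rw [d5_evc_ser c d (d5_norm_exp hz), d5_G, d5_p_eq hz, d5_f_eq hz]

theorem d5_G_add_one (c d : ℂ) {z : ℂ} (hz : 0 < z.im) : d5_G c d (z + 1) = d5_G c d z := by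
  have hz1 : 0 < (z + 1).im := by simpa using hz
  rw [← d5_G_eq c d hz, ← d5_G_eq c d hz1]
  congr 1
  rw [mul_add, Complex.exp_add, mul_one, Complex.exp_two_pi_mul_I, mul_one]

theorem d5_G_S (hD : ∀ u : ℂ, 0 < u.im → d5_G 250 3125 (5 * u) = d5_G 10 5 u) {z : ℂ}
    (hz : 0 < z.im) : d5_G 250 3125 (-1 / z) = z ^ 4 * d5_G 250 3125 z := by
  have hz0 : z ≠ 0 := by
    rintro rfl
    simp at hz
  obtain ⟨u, hu⟩ : ∃ u : ℂ, u = z / 5 := ⟨_, rfl⟩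
  have huim : 0 < u.im := by
    rw [hu]
    exact d5_im_fifth hz
  have hu5 : z = 5 * u := by
    rw [hu]
    ring
  have hu0 : u ≠ 0 := by
    rintro rfl
    simp at huim
  have hA := d5_a_ne huim
  have hA5 := d5_a_ne (d5_im_five huim)
  have h1 : 5 * (-1 / (5 * u)) = -1 / u := by
    field_simp
  have hI : I ≠ 0 := Complex.I_ne_zero
  have hI4 : I ^ 4 = 1 := Complex.I_pow_four
  have hp : d5_p (-1 / (5 * u)) = 5 ^ 5 * u ^ 4 * (d5_a (5 * u) ^ 5 / d5_a u) := by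
    rw [d5_p, h1, d5_a_S (d5_im_five huim), d5_a_S huim]
    field_simp
    linear_combination hI4
  have hf : d5_f (-1 / (5 * u)) = (d5_a u / (5 * d5_a (5 * u))) ^ 3 := by
    rw [d5_f, h1, d5_a_S (d5_im_five huim), d5_a_S huim]
    congr 1
    field_simp
  rw [hu5, hD u huim, d5_G, d5_G, hp, hf, d5_p, d5_f]
  field_simp
  ring

theorem d5_a_diff {z : ℂ} (hz : 0 < z.im) : DifferentiableAt ℂ d5_a z :=
  (differentiableAt_eta_of_mem_upperHalfPlaneSet hz).pow 2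

theorem d5_G_diff (c d : ℂ) {z : ℂ} (hz : 0 < z.im) : DifferentiableAt ℂ (d5_G c d) z := by
  have h1 : DifferentiableAt ℂ (fun t : ℂ ↦ d5_a (5 * t)) z :=
    DifferentiableAt.comp (g := d5_a) (f := fun t : ℂ ↦ 5 * t) z (d5_a_diff (d5_im_five hz))
      (by fun_prop)
  have h2 : DifferentiableAt ℂ d5_p z :=
    ((d5_a_diff hz).pow 5).div h1 (d5_a_ne (d5_im_five hz))
  have h3 : DifferentiableAt ℂ d5_f z := (h1.div (d5_a_diff hz) (d5_a_ne hz)).pow 3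
  exact h2.mul (((differentiableAt_const _).add (h3.const_mul c)).add ((h3.pow 2).const_mul d))

/-! ### The modular form -/

open scoped MatrixGroups Manifold
open ModularForm UpperHalfPlane CongruenceSubgroup SlashInvariantForm

/-- `G` on the upper half plane. -/
def d5_Gh (τ : ℍ) : ℂ := d5_G 250 3125 τ

theorem d5_Gh_T : (d5_Gh ∣[(4 : ℤ)] ModularGroup.T) = d5_Gh := by
  ext z
  rw [SL_slash_apply, denom, modular_T_smul, ModularGroup.T]
  have : d5_Gh ((1 : ℝ) +ᵥ z) = d5_Gh z := by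
    rw [d5_Gh, d5_Gh, UpperHalfPlane.coe_vadd, ← d5_G_add_one 250 3125 (z := (z : ℂ)) z.2]
    congr 1
    push_cast
    ring
  simp [this]

theorem d5_Gh_S (hD : ∀ u : ℂ, 0 < u.im → d5_G 250 3125 (5 * u) = d5_G 10 5 u) :
    (d5_Gh ∣[(4 : ℤ)] ModularGroup.S) = d5_Gh := by
  ext z
  have hz : (z : ℂ) ≠ 0 := ne_zero z
  suffices d5_G 250 3125 (-(z : ℂ)⁻¹) * ((z : ℂ) ^ 4)⁻¹ = d5_G 250 3125 z by
    rw [SL_slash_apply, UpperHalfPlane.modular_S_smul]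
    simpa [denom, ModularGroup.S, d5_Gh] using this
  have h := d5_G_S hD z.2
  have h1 : -(z : ℂ)⁻¹ = -1 / z := by rw [neg_div, one_div]
  have h0 : (z : ℂ) = z.1 := rfl
  rw [← h0] at h
  rw [h1, h]
  have h4 : ((z : ℂ) ^ 4) ≠ 0 := pow_ne_zero _ hz
  field_simp

theorem d5_hasSum_G (τ : ℍ) : HasSum
    (fun n : ℕ ↦ PowerSeries.coeff n (d5_ser 250 3125) •
      (Function.Periodic.qParam 1 (τ : ℂ)) ^ n) (d5_Gh τ) := by
  have hQ : ‖Function.Periodic.qParam 1 (τ : ℂ)‖ < 1 :=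
    Function.Periodic.norm_qParam_lt_one one_pos τ.2
  have h := (d5_as_ser 250 3125).hasSum hQ
  rw [eta_q_exp, d5_G_eq 250 3125 τ.2] at h
  rw [eta_q_exp]
  exact h

theorem d5_Gh_bounded : IsBoundedAtImInfty d5_Gh :=
  isBoundedAtImInfty_of_hasSum_qExpansion (h := 1) one_pos d5_hasSum_G

/-- The level one form of weight four. -/
def d5_form (hD : ∀ u : ℂ, 0 < u.im → d5_G 250 3125 (5 * u) = d5_G 10 5 u) :
    ModularForm 𝒮ℒ 4 where
  toFun := d5_Gh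
  slash_action_eq' A hA := by
    obtain ⟨A, rfl⟩ := hA
    exact slash_action_generators_SL2Z (d5_Gh_S hD) d5_Gh_T A
  holo' := by
    rw [UpperHalfPlane.mdifferentiable_iff]
    refine DifferentiableOn.congr (f := d5_G 250 3125) (fun z hz ↦
      (d5_G_diff 250 3125 hz).differentiableWithinAt) fun z hz ↦ ?_
    simp [d5_Gh, ofComplex_apply_of_im_pos hz]
  bdd_at_cusps' hc := by
    rw [Subgroup.IsArithmetic.isCusp_iff_isCusp_SL2Z] at hc
    rw [OnePoint.isBoundedAt_iff_forall_SL2Z hc]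
    intro γ _
    rw [slash_action_generators_SL2Z (d5_Gh_S hD) d5_Gh_T]
    exact d5_Gh_bounded

theorem d5_coeff_form (hD : ∀ u : ℂ, 0 < u.im → d5_G 250 3125 (5 * u) = d5_G 10 5 u) (n : ℕ) :
    (qExpansion 1 (d5_form hD)).coeff n = PowerSeries.coeff n (d5_ser 250 3125) :=
  (ModularFormClass.qExpansion_coeff_unique one_pos one_mem_strictPeriods_SL
    (f := d5_form hD) (c := fun n ↦ PowerSeries.coeff n (d5_ser 250 3125)) d5_hasSum_G n).symm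

theorem d5_map_phi (R S : Type*) [CommRing R] [CommRing S] (φ : R →+* S) :
    PowerSeries.map φ (phi5 R) = phi5 S := by
  rw [phi5, phi5, map_mul, map_pow, map_euler, map_eulerInv]

theorem d5_map_ser (c d : ℚ) : PowerSeries.map (algebraMap ℚ ℂ) (phi5 ℚ ^ 2 *
    (1 + C c * hauptmodul 5 ℚ + C d * hauptmodul 5 ℚ ^ 2)) =
    d5_ser (algebraMap ℚ ℂ c) (algebraMap ℚ ℂ d) := by
  rw [d5_ser, map_mul, map_pow, d5_map_phi, map_add, map_add, map_mul, map_mul, map_one,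
    PowerSeries.map_C, PowerSeries.map_C, map_pow, map_haupt, map_one]

theorem exists_G4_form (hD : G4.expand 5 five_ne = phi5 ℚ ^ 2 *
      (1 + C (10 : ℚ) * hauptmodul 5 ℚ + C (5 : ℚ) * hauptmodul 5 ℚ ^ 2)) :
    ∃ F : ModularForm 𝒮ℒ 4, qExpansion 1 F = PowerSeries.map (algebraMap ℚ ℂ) G4 := by
  have h1 : PowerSeries.map (algebraMap ℚ ℂ) G4 = d5_ser 250 3125 := by
    rw [G4, d5_map_ser]
    simp
  have h2 : (d5_ser 250 3125).expand 5 five_ne = d5_ser 10 5 := by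
    have h3 := congrArg (PowerSeries.map (algebraMap ℚ ℂ)) hD
    rw [PowerSeries.map_expand, h1, d5_map_ser] at h3
    rw [h3]
    simp
  have hD' : ∀ u : ℂ, 0 < u.im → d5_G 250 3125 (5 * u) = d5_G 10 5 u := by
    intro u hu
    have hQ := d5_norm_exp hu
    have h5 : exp (2 * Real.pi * Complex.I * (5 * u)) = exp (2 * Real.pi * Complex.I * u) ^ 5 := by
      rw [← Complex.exp_nat_mul]
      congr 1
      push_cast
      ring
    rw [← d5_G_eq 250 3125 (d5_im_five hu), ← d5_G_eq 10 5 hu, h5,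
      ← (as_expand (d5_as_ser 250 3125) 5 five_ne).2 _ hQ, h2]
  refine ⟨d5_form hD', ?_⟩
  rw [h1]
  ext n
  exact d5_coeff_form hD' n

end D5

end GH
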