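import Pool.Agent.GH.D5.Base5
import Pool.Agent.GH.FExp

open PowerSeries Filter Topology

noncomputable section

namespace GH

namespace D5

/-! The stabilised Eisenstein series of weight `4m` is `φ^{2m}` times an overconvergent
function. -/

lemma d5_cs_inv (R : Type*) [CommRing R] (k : ℕ) : euler R k * invOfUnit (euler R k) 1 = 1 :=
  PowerSeries.mul_invOfUnit _ _ (by rw [fx_constantCoeff_euler]; rfl)

lemma d5_cs_map_inv {R S : Type*} [CommRing R] [CommRing S] (φ : R →+* S) (k : ℕ) :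
    PowerSeries.map φ (invOfUnit (euler R k) 1) = invOfUnit (euler S k) 1 := by
  have h1 : euler S k * PowerSeries.map φ (invOfUnit (euler R k) 1) = 1 := by
    rw [← fx_map_euler φ k, ← map_mul, d5_cs_inv, map_one]
  have h2 := d5_cs_inv S k
  calc PowerSeries.map φ (invOfUnit (euler R k) 1)
      = (euler S k * invOfUnit (euler S k) 1) * PowerSeries.map φ (invOfUnit (euler R k) 1) := by
        rw [h2, one_mul]
    _ = invOfUnit (euler S k) 1 * (euler S k * PowerSeries.map φ (invOfUnit (euler R k) 1)) := by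
        ring
    _ = invOfUnit (euler S k) 1 := by rw [h1, mul_one]

lemma d5_cs_map_phi5 {R S : Type*} [CommRing R] [CommRing S] (φ : R →+* S) :
    PowerSeries.map φ (phi5 R) = phi5 S := by
  unfold phi5
  rw [map_mul, map_pow, fx_map_euler, d5_cs_map_inv]

lemma d5_cs_phi50 (R : Type*) [CommRing R] : PowerSeries.constantCoeff (phi5 R) = 1 := by
  unfold phi5
  rw [map_mul, map_pow, fx_constantCoeff_euler, PowerSeries.constantCoeff_invOfUnit]
  simp

lemma d5_cs_map_U {R S : Type*} [CommRing R] [CommRing S] (φ : R →+* S) (F : PowerSeries R) :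
    PowerSeries.map φ (U 5 F) = U 5 (PowerSeries.map φ F) := by
  ext n
  rw [PowerSeries.coeff_map]
  unfold U
  rw [PowerSeries.coeff_mk, PowerSeries.coeff_mk, PowerSeries.coeff_map]

/-- polynomials in `f` -/
lemma d5_cs_poly (P : Polynomial ℚ) :
    PowerSeries.map (algebraMap ℚ C5)
      (∑ i ∈ Finset.range (P.natDegree + 1), C (P.coeff i) * hauptmodul 5 ℚ ^ i) =
      (((P.map (algebraMap ℚ C5) : Polynomial C5) : PowerSeries C5)).subst
        (hauptmodul 5 C5) := by
  rw [PowerSeries.subst_coe (fx_hasSubst 5), Polynomial.aeval_def,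
    Polynomial.eval₂_eq_sum_range' _ (n := P.natDegree + 1)
      (Nat.lt_succ_of_le (Polynomial.natDegree_map_le)), map_sum]
  refine Finset.sum_congr rfl fun i _ => ?_
  rw [map_mul, map_pow, map_hauptmodul, PowerSeries.map_C, Polynomial.coeff_map]
  rfl

theorem exists_stab5
    (hE : ∀ m : ℕ, 1 ≤ m → ∃ P : Polynomial ℚ, eisQ (4 * m) = phi5 ℚ ^ (2 * m) *
      ∑ i ∈ Finset.range (P.natDegree + 1), C (P.coeff i) * hauptmodul 5 ℚ ^ i)
    (hS : ∀ k : ℕ, 2 ≤ k → C ((1 : ℚ) - 5 ^ (k - 1)) * eisStab5 k =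
      U 5 (eisQ k) - C ((5 : ℚ) ^ (k - 1)) * eisQ k)
    (hU : ∀ (y : C5) (u : PowerSeries C5), U 5 (phiPow y * u.subst (hauptmodul 5 C5)) =
      phiPow y * (PowerSeries.mk fun i ↦
        ∑ j ∈ Finset.range (5 * i + 1), Mat5 0 y i j * PowerSeries.coeff j u).subst
        (hauptmodul 5 C5))
    (hb : ∀ m : ℕ, phiPow (m : C5) = phi5 C5 ^ m)
    (hB : ∀ y : C5, ‖y‖ ≤ 1 → ∀ i j : ℕ, j ≤ 5 * i →
      ‖Mat5 0 y i j‖ * (9 / 5 : ℝ) ^ (5 * i - j) ≤ (9 / 5 : ℝ) ^ 2)
    (m : ℕ) (hm : 1 ≤ m) :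
    ∃ u : PowerSeries C5, PowerSeries.coeff 0 u = 1 ∧
      (∃ B : ℝ, ∀ n, ‖PowerSeries.coeff n u‖ * (9 / 5 : ℝ) ^ n ≤ B) ∧
      PowerSeries.map (algebraMap ℚ C5) (eisStab5 (4 * m)) =
        phiPow ((2 * m : ℕ) : C5) * u.subst (hauptmodul 5 C5) := by
  obtain ⟨P, hP⟩ := hE m hm
  have hS1 := congrArg (PowerSeries.map (algebraMap ℚ C5)) (hS (4 * m) (by omega))
  have hs : HasSubst (hauptmodul 5 C5) := fx_hasSubst 5
  set Q : Polynomial C5 := P.map (algebraMap ℚ C5) with hQ
  set x : C5 := ((2 * m : ℕ) : C5) with hx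
  have hbm : phiPow x = phi5 C5 ^ (2 * m) := hb (2 * m)
  -- the Eisenstein series over `ℂ_5`
  have hE1 : PowerSeries.map (algebraMap ℚ C5) (eisQ (4 * m)) =
      phiPow x * (Q : PowerSeries C5).subst (hauptmodul 5 C5) := by
    rw [hP, map_mul, map_pow, d5_cs_map_phi5, d5_cs_poly, hbm]
  have hne : (1 : C5) - 5 ^ (4 * m - 1) ≠ 0 := by
    intro h0
    have h1 : (1 : C5) = 5 ^ (4 * m - 1) := sub_eq_zero.1 h0
    have h2 : (((1 : ℕ)) : C5) = ((5 ^ (4 * m - 1) : ℕ) : C5) := by push_cast; exact h1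
    have h3 : 1 = 5 ^ (4 * m - 1) := Nat.cast_injective h2
    have h4 : 5 ^ 1 ≤ 5 ^ (4 * m - 1) := Nat.pow_le_pow_right (by norm_num) (by omega)
    omega
  set c : C5 := (1 : C5) - 5 ^ (4 * m - 1) with hc
  set d : C5 := (5 : C5) ^ (4 * m - 1) with hd
  set v : PowerSeries C5 := PowerSeries.mk fun i ↦
        ∑ j ∈ Finset.range (5 * i + 1), Mat5 0 x i j * PowerSeries.coeff j (Q : PowerSeries C5)
    with hv
  have hcc : algebraMap ℚ C5 ((1 : ℚ) - 5 ^ (4 * m - 1)) = c := by
    rw [hc, hd]; simp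
  have hdd : algebraMap ℚ C5 ((5 : ℚ) ^ (4 * m - 1)) = d := by
    rw [hd]; simp
  rw [map_mul, PowerSeries.map_C, hcc, map_sub (PowerSeries.map (algebraMap ℚ C5)), d5_cs_map_U,
    map_mul (PowerSeries.map (algebraMap ℚ C5)), hE1, hU, PowerSeries.map_C, hdd, ← hv] at hS1
  set u : PowerSeries C5 := C c⁻¹ * (v - C d * (Q : PowerSeries C5)) with hu
  have hCs : ∀ a : C5, ∀ w : PowerSeries C5,
      (C a * w).subst (hauptmodul 5 C5) = C a * w.subst (hauptmodul 5 C5) := by
    intro a w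
    rw [PowerSeries.subst_mul hs]
    exact congrArg (fun z => z * w.subst (hauptmodul 5 C5)) (PowerSeries.subst_C a)
  have heq : PowerSeries.map (algebraMap ℚ C5) (eisStab5 (4 * m)) =
        phiPow x * u.subst (hauptmodul 5 C5) := by
    rw [hu, hCs, PowerSeries.subst_sub hs, hCs]
    have h1 : (C c⁻¹ : PowerSeries C5) * C c = 1 := by
      rw [← map_mul, inv_mul_cancel₀ hne, map_one]
    calc PowerSeries.map (algebraMap ℚ C5) (eisStab5 (4 * m))
        = (C c⁻¹ * C c) * PowerSeries.map (algebraMap ℚ C5) (eisStab5 (4 * m)) := by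
          rw [h1, one_mul]
      _ = C c⁻¹ * (C c * PowerSeries.map (algebraMap ℚ C5) (eisStab5 (4 * m))) := by ring
      _ = _ := by rw [hS1]; ring
  refine ⟨u, ?_, ?_, heq⟩
  · -- the constant coefficient
    have h1 := congrArg (PowerSeries.constantCoeff) heq
    rw [hbm, map_mul, map_pow, d5_cs_phi50, one_pow, one_mul,
      ← PowerSeries.coeff_zero_eq_constantCoeff_apply,
      ← PowerSeries.coeff_zero_eq_constantCoeff_apply, fx_coeff_subst, PowerSeries.coeff_map,
      Finset.sum_range_zero, zero_add] at h1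
    rw [← h1]
    unfold eisStab5
    rw [map_add, PowerSeries.coeff_mk]
    simp
  · -- the bound
    obtain ⟨A, hA⟩ : ∃ A : ℝ, A = ∑ j ∈ Finset.range (P.natDegree + 1), ‖Q.coeff j‖ := ⟨_, rfl⟩
    have hA0 : 0 ≤ A := hA ▸ Finset.sum_nonneg fun j _ => norm_nonneg _
    have hQz : ∀ j, P.natDegree < j → Q.coeff j = 0 := by
      intro j hj
      rw [hQ, Polynomial.coeff_map, Polynomial.coeff_eq_zero_of_natDegree_lt hj, map_zero]
    have hQA : ∀ j, ‖Q.coeff j‖ ≤ A := by
      intro j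
      by_cases hj : j ≤ P.natDegree
      · rw [hA]
        exact Finset.single_le_sum (f := fun j => ‖Q.coeff j‖) (fun j _ => norm_nonneg _)
          (Finset.mem_range.2 (Nat.lt_succ_of_le hj))
      · rw [hQz j (by omega), norm_zero]
        exact hA0
    have hx1 : ‖x‖ ≤ 1 := by
      rw [hx]
      exact IsUltrametricDist.norm_natCast_le_one C5 _
    have hd1 : ‖d‖ ≤ 1 := by
      rw [hd, norm_pow]
      refine pow_le_one₀ (norm_nonneg _) ?_
      have h := IsUltrametricDist.norm_natCast_le_one C5 5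
      simpa using h
    have hv1 : ∀ n, ‖PowerSeries.coeff n v‖ * (9 / 5 : ℝ) ^ n ≤
        (9 / 5) ^ (P.natDegree + 2) * A := by
      intro n
      have h1 : ‖PowerSeries.coeff n v‖ ≤
          ((5 / 9 : ℝ) ^ 5) ^ n * ((9 / 5) ^ (P.natDegree + 2) * A) := by
        rw [hv, PowerSeries.coeff_mk]
        refine (IsUltrametricDist.norm_sum_le_of_forall_le_of_nonneg (by positivity)
          fun j hj => ?_)
        rw [Polynomial.coeff_coe, norm_mul]
        by_cases hjP : j ≤ P.natDegree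
        · have hj2 : j ≤ 5 * n := by
            have := Finset.mem_range.1 hj
            omega
          have h2 : ‖Mat5 0 x n j‖ ≤ ((5 / 9 : ℝ) ^ 5) ^ n * (9 / 5) ^ (P.natDegree + 2) := by
            have h3 := hB x hx1 n j hj2
            have h4 : (9 / 5 : ℝ) ^ (5 * n - j) * (5 / 9) ^ (5 * n - j) = 1 := by
              rw [← mul_pow]
              norm_num
            have h5 : (5 / 9 : ℝ) ^ (5 * n - j) = ((5 / 9 : ℝ) ^ 5) ^ n * (9 / 5) ^ j := by
              have h6 : (5 / 9 : ℝ) ^ (5 * n - j) * (5 / 9) ^ j = ((5 / 9 : ℝ) ^ 5) ^ n := by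
                rw [← pow_add, Nat.sub_add_cancel hj2, pow_mul]
              rw [← h6, mul_assoc, ← mul_pow]
              norm_num
            calc ‖Mat5 0 x n j‖
                = ‖Mat5 0 x n j‖ * ((9 / 5 : ℝ) ^ (5 * n - j) * (5 / 9) ^ (5 * n - j)) := by
                  rw [h4, mul_one]
              _ = (‖Mat5 0 x n j‖ * (9 / 5 : ℝ) ^ (5 * n - j)) * (5 / 9) ^ (5 * n - j) := by
                  ring
              _ ≤ (9 / 5) ^ 2 * (5 / 9) ^ (5 * n - j) :=
                  mul_le_mul_of_nonneg_right h3 (by positivity)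
              _ = ((5 / 9 : ℝ) ^ 5) ^ n * ((9 / 5) ^ 2 * (9 / 5) ^ j) := by
                  rw [h5]; ring
              _ ≤ ((5 / 9 : ℝ) ^ 5) ^ n * ((9 / 5) ^ 2 * (9 / 5) ^ P.natDegree) := by
                  refine mul_le_mul_of_nonneg_left (mul_le_mul_of_nonneg_left ?_ (by positivity))
                    (by positivity)
                  exact pow_le_pow_right₀ (by norm_num) hjP
              _ = _ := by rw [pow_add (9 / 5 : ℝ) P.natDegree 2]; ring
          calc ‖Mat5 0 x n j‖ * ‖Q.coeff j‖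
              ≤ (((5 / 9 : ℝ) ^ 5) ^ n * (9 / 5) ^ (P.natDegree + 2)) * A :=
                mul_le_mul h2 (hQA j) (norm_nonneg _) (by positivity)
            _ = _ := by ring
        · rw [hQz j (by omega), norm_zero, mul_zero]
          positivity
      calc ‖PowerSeries.coeff n v‖ * (9 / 5 : ℝ) ^ n
          ≤ (((5 / 9 : ℝ) ^ 5) ^ n * ((9 / 5) ^ (P.natDegree + 2) * A)) * (9 / 5 : ℝ) ^ n :=
            mul_le_mul_of_nonneg_right h1 (by positivity)
        _ = ((5 / 9 : ℝ) ^ 5 * (9 / 5)) ^ n * ((9 / 5) ^ (P.natDegree + 2) * A) := by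
            rw [mul_pow]; ring
        _ ≤ 1 * ((9 / 5) ^ (P.natDegree + 2) * A) :=
            mul_le_mul_of_nonneg_right (pow_le_one₀ (by norm_num) (by norm_num)) (by positivity)
        _ = _ := one_mul _
    have hq1 : ∀ n, ‖Q.coeff n‖ * (9 / 5 : ℝ) ^ n ≤ (9 / 5) ^ (P.natDegree + 2) * A := by
      intro n
      by_cases hn : n ≤ P.natDegree
      · rw [mul_comm]
        exact mul_le_mul (pow_le_pow_right₀ (by norm_num) (by omega)) (hQA n) (norm_nonneg _)
          (by positivity)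
      · rw [hQz n (by omega), norm_zero, zero_mul]
        positivity
    refine ⟨‖c⁻¹‖ * ((9 / 5) ^ (P.natDegree + 2) * A + (9 / 5) ^ (P.natDegree + 2) * A), fun n => ?_⟩
    have h1 : PowerSeries.coeff n u = c⁻¹ * (PowerSeries.coeff n v - d * Q.coeff n) := by
      rw [hu, PowerSeries.coeff_C_mul, map_sub, PowerSeries.coeff_C_mul, Polynomial.coeff_coe]
    rw [h1, norm_mul, mul_assoc]
    refine mul_le_mul_of_nonneg_left ?_ (norm_nonneg _)
    have h2 : ‖PowerSeries.coeff n v - d * Q.coeff n‖ ≤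
        ‖PowerSeries.coeff n v‖ + ‖Q.coeff n‖ := by
      refine (norm_sub_le _ _).trans (add_le_add le_rfl ?_)
      rw [norm_mul]
      calc ‖d‖ * ‖Q.coeff n‖ ≤ 1 * ‖Q.coeff n‖ := mul_le_mul_of_nonneg_right hd1 (norm_nonneg _)
        _ = _ := one_mul _
    calc ‖PowerSeries.coeff n v - d * Q.coeff n‖ * (9 / 5 : ℝ) ^ n
        ≤ (‖PowerSeries.coeff n v‖ + ‖Q.coeff n‖) * (9 / 5 : ℝ) ^ n :=
          mul_le_mul_of_nonneg_right h2 (by positivity)
      _ = ‖PowerSeries.coeff n v‖ * (9 / 5 : ℝ) ^ n + ‖Q.coeff n‖ * (9 / 5 : ℝ) ^ n := by ring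
      _ ≤ _ := add_le_add (hv1 n) (hq1 n)

end D5

end GH
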