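import Pool.Agent.GH.D5.Main5
import Pool.Agent.GH.DP.CompactP

/-!
# `U_5` is completely continuous on the overconvergent cusp forms of every even weight
-/

open PowerSeries Filter Topology

noncomputable section

namespace GH

namespace D5

open GP DP CombU

theorem decay_five (κ : Weight 5) (hκ : κ.IsEven) :
    ∃ R : ℝ, 1 < R ∧ ∃ c : ℝ, 0 < c ∧
      (∀ i j : ℕ, 1 ≤ j → j ≤ 5 * i → ‖κ.uMatrixU i j‖ ≤ c * R⁻¹ ^ (5 * i - j)) ∧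
      (∀ i j : ℕ, 1 ≤ j → 5 * i < j → κ.uMatrixU i j = 0) := by
  have he : κ.nu ≤ 1 := by
    have h1 := (Weight.nu_spec κ hκ).1
    omega
  obtain ⟨E, hE⟩ := exists_eisFamP (p := 5) m5_ne_two
  obtain ⟨u, hu⟩ := exists_ord5 (fun y ↦ Mat5_zero_zero 0 y) (fun y hy i j h ↦
    norm_Mat5_zero_le hy h) (Mat5_isPoly 0)
  exact decay_of_central (p := 5) m5_ne_two E hE κ.nu (dlog5 ℤ_[5] ^ κ.nu)
    (by rw [map_pow, constantCoeff_dlog5, one_pow]) (m5_eis he) (9 / 5) (11 / 10)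
    ((9 / 5 : ℝ) ^ 2) (by norm_num) (by norm_num) (Mat5 κ.nu 0)
    (isUMat5_zero (hIds5 C5) he) (m5_dec he (by simp)) (fun w hw l ↦
      norm_Phi5_central E hE u hu hw l) κ hκ rfl

theorem compactU_five (κ : Weight 5) (hκ : κ.IsEven) : ∃ R : ℝ, 1 < R ∧ ∀ r : ℝ, 1 < r → r < R →
    (∀ F : PowerSeries (PadicComplex 5), κ.IsCuspFormU r F → κ.IsCuspFormU (r ^ 5) (U 5 F)) ∧
    (∀ F : PowerSeries (PadicComplex 5), κ.IsCuspFormU r F → ∀ i : ℕ,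
      fcoeff 5 (κ.frame⁻¹ * U 5 F) i =
        ∑ j ∈ Finset.range (5 * i + 1), κ.uMatrixU i j * fcoeff 5 (κ.frame⁻¹ * F) j) ∧
    (∃ ε : ℕ → ℝ, Tendsto ε atTop (𝓝 0) ∧
      ∀ i j : ℕ, 1 ≤ j → ‖κ.uMatrixU i j‖ * r ^ i ≤ ε i * r ^ j) := by
  obtain ⟨R, hR, c, hc, hA, hA0⟩ := decay_five κ hκ
  exact ⟨R, hR, fun r hr hrR ↦ compactU_of_decay κ hR hc hA hA0 r hr hrR⟩

end D5

end GH
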