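import Pool.Agent.GH.D5.Main5
import Pool.Agent.GH.D5.Compact5
import Pool.Agent.GH.M5.Final

/-! The ghost conjecture for `p = 5`, trivial tame level. -/

noncomputable section

namespace GH

namespace D5

theorem ghost5 : GhostConjectureU 5 := ghost5_of_central GH.M5.central5'

end D5

end GH
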