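import Pool.Agent.GH.D5.Param5
import Pool.Agent.GH.CombU.Defs5

open PowerSeries Filter Topology

noncomputable section

namespace GH

namespace D5

open GP CombU

/-! Valuations of the ghost coefficients, `p = 5`. -/

/-- The zeros `w_k (1+w) = ...`: `t l = 11^{4l} - 1`. -/
def zero5 (l : ℕ) : ℤ_[5] := 11 ^ (4 * l) - 1

theorem norm_zero5 (l : ℕ) : ‖zero5 l‖ ≤ ((5 : ℕ) : ℝ)⁻¹ := by
  have h1 : ∃ c : ℕ, 11 ^ (4 * l) = 5 * c + 1 := by
    induction l with
    | zero => exact ⟨0, rfl⟩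
    | succ l ih =>
      obtain ⟨c, hc⟩ := ih
      exact ⟨14641 * c + 2928, by
        rw [show 4 * (l + 1) = 4 * l + 4 by ring, pow_add, hc]; ring⟩
  obtain ⟨c, hc⟩ := h1
  have h2 : zero5 l = ((5 : ℕ) : ℤ_[5]) * (c : ℤ_[5]) := by
    unfold zero5
    have h3 : (11 : ℤ_[5]) ^ (4 * l) = ((11 ^ (4 * l) : ℕ) : ℤ_[5]) := by push_cast; rfl
    rw [h3, hc]
    push_cast
    ring
  rw [h2, norm_mul, PadicInt.norm_p]
  exact mul_le_of_le_one_right (by positivity) (PadicInt.norm_le_one _)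

theorem d5_gh_dimOne {e : ℕ} (he : e ≤ 1) (l : ℕ) : dimOne (2 * e + 4 * l) = (l - e) / 3 := by
  unfold dimOne
  split_ifs <;> omega

/-- The multiplicities. -/
theorem multG5_eq {e : ℕ} (he : e ≤ 1) (n l : ℕ) :
    multG 5 n (2 * e + 4 * l) = T5 e n (2 * l) := by
  unfold multG sfun dimNewG dimG T5 t5
  have h2 : nell2 5 = 2 := by
    unfold nell2
    norm_num
  have h3 : nell3 5 = 0 := by
    unfold nell3
    norm_num
  have h4 : (2 * e + 4 * l) / 4 = l := by omega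
  have h5 : 2 * l / 2 = l := by omega
  rw [h2, h3, h4, h5, d5_gh_dimOne he, if_pos (by omega : 2 * l % 2 = 0), zero_mul, add_zero]
  generalize (l - e) / 3 = d
  split_ifs <;> omega

theorem T5_zero_left (e m : ℕ) : T5 e 0 m = 0 := by
  unfold T5
  split_ifs
  · rw [Nat.zero_sub, Nat.zero_min]
  · rfl

theorem d5_gh_supp {e : ℕ} (he : e ≤ 1) (n l : ℕ) (h : 3 * n + 1 ≤ l) :
    T5 e n (2 * l) = 0 := by
  unfold T5 t5
  split_ifs <;> omega

theorem T5_supp {e : ℕ} (he : e ≤ 1) (n l : ℕ) (h : 3 * n + 3 ≤ l) : T5 e n (2 * l) = 0 :=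
  d5_gh_supp he n l (by omega)

/-- The increments of the multiplicities. -/
theorem d5_gh_succ (e n z : ℕ) : T5 e (n + 1) (2 * z) +
      (if z ≤ n ∧ n + 2 + (z - e) / 3 ≤ 2 * z then 1 else 0) =
    T5 e n (2 * z) + (if (z - e) / 3 ≤ n ∧ n + 2 ≤ z then 1 else 0) := by
  unfold T5 t5
  have h5 : 2 * z / 2 = z := by omega
  rw [h5, if_pos (by omega : 2 * z % 2 = 0), if_pos (by omega : 2 * z % 2 = 0)]
  split_ifs <;> omega

theorem d5_gh_neg {e : ℕ} (he : e ≤ 1) (n M : ℕ) (hM : n + 1 ≤ M) :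
    ∑ z ∈ Finset.range M, (if z ≤ n ∧ n + 2 + (z - e) / 3 ≤ 2 * z then 1 else 0) =
      n + 1 - (3 * n + 8 - e) / 5 := by
  rw [← Finset.card_filter]
  have h1 : (Finset.range M).filter (fun z => z ≤ n ∧ n + 2 + (z - e) / 3 ≤ 2 * z) =
      Finset.Ico ((3 * n + 8 - e) / 5) (n + 1) := by
    ext z
    simp only [Finset.mem_filter, Finset.mem_range, Finset.mem_Ico]
    omega
  rw [h1, Nat.card_Ico]

theorem d5_gh_pos {e : ℕ} (he : e ≤ 1) (n M : ℕ) (hM : 3 * n + 3 + e ≤ M) :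
    ∑ z ∈ Finset.range M, (if (z - e) / 3 ≤ n ∧ n + 2 ≤ z then 1 else 0) = 2 * n + 1 + e := by
  rw [← Finset.card_filter]
  have h1 : (Finset.range M).filter (fun z => (z - e) / 3 ≤ n ∧ n + 2 ≤ z) =
      Finset.Ico (n + 2) (3 * n + 3 + e) := by
    ext z
    simp only [Finset.mem_filter, Finset.mem_range, Finset.mem_Ico]
    omega
  rw [h1, Nat.card_Ico]
  omega

theorem d5_gh_sum {e : ℕ} (he : e ≤ 1) (n M : ℕ) (hM : 3 * n + 3 ≤ M) :
    ∑ l ∈ Finset.range M, T5 e n (2 * l) = B5 e n := by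
  induction n generalizing M with
  | zero =>
    rw [Finset.sum_eq_zero fun l _ => T5_zero_left e (2 * l)]
    rfl
  | succ n ih =>
    have h1 : ∑ z ∈ Finset.range M, (T5 e (n + 1) (2 * z) +
        (if z ≤ n ∧ n + 2 + (z - e) / 3 ≤ 2 * z then 1 else 0)) =
        ∑ z ∈ Finset.range M, (T5 e n (2 * z) +
          (if (z - e) / 3 ≤ n ∧ n + 2 ≤ z then 1 else 0)) :=
      Finset.sum_congr rfl fun z _ => d5_gh_succ e n z
    rw [Finset.sum_add_distrib, Finset.sum_add_distrib, d5_gh_neg he n M (by omega),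
      d5_gh_pos he n M (by omega), ih M (by omega)] at h1
    have h2 : B5 e (n + 1) = B5 e n + (8 * (n + 1) + 4 * e) / 5 := Finset.sum_range_succ _ _
    rw [h2]
    omega

/-- The number of zeros of `g_n`. -/
theorem sum_T5 {e : ℕ} (he : e ≤ 1) (n : ℕ) :
    ∑ l ∈ Finset.range (3 * n + 3), T5 e n (2 * l) = B5 e n :=
  d5_gh_sum he n _ le_rfl

theorem d5_gh_norm_eleven : ‖(11 : C5)‖ = 1 := by
  have h1 : (11 : C5) = algebraMap ℚ_[5] C5 ((11 : ℕ) : ℚ_[5]) := by
    rw [map_natCast]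
    norm_num
  rw [h1, norm_algebraMap', Padic.norm_natCast_eq_one_iff]
  decide

theorem d5_gh_io (l : ℕ) : io 5 (zero5 l) = (11 : C5) ^ (4 * l) - 1 := by
  unfold zero5
  rw [map_sub, map_pow, map_one, map_ofNat]

/-- The norm of the ghost coefficient. -/
theorem norm_ghostG5 {e : ℕ} (he : e ≤ 1) {w : C5} (hw : ‖w‖ < 1) (n : ℕ) :
    ‖ghostG 5 e (121 ^ e * (1 + w) - 1) n‖ =
      ∏ l ∈ Finset.range (3 * n + 3), ‖w - io 5 (zero5 l)‖ ^ T5 e n (2 * l) := by
  classical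
  have _ := hw
  have h121 : ‖((121 : C5)) ^ e‖ = 1 := by
    rw [show (121 : C5) = 11 ^ 2 by norm_num, norm_pow, norm_pow, d5_gh_norm_eleven, one_pow,
      one_pow]
  have hfac : ∀ l, (121 : C5) ^ e * (1 + w) - 1 - ((1 + 2 * ((5 : ℕ) : C5)) ^ (2 * e + 4 * l) - 1) =
      121 ^ e * (w - io 5 (zero5 l)) := by
    intro l
    rw [d5_gh_io, show (1 + 2 * ((5 : ℕ) : C5)) = 11 by norm_num, pow_add, pow_mul,
      show ((11 : C5) ^ 2) = 121 by norm_num]
    ring
  have hprod : ghostG 5 e ((121 : C5) ^ e * (1 + w) - 1) n =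
      ∏ l ∈ Finset.range (3 * n + 3), ((121 : C5) ^ e * (w - io 5 (zero5 l))) ^ T5 e n (2 * l) := by
    unfold ghostG
    rw [finprod_eq_prod_of_mulSupport_subset
      (s := (Finset.range (3 * n + 3)).image fun l => 2 * e + 4 * l)]
    · rw [Finset.prod_image (fun a _ b _ h => by simpa using h)]
      refine Finset.prod_congr rfl fun l _ => ?_
      rw [if_pos, hfac, multG5_eq he]
      refine ⟨?_, ?_⟩
      · rw [Nat.even_iff]
        omega
      · unfold Nat.ModEq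
        omega
    · intro k hk
      rw [Function.mem_mulSupport] at hk
      by_cases hev : Even k ∧ k ≡ 2 * e [MOD 5 - 1]
      · rw [if_pos hev] at hk
        obtain ⟨hev1, hev2⟩ := hev
        unfold Nat.ModEq at hev2
        have hk2 : k = 2 * e + 4 * (k / 4) := by omega
        rw [Finset.coe_image, Set.mem_image]
        refine ⟨k / 4, ?_, hk2.symm⟩
        rw [Finset.mem_coe, Finset.mem_range]
        by_contra hc
        apply hk
        rw [hk2, multG5_eq he, T5_supp he n _ (by omega), pow_zero]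
      · rw [if_neg hev] at hk
        exact absurd rfl hk
  rw [hprod, norm_prod]
  refine Finset.prod_congr rfl fun l _ => ?_
  rw [norm_pow, norm_mul, h121, one_mul]

/-- A product over the even numbers. -/
theorem d5_gh_even {M : Type*} [CommMonoid M] (g : ℕ → M) (hg : ∀ l, g (2 * l + 1) = 1)
    (N : ℕ) : ∏ m ∈ Finset.range (2 * N), g m = ∏ l ∈ Finset.range N, g (2 * l) := by
  induction N with
  | zero => simp
  | succ N ih =>
    rw [show 2 * (N + 1) = 2 * N + 1 + 1 by ring, Finset.prod_range_succ, Finset.prod_range_succ,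
      ih, Finset.prod_range_succ, hg, mul_one]

/-- The norm of the ghost coefficient on the central disc. -/
theorem norm_ghostG5_wx {e : ℕ} (he : e ≤ 1) {y : C5} (hy : ‖y‖ ≤ 1) (n : ℕ) :
    ‖ghostG 5 e (121 ^ e * (1 + wx5 y) - 1) n‖ = (5 : ℝ)⁻¹ ^ B5 e n *
      ∏ m ∈ Finset.range (Z5 n), ‖y - (m : C5)‖ ^ T5 e n m := by
  have hw : ‖wx5 y‖ < 1 := by
    rw [norm_wx5 hy]
    linarith
  have h1 : ∀ l, ‖wx5 y - io 5 (zero5 l)‖ = (5 : ℝ)⁻¹ * ‖y - ((2 * l : ℕ) : C5)‖ := by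
    intro l
    have h2 : io 5 (zero5 l) = wx5 ((2 * l : ℕ) : C5) := by
      rw [d5_gh_io, wx5_natCast, show 4 * l = 2 * (2 * l) by ring, pow_mul]
      norm_num
    rw [h2, norm_wx5_sub hy (IsUltrametricDist.norm_natCast_le_one C5 _)]
    ring
  have h3 : ∏ m ∈ Finset.range (Z5 n), ‖y - (m : C5)‖ ^ T5 e n m =
      ∏ l ∈ Finset.range (3 * n + 3), ‖y - ((2 * l : ℕ) : C5)‖ ^ T5 e n (2 * l) := by
    have h4 : Z5 n = 2 * (3 * n + 1) := by
      unfold Z5
      ring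
    rw [h4, d5_gh_even (fun m => ‖y - (m : C5)‖ ^ T5 e n m), show 3 * n + 3 = 3 * n + 1 + 1 + 1
      by ring, Finset.prod_range_succ _ (3 * n + 1 + 1), Finset.prod_range_succ _ (3 * n + 1),
      d5_gh_supp he n (3 * n + 1) le_rfl, d5_gh_supp he n (3 * n + 1 + 1) (by omega), pow_zero,
      pow_zero, mul_one, mul_one]
    intro l
    have h5 : T5 e n (2 * l + 1) = 0 := by
      unfold T5
      rw [if_neg (by omega)]
    simp only [h5, pow_zero]
  rw [norm_ghostG5 he hw n, h3, ← sum_T5 he n, ← Finset.prod_pow_eq_pow_sum,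
    ← Finset.prod_mul_distrib]
  refine Finset.prod_congr rfl fun l _ => ?_
  rw [h1, mul_pow]

end D5

end GH
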