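import Pool.Agent.GH.D5.Base5
import Pool.Agent.GH.FamA

open PowerSeries Filter Topology

noncomputable section

namespace GH

namespace D5

/-! Norm bounds for the matrices of `U_5`. -/

theorem norm_five_C5 : ‖(5 : C5)‖ = 5⁻¹ := by
  have h1 : (5 : C5) = algebraMap ℚ_[5] C5 ((5 : ℕ) : ℚ_[5]) := by
    rw [map_natCast]
    norm_num
  rw [h1, norm_algebraMap', Padic.norm_p]
  norm_num

theorem d5_ubn_natCast (n : ℕ) : ‖(n : C5)‖ = ‖(n : ℚ_[5])‖ := by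
  rw [← map_natCast (algebraMap ℚ_[5] C5) n, norm_algebraMap']

theorem d5_ubn_fac_val (n : ℕ) :
    ‖((n.factorial : ℕ) : C5)‖⁻¹ = 5 ^ (padicValNat 5 n.factorial) := by
  have h0 : ((n.factorial : ℕ) : ℚ_[5]) ≠ 0 := by
    exact_mod_cast Nat.factorial_ne_zero n
  rw [d5_ubn_natCast, Padic.norm_eq_zpow_neg_valuation h0, Padic.valuation_natCast]
  rw [← zpow_neg, neg_neg, zpow_natCast]
  norm_num

theorem d5_ubn_fac (n : ℕ) : ‖((n.factorial : ℕ) : C5)‖⁻¹ ≤ (3 / 2 : ℝ) ^ n := by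
  rw [d5_ubn_fac_val]
  have h1 := sub_one_mul_padicValNat_factorial (p := 5) n
  have h2 : 4 * padicValNat 5 n.factorial ≤ n := by omega
  calc (5 : ℝ) ^ (padicValNat 5 n.factorial)
      ≤ ((3 / 2 : ℝ) ^ 4) ^ (padicValNat 5 n.factorial) :=
        pow_le_pow_left₀ (by norm_num) (by norm_num) _
    _ = (3 / 2 : ℝ) ^ (4 * padicValNat 5 n.factorial) := by rw [pow_mul]
    _ ≤ (3 / 2 : ℝ) ^ n := pow_le_pow_right₀ (by norm_num) h2

theorem d5_ubn_int (m : ℤ) : ‖(m : C5)‖ ≤ 1 := IsUltrametricDist.norm_intCast_le_one C5 m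

theorem d5_ubn_nat (m : ℕ) : ‖(m : C5)‖ ≤ 1 := by
  have h := d5_ubn_int (m : ℤ)
  rwa [Int.cast_natCast] at h

/-- `‖5^k m‖ ≤ 5^(-k)`. -/
theorem d5_ubn_pk (k m : ℕ) : ‖((5 ^ k * m : ℕ) : C5)‖ ≤ (5 : ℝ)⁻¹ ^ k := by
  have h1 : ((5 ^ k * m : ℕ) : C5) = 5 ^ k * (m : C5) := by push_cast; ring
  rw [h1, norm_mul, norm_pow, norm_five_C5]
  exact mul_le_of_le_one_right (by positivity) (d5_ubn_nat m)

theorem d5_ubn_prod {s : C5} (n : ℕ) (h : ∀ l : ℕ, ‖s - l‖ ≤ 1) :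
    ‖∏ i ∈ Finset.range n, (s - i)‖ ≤ 1 := by
  rw [norm_prod]
  calc ∏ i ∈ Finset.range n, ‖s - i‖ ≤ ∏ _i ∈ Finset.range n, (1 : ℝ) :=
        Finset.prod_le_prod (fun i _ => norm_nonneg _) (fun i _ => h i)
    _ = 1 := by rw [Finset.prod_const_one]

/-- The Gauss norm of radius `r` is at most `c`. -/
def d5_Bd (r c : ℝ) (F : PowerSeries C5) : Prop := ∀ m, ‖PowerSeries.coeff m F‖ * r ^ m ≤ c

theorem d5_Bd_iff {r c : ℝ} (hr : 0 < r) {F : PowerSeries C5} :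
    d5_Bd r c F ↔ ∀ m, ‖PowerSeries.coeff m F‖ ≤ c / r ^ m := by
  unfold d5_Bd
  refine forall_congr' fun m => ?_
  rw [le_div_iff₀ (by positivity)]

theorem d5_Bd_nonneg {r c : ℝ} {F : PowerSeries C5} (h : d5_Bd r c F) : 0 ≤ c := by
  have h1 := h 0
  rw [pow_zero, mul_one] at h1
  exact (norm_nonneg _).trans h1

theorem d5_Bd_mul {r c c' : ℝ} (hr : 0 < r) {F G : PowerSeries C5} (hF : d5_Bd r c F)
    (hG : d5_Bd r c' G) : d5_Bd r (c * c') (F * G) := by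
  have hc := d5_Bd_nonneg hF
  have hc' := d5_Bd_nonneg hG
  rw [d5_Bd_iff hr]
  intro n
  rw [PowerSeries.coeff_mul]
  refine IsUltrametricDist.norm_sum_le_of_forall_le_of_nonneg (by positivity) fun ij hij => ?_
  rw [Finset.HasAntidiagonal.mem_antidiagonal] at hij
  rw [norm_mul, ← hij, le_div_iff₀ (by positivity), pow_add]
  calc ‖PowerSeries.coeff ij.1 F‖ * ‖PowerSeries.coeff ij.2 G‖ * (r ^ ij.1 * r ^ ij.2)
      = (‖PowerSeries.coeff ij.1 F‖ * r ^ ij.1) * (‖PowerSeries.coeff ij.2 G‖ * r ^ ij.2) := by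
        ring
    _ ≤ c * c' := mul_le_mul (hF _) (hG _) (by positivity) hc

theorem d5_Bd_one {r c : ℝ} (hc : 1 ≤ c) : d5_Bd r c 1 := by
  intro n
  rw [PowerSeries.coeff_one]
  split_ifs with h
  · rw [h, norm_one, pow_zero, mul_one]
    exact hc
  · rw [norm_zero, zero_mul]
    linarith

theorem d5_Bd_pow {r c : ℝ} (hr : 0 < r) {F : PowerSeries C5} (hF : d5_Bd r c F) (m : ℕ) :
    d5_Bd r (c ^ m) (F ^ m) := by
  induction m with
  | zero =>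
    rw [pow_zero, pow_zero]
    exact d5_Bd_one le_rfl
  | succ m ih =>
    rw [pow_succ, pow_succ]
    exact d5_Bd_mul hr ih hF

theorem d5_Bd_add {r c : ℝ} (hr : 0 < r) {F G : PowerSeries C5} (hF : d5_Bd r c F)
    (hG : d5_Bd r c G) : d5_Bd r c (F + G) := by
  rw [d5_Bd_iff hr] at *
  intro m
  rw [map_add]
  exact (IsUltrametricDist.norm_add_le_max _ _).trans (max_le (hF m) (hG m))

theorem d5_Bd_mon {r c : ℝ} (hr : 0 < r) (hc : 0 ≤ c) {a : ℕ} (k : ℕ) {b : ℝ}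
    (h : ‖(a : C5)‖ ≤ b) (h' : b * r ^ k ≤ c) :
    d5_Bd r c (C (a : C5) * X ^ k) := by
  intro m
  rw [PowerSeries.coeff_C_mul, PowerSeries.coeff_X_pow]
  split_ifs with hm
  · rw [mul_one, hm]
    exact (mul_le_mul_of_nonneg_right h (by positivity)).trans h'
  · rw [mul_zero, norm_zero, zero_mul]
    exact hc

/-- The series `Q - 1`. -/
theorem d5_Bd_Qm {r c : ℝ} (hr : 0 < r) (h1 : 5⁻¹ * r ≤ c) (h2 : 5⁻¹ * r ^ 2 ≤ c)
    (h3 : 25⁻¹ * r ^ 3 ≤ c) (h4 : 25⁻¹ * r ^ 4 ≤ c) : d5_Bd r c (Qser5 C5 - 1) := by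
  have hc : 0 ≤ c := le_trans (by positivity) h1
  have e : Qser5 C5 - 1 = C ((5 : ℕ) : C5) * X ^ 1 + C ((15 : ℕ) : C5) * X ^ 2 +
      C ((25 : ℕ) : C5) * X ^ 3 + C ((25 : ℕ) : C5) * X ^ 4 := by
    unfold Qser5
    push_cast
    ring
  have a1 : ‖((5 : ℕ) : C5)‖ ≤ 5⁻¹ := by simpa using d5_ubn_pk 1 1
  have a2 : ‖((15 : ℕ) : C5)‖ ≤ 5⁻¹ := by simpa using d5_ubn_pk 1 3
  have a3 : ‖((25 : ℕ) : C5)‖ ≤ 25⁻¹ := by
    have := d5_ubn_pk 2 1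
    norm_num at this ⊢
    exact this
  rw [e]
  refine d5_Bd_add hr (d5_Bd_add hr (d5_Bd_add hr ?_ ?_) ?_) ?_
  · exact d5_Bd_mon hr hc 1 a1 (by rw [pow_one]; exact h1)
  · exact d5_Bd_mon hr hc 2 a2 h2
  · exact d5_Bd_mon hr hc 3 a3 h3
  · exact d5_Bd_mon hr hc 4 a3 h4

theorem d5_ubn_constQ : PowerSeries.constantCoeff (Qser5 C5 - 1) = 0 := by
  unfold Qser5
  simp

/-- The powers `Q^s`. -/
theorem d5_Bd_Q {r c : ℝ} (hr : 0 < r) (hQ : d5_Bd r c (Qser5 C5 - 1)) (hc : 3 / 2 * c ≤ 1)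
    {s : C5} (h : ∀ l : ℕ, ‖s - l‖ ≤ 1) : d5_Bd r 1 (ppow (Qser5 C5) s) := by
  have hc0 := d5_Bd_nonneg hQ
  rw [d5_Bd_iff hr]
  intro m
  unfold ppow
  rw [fa_coeff_subst d5_ubn_constQ]
  refine IsUltrametricDist.norm_sum_le_of_forall_le_of_nonneg (by positivity) fun n _ => ?_
  rw [le_div_iff₀ (by positivity), norm_mul, binS, coeff_mk, norm_div, div_eq_mul_inv]
  have h1 := d5_Bd_pow hr hQ n m
  calc ‖∏ i ∈ Finset.range n, (s - i)‖ * ‖((n.factorial : ℕ) : C5)‖⁻¹ *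
        ‖PowerSeries.coeff m ((Qser5 C5 - 1) ^ n)‖ * r ^ m
      = (‖∏ i ∈ Finset.range n, (s - i)‖ * ‖((n.factorial : ℕ) : C5)‖⁻¹) *
        (‖PowerSeries.coeff m ((Qser5 C5 - 1) ^ n)‖ * r ^ m) := by ring
    _ ≤ (1 * (3 / 2 : ℝ) ^ n) * c ^ n := by
        refine mul_le_mul ?_ h1 (by positivity) (by positivity)
        exact mul_le_mul (d5_ubn_prod n h) (d5_ubn_fac n) (by positivity) (by norm_num)
    _ = (3 / 2 * c) ^ n := by rw [one_mul, mul_pow]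
    _ ≤ 1 := pow_le_one₀ (by positivity) hc

/-- The series `R_e`. -/
theorem d5_Bd_R0 {r c : ℝ} (hr : 0 < r) (h0 : 1 ≤ c) (h1 : r ≤ c) (h2 : r ^ 2 ≤ c)
    (h3 : 5⁻¹ * r ^ 3 ≤ c) (h4 : 5⁻¹ * r ^ 4 ≤ c) : d5_Bd r c (Rser5 C5 0) := by
  have hc : 0 ≤ c := by linarith
  have e : Rser5 C5 0 = 1 + C ((4 : ℕ) : C5) * X ^ 1 + C ((9 : ℕ) : C5) * X ^ 2 +
      C ((10 : ℕ) : C5) * X ^ 3 + C ((5 : ℕ) : C5) * X ^ 4 := by
    unfold Rser5
    rw [if_pos rfl]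
    push_cast
    ring
  rw [e]
  refine d5_Bd_add hr (d5_Bd_add hr (d5_Bd_add hr (d5_Bd_add hr (d5_Bd_one h0) ?_) ?_) ?_) ?_
  · exact d5_Bd_mon hr hc 1 (d5_ubn_nat 4) (by rw [pow_one, one_mul]; exact h1)
  · exact d5_Bd_mon hr hc 2 (d5_ubn_nat 9) (by rw [one_mul]; exact h2)
  · exact d5_Bd_mon hr hc 3 (by simpa using d5_ubn_pk 1 2) h3
  · exact d5_Bd_mon hr hc 4 (by simpa using d5_ubn_pk 1 1) h4

theorem d5_Bd_R1 {r c : ℝ} (hr : 0 < r) {e : ℕ} (he : e ≠ 0) (h0 : 1 ≤ c) (h1 : 5⁻¹ * r ≤ c)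
    (h2 : 5⁻¹ * r ^ 2 ≤ c) (h3 : 25⁻¹ * r ^ 3 ≤ c) (h4 : 125⁻¹ * r ^ 4 ≤ c) :
    d5_Bd r c (Rser5 C5 e) := by
  have hc : 0 ≤ c := by linarith
  have e1 : Rser5 C5 e = 1 + C ((10 : ℕ) : C5) * X ^ 1 + C ((45 : ℕ) : C5) * X ^ 2 +
      C ((100 : ℕ) : C5) * X ^ 3 + C ((125 : ℕ) : C5) * X ^ 4 := by
    unfold Rser5
    rw [if_neg he]
    push_cast
    ring
  have a3 : ‖((100 : ℕ) : C5)‖ ≤ 25⁻¹ := by
    have := d5_ubn_pk 2 4
    norm_num at this ⊢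
    exact this
  have a4 : ‖((125 : ℕ) : C5)‖ ≤ 125⁻¹ := by
    have := d5_ubn_pk 3 1
    norm_num at this ⊢
    exact this
  rw [e1]
  refine d5_Bd_add hr (d5_Bd_add hr (d5_Bd_add hr (d5_Bd_add hr (d5_Bd_one h0) ?_) ?_) ?_) ?_
  · exact d5_Bd_mon hr hc 1 (by simpa using d5_ubn_pk 1 2) (by rw [pow_one]; exact h1)
  · exact d5_Bd_mon hr hc 2 (by simpa using d5_ubn_pk 1 9) h2
  · exact d5_Bd_mon hr hc 3 a3 h3
  · exact d5_Bd_mon hr hc 4 a4 h4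

theorem d5_ubn_exp {y : C5} (hy : ‖y‖ ≤ 1) (i j l : ℕ) :
    ‖(i : C5) + j - 1 - y - l‖ ≤ 1 := by
  have h1 : (i : C5) + j - 1 - y - l = (((i : ℤ) + j - 1 - l : ℤ) : C5) + (-y) := by
    push_cast
    ring
  rw [h1]
  refine (IsUltrametricDist.norm_add_le_max _ _).trans (max_le (d5_ubn_int _) ?_)
  rw [norm_neg]
  exact hy

theorem d5_Bd_Q95 {y : C5} (hy : ‖y‖ ≤ 1) (i j : ℕ) :
    d5_Bd (9 / 5) 1 (ppow (Qser5 C5) ((i : C5) + j - 1 - y)) :=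
  d5_Bd_Q (c := 81 / 125) (by norm_num)
    (d5_Bd_Qm (by norm_num) (by norm_num) (by norm_num) (by norm_num) (by norm_num))
    (by norm_num) (d5_ubn_exp hy i j)

theorem norm_Mat5_zero_le {y : C5} (hy : ‖y‖ ≤ 1) {i j : ℕ} (h : j ≤ 5 * i) :
    ‖Mat5 0 y i j‖ * (9 / 5 : ℝ) ^ (5 * i - j) ≤ (9 / 5 : ℝ) ^ 2 := by
  unfold Mat5
  rw [if_pos h]
  have h1 := d5_Bd_mul (by norm_num) (d5_Bd_R0 (r := 9 / 5) (c := (9 / 5) ^ 2) (by norm_num)
    (by norm_num) (by norm_num) (by norm_num) (by norm_num) (by norm_num)) (d5_Bd_Q95 hy i j)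
    (5 * i - j)
  rwa [mul_one] at h1

theorem norm_Mat5_one_le {y : C5} (hy : ‖y‖ ≤ 1) {i j : ℕ} (h : j ≤ 5 * i) :
    ‖Mat5 1 y i j‖ * (9 / 5 : ℝ) ^ (5 * i - j) ≤ 1 := by
  unfold Mat5
  rw [if_pos h]
  have h1 := d5_Bd_mul (by norm_num) (d5_Bd_R1 (r := 9 / 5) (c := 1) (by norm_num) one_ne_zero
    (by norm_num) (by norm_num) (by norm_num) (by norm_num) (by norm_num)) (d5_Bd_Q95 hy i j)
    (5 * i - j)
  rwa [mul_one] at h1

/-- The matrix entries have norm at most one. -/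
theorem norm_Mat5_le_one (e : ℕ) {y : C5} (hy : ‖y‖ ≤ 1) (i j : ℕ) : ‖Mat5 e y i j‖ ≤ 1 := by
  unfold Mat5
  split_ifs with h
  · have hQ : d5_Bd 1 1 (ppow (Qser5 C5) ((i : C5) + j - 1 - y)) :=
      d5_Bd_Q (c := 5⁻¹) (by norm_num)
        (d5_Bd_Qm (by norm_num) (by norm_num) (by norm_num) (by norm_num) (by norm_num))
        (by norm_num) (d5_ubn_exp hy i j)
    have hR : d5_Bd 1 1 (Rser5 C5 e) := by
      by_cases he : e = 0
      · rw [he]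
        exact d5_Bd_R0 (by norm_num) (by norm_num) (by norm_num) (by norm_num) (by norm_num)
          (by norm_num)
      · exact d5_Bd_R1 (by norm_num) he (by norm_num) (by norm_num) (by norm_num) (by norm_num)
          (by norm_num)
    have h1 := d5_Bd_mul (by norm_num) hR hQ (5 * i - j)
    rwa [one_pow, mul_one, mul_one] at h1
  · rw [norm_zero]
    norm_num

/-- The matrix entries are polynomials in `y`. -/
theorem Mat5_isPoly (e i j : ℕ) : ∃ P : Polynomial C5, ∀ y : C5, Mat5 e y i j = P.eval y := by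
  have hu : PowerSeries.constantCoeff (Qser5 C5) = 1 := by
    unfold Qser5
    simp
  by_cases h : j ≤ 5 * i
  · choose P hP using fun n => fa_ppow_poly (K := C5) hu n
    refine ⟨∑ kl ∈ Finset.HasAntidiagonal.antidiagonal (5 * i - j),
      Polynomial.C (PowerSeries.coeff kl.1 (Rser5 C5 e)) *
      (P kl.2).comp (Polynomial.C ((i : C5) + j - 1) - Polynomial.X), fun y => ?_⟩
    unfold Mat5
    rw [if_pos h, PowerSeries.coeff_mul, Polynomial.eval_finsetSum]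
    refine Finset.sum_congr rfl fun kl _ => ?_
    rw [Polynomial.eval_mul, Polynomial.eval_C, Polynomial.eval_comp, Polynomial.eval_sub,
      Polynomial.eval_C, Polynomial.eval_X, hP]
  · refine ⟨0, fun x => ?_⟩
    unfold Mat5
    rw [if_neg h, Polynomial.eval_zero]

end D5

end GH
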