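import Pool.Agent.GH.D5.UMat5A
import Pool.Agent.GH.UMatB_b
import Pool.Agent.GH.FExp

open PowerSeries Filter Topology

noncomputable section

namespace GH

namespace D5

variable {K : Type*} [Field K] [CharZero K]

/-! ### Helper lemmas -/

theorem d5b_ppow_expand {u : PowerSeries K} (hu : PowerSeries.constantCoeff u = 1) (s : K) :
    (ppow u s).expand 5 five_ne = ppow (u.expand 5 five_ne) s := by
  unfold ppow
  have h := expand_subst 5 five_ne (ub_hs hu) (binS s)
  have h1 : (u - 1).expand 5 five_ne = u.expand 5 five_ne - 1 := by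
    rw [map_sub, map_one]
  rw [← h1]
  exact h

theorem d5b_const_Q : PowerSeries.constantCoeff (Qser5 K) = 1 := by
  unfold Qser5
  simp

/-- `Q^s` -/
def d5bR (s : K) : PowerSeries K := ppow (Qser5 K) s

theorem d5bR_add (s t : K) : d5bR (s + t) = d5bR s * d5bR t := ub_ppow_add d5b_const_Q s t

theorem d5bR_zero : d5bR (0 : K) = 1 := ub_ppow_zero d5b_const_Q

theorem d5bR_one : d5bR (1 : K) = Qser5 K := ub_ppow_one d5b_const_Q

theorem d5bR_nat (n : ℕ) : d5bR (n : K) = Qser5 K ^ n := ub_ppow_nat d5b_const_Q n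

theorem d5bR_const (s : K) : PowerSeries.constantCoeff (d5bR s) = 1 :=
  ub_const_ppow d5b_const_Q s

theorem d5bR_neg_one : d5bR (-1 : K) = (Qser5 K)⁻¹ := by
  have h1 : d5bR (-1 : K) * Qser5 K = 1 := by
    rw [← d5bR_one, ← d5bR_add]
    have : (-1 : K) + 1 = 0 := by ring
    rw [this, d5bR_zero]
  have h2 : PowerSeries.constantCoeff (Qser5 K) ≠ 0 := by
    rw [d5b_const_Q]
    exact one_ne_zero
  rw [PowerSeries.eq_inv_iff_mul_eq_one h2]
  exact h1

/-- `T Q` -/
def d5bP (K : Type*) [Field K] : PowerSeries K := X * Qser5 K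

theorem d5bP_const : PowerSeries.constantCoeff (d5bP K) = 0 := by
  unfold d5bP
  simp

theorem d5bP_pow (j : ℕ) : d5bP K ^ j = X ^ j * d5bR (j : K) := by
  unfold d5bP
  rw [mul_pow, d5bR_nat]

theorem d5b_Mat5 (e : ℕ) (y : K) (i j : ℕ) :
    Mat5 e y i j = PowerSeries.coeff (5 * i)
      (Rser5 K e * d5bR ((i : K) - 1 - y) * d5bP K ^ j) := by
  have h1 : Rser5 K e * d5bR ((i : K) - 1 - y) * d5bP K ^ j =
      X ^ j * (Rser5 K e * ppow (Qser5 K) ((i : K) + j - 1 - y)) := by
    have h2 : (i : K) + j - 1 - y = ((i : K) - 1 - y) + j := by ring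
    rw [d5bP_pow, h2]
    change _ = X ^ j * (Rser5 K e * d5bR (((i : K) - 1 - y) + j))
    rw [d5bR_add]
    ring
  rw [h1, PowerSeries.coeff_X_pow_mul']
  rfl

theorem d5b_Mat5_succ (e : ℕ) (y : K) (i m : ℕ) :
    Mat5 e y (i + 1) (m + 1) = PowerSeries.coeff (5 * i + 4)
      (Rser5 K e * d5bR ((i : K) + 1 - y) * d5bP K ^ m) := by
  have h1 : Rser5 K e * d5bR ((i : K) + 1 - y) * d5bP K ^ m =
      X ^ m * (Rser5 K e * ppow (Qser5 K) (((i + 1 : ℕ) : K) + ((m + 1 : ℕ) : K) - 1 - y)) := by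
    have h2 : ((i + 1 : ℕ) : K) + ((m + 1 : ℕ) : K) - 1 - y = ((i : K) + 1 - y) + m := by
      push_cast
      ring
    rw [d5bP_pow, h2]
    change _ = X ^ m * (Rser5 K e * d5bR (((i : K) + 1 - y) + m))
    rw [d5bR_add]
    ring
  rw [h1, PowerSeries.coeff_X_pow_mul']
  unfold Mat5
  by_cases h : m + 1 ≤ 5 * (i + 1)
  · rw [if_pos h, if_pos (by omega)]
    congr 2
    omega
  · rw [if_neg h, if_neg (by omega)]

theorem d5b_const_h (hh : HIds5 K) : PowerSeries.constantCoeff (hser5 K) = 0 := by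
  rw [← PowerSeries.coeff_zero_eq_constantCoeff_apply]
  exact hh.c0

theorem d5b_hs_h (hh : HIds5 K) : HasSubst (hser5 K) :=
  HasSubst.of_constantCoeff_zero' (d5b_const_h hh)

theorem d5b_hs_P : HasSubst (d5bP K) := HasSubst.of_constantCoeff_zero' d5bP_const

theorem d5b_Q_subst (hh : HIds5 K) :
    ((Qser5 K).subst (hser5 K) : PowerSeries K) =
      1 + 5 * hser5 K + 15 * hser5 K ^ 2 + 25 * hser5 K ^ 3 + 25 * hser5 K ^ 4 := by
  have hs := d5b_hs_h hh
  unfold Qser5
  rw [subst_add hs, subst_add hs, subst_add hs, subst_add hs, subst_mul hs, subst_mul hs,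
    subst_mul hs, subst_mul hs, subst_pow hs, subst_pow hs, subst_pow hs, subst_X hs,
    ub_subst_one hs, ub_subst_C hs, ub_subst_C hs, ub_subst_C hs, ub_C_num, ub_C_num, ub_C_num]

theorem d5b_R1_subst (hh : HIds5 K) :
    ((Rser5 K 1).subst (hser5 K) : PowerSeries K) =
      1 + 10 * hser5 K + 45 * hser5 K ^ 2 + 100 * hser5 K ^ 3 + 125 * hser5 K ^ 4 := by
  have hs := d5b_hs_h hh
  unfold Rser5
  rw [if_neg one_ne_zero, subst_add hs, subst_add hs, subst_add hs, subst_add hs, subst_mul hs,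
    subst_mul hs, subst_mul hs, subst_mul hs, subst_pow hs, subst_pow hs, subst_pow hs,
    subst_X hs, ub_subst_one hs, ub_subst_C hs, ub_subst_C hs, ub_subst_C hs, ub_subst_C hs,
    ub_C_num, ub_C_num, ub_C_num, ub_C_num]

theorem d5b_f_subst (hh : HIds5 K) :
    ((d5bP K).subst (hser5 K) : PowerSeries K) = hauptmodul 5 K := by
  have hs := d5b_hs_h hh
  unfold d5bP
  rw [subst_mul hs, subst_X hs, d5b_Q_subst hh, hh.f1]

theorem d5b_const_Qh (hh : HIds5 K) :
    PowerSeries.constantCoeff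
      (1 + 5 * hser5 K + 15 * hser5 K ^ 2 + 25 * hser5 K ^ 3 + 25 * hser5 K ^ 4) = 1 := by
  have h := d5b_const_h hh
  simp [h]

theorem d5b_R_subst (hh : HIds5 K) (s : K) :
    ((d5bR s).subst (hser5 K) : PowerSeries K) =
      ppow (1 + 5 * hser5 K + 15 * hser5 K ^ 2 + 25 * hser5 K ^ 3 + 25 * hser5 K ^ 4) s := by
  have hs := d5b_hs_h hh
  unfold d5bR ppow
  rw [subst_comp_subst_apply (ub_hs d5b_const_Q) hs]
  congr 1
  rw [subst_sub hs, d5b_Q_subst hh, ub_subst_one hs]

theorem d5b_phi_expand (hh : HIds5 K) (y : K) :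
    phiPow y = (phiPow y).expand 5 five_ne * (d5bR (-y)).subst (hser5 K) := by
  have h1 : (phiPow y).expand 5 five_ne = phiPow y *
      ppow (1 + 5 * hser5 K + 15 * hser5 K ^ 2 + 25 * hser5 K ^ 3 + 25 * hser5 K ^ 4) y := by
    unfold phiPow
    rw [d5b_ppow_expand hh.t0, ← hh.t3, ub_ppow_mul hh.t0 (d5b_const_Qh hh)]
  rw [h1, d5b_R_subst hh, mul_assoc, ← ub_ppow_add (d5b_const_Qh hh), add_neg_cancel,
    ub_ppow_zero (d5b_const_Qh hh), mul_one]

/-! ### The derivation `θ` -/

section thq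

variable {R : Type*} [CommRing R]

theorem d5b_thq_coeff (F : PowerSeries R) (n : ℕ) :
    PowerSeries.coeff n (thq F) = (n : R) * PowerSeries.coeff n F := PowerSeries.coeff_mk _ _

theorem d5b_thq_add (F G : PowerSeries R) : thq (F + G) = thq F + thq G := by
  ext n
  rw [map_add, d5b_thq_coeff, d5b_thq_coeff, d5b_thq_coeff, map_add]
  ring

theorem d5b_thq_mul (F G : PowerSeries R) : thq (F * G) = thq F * G + F * thq G := by
  ext n
  rw [d5b_thq_coeff, map_add, PowerSeries.coeff_mul, PowerSeries.coeff_mul,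
    PowerSeries.coeff_mul, Finset.mul_sum, ← Finset.sum_add_distrib]
  refine Finset.sum_congr rfl fun p hp => ?_
  rw [Finset.HasAntidiagonal.mem_antidiagonal] at hp
  rw [d5b_thq_coeff, d5b_thq_coeff, ← hp]
  push_cast
  ring

theorem d5b_thq_one : thq (1 : PowerSeries R) = 0 := by
  ext n
  rw [d5b_thq_coeff, PowerSeries.coeff_one, map_zero]
  split_ifs with h
  · rw [h, Nat.cast_zero, zero_mul]
  · rw [mul_zero]

theorem d5b_thq_natMul (c : ℕ) (F : PowerSeries R) :
    thq ((c : PowerSeries R) * F) = (c : PowerSeries R) * thq F := by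
  induction c with
  | zero =>
    rw [Nat.cast_zero, zero_mul, zero_mul]
    ext n
    rw [d5b_thq_coeff, map_zero, mul_zero]
  | succ c ih =>
    rw [Nat.cast_succ, add_mul, one_mul, d5b_thq_add, ih, add_mul, one_mul]

end thq

theorem d5b_thq_f (hh : HIds5 K) :
    thq (hauptmodul 5 K) = thq (hser5 K) * ((Rser5 K 1).subst (hser5 K) : PowerSeries K) := by
  rw [d5b_R1_subst hh, hh.f1]
  generalize hser5 K = h
  have e5 : (5 : PowerSeries K) = ((5 : ℕ) : PowerSeries K) := by norm_num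
  have e15 : (15 : PowerSeries K) = ((15 : ℕ) : PowerSeries K) := by norm_num
  have e25 : (25 : PowerSeries K) = ((25 : ℕ) : PowerSeries K) := by norm_num
  have h2 : thq (h ^ 2) = 2 * h * thq h := by
    rw [pow_two, d5b_thq_mul]
    ring
  have h3 : thq (h ^ 3) = 3 * h ^ 2 * thq h := by
    rw [pow_succ, d5b_thq_mul, h2]
    ring
  have h4 : thq (h ^ 4) = 4 * h ^ 3 * thq h := by
    rw [pow_succ, d5b_thq_mul, h3]
    ring
  have k5 : ∀ F : PowerSeries K, thq (5 * F) = 5 * thq F := fun F => by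
    rw [e5]
    exact d5b_thq_natMul 5 F
  have k15 : ∀ F : PowerSeries K, thq (15 * F) = 15 * thq F := fun F => by
    rw [e15]
    exact d5b_thq_natMul 15 F
  have k25 : ∀ F : PowerSeries K, thq (25 * F) = 25 * thq F := fun F => by
    rw [e25]
    exact d5b_thq_natMul 25 F
  rw [d5b_thq_mul, d5b_thq_add, d5b_thq_add, d5b_thq_add, d5b_thq_add, d5b_thq_one, k5, k15, k25,
    k25, h2, h3, h4]
  ring

/-! ### The theorems -/

theorem Mat5_of_lt (e : ℕ) (y : K) {i j : ℕ} (h : 5 * i < j) : Mat5 e y i j = 0 := by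
  unfold Mat5
  rw [if_neg (by omega)]

theorem d5b_const_f (hh : HIds5 K) : PowerSeries.constantCoeff (hauptmodul 5 K) = 0 := by
  rw [hh.f1, map_mul, d5b_const_h hh, zero_mul]

theorem d5b_hs_f (hh : HIds5 K) : HasSubst (hauptmodul 5 K) :=
  HasSubst.of_constantCoeff_zero' (d5b_const_f hh)

theorem d5b_u_subst (hh : HIds5 K) (u : PowerSeries K) :
    (u.subst (hauptmodul 5 K) : PowerSeries K) =
      PowerSeries.subst (hser5 K) (u.subst (d5bP K) : PowerSeries K) := by
  rw [subst_comp_subst_apply d5b_hs_P (d5b_hs_h hh), d5b_f_subst hh]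

theorem d5b_even (hh : HIds5 K) (y : K) (u : PowerSeries K) :
    U 5 (phiPow y * u.subst (hauptmodul 5 K)) =
      phiPow y * (PowerSeries.mk fun i ↦
        ∑ j ∈ Finset.range (5 * i + 1), Mat5 0 y i j * PowerSeries.coeff j u).subst
        (hauptmodul 5 K) := by
  have hs := d5b_hs_h hh
  have h2 : phiPow y * (u.subst (hauptmodul 5 K) : PowerSeries K) =
      (phiPow y).expand 5 five_ne *
        PowerSeries.subst (hser5 K) (d5bR (-y) * (u.subst (d5bP K) : PowerSeries K)) := by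
    rw [subst_mul hs, ← mul_assoc, ← d5b_phi_expand hh, d5b_u_subst hh]
  rw [h2, U_expand_mul5, U_subst_hser5 hh]
  congr 2
  ext i
  rw [PowerSeries.coeff_mk, PowerSeries.coeff_mk]
  have h3 : Rser5 K 0 * Qser5 K ^ i * (Qser5 K)⁻¹ *
      (d5bR (-y) * (u.subst (d5bP K) : PowerSeries K)) =
      (Rser5 K 0 * d5bR ((i : K) - 1 - y)) * u.subst (d5bP K) := by
    have h4 : (i : K) - 1 - y = (i : K) + (-1) + (-y) := by ring
    rw [h4, d5bR_add, d5bR_add, d5bR_nat, d5bR_neg_one]
    ring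
  rw [h3, ub_coeff_mul_subst d5bP_const (N := 5 * i + 1)]
  · refine Finset.sum_congr rfl fun m _ => ?_
    rw [d5b_Mat5]
    ring
  · rw [d5bP_pow]
    exact dvd_mul_right _ _

theorem d5b_odd (hh : HIds5 K) (y : K) (w : PowerSeries K) :
    U 5 (phiPow y * dlog5 K * (X * w).subst (hauptmodul 5 K)) =
      phiPow y * dlog5 K * (PowerSeries.mk fun i ↦
        ∑ j ∈ Finset.range (5 * i + 1), Mat5 1 y i j * PowerSeries.coeff j (X * w)).subst
        (hauptmodul 5 K) := by
  have hs := d5b_hs_h hh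
  have hf := d5b_hs_f hh
  -- the left side
  have h1 : phiPow y * dlog5 K * ((X * w).subst (hauptmodul 5 K) : PowerSeries K) =
      (phiPow y).expand 5 five_ne * (thq (hser5 K) *
        PowerSeries.subst (hser5 K) (Rser5 K 1 * d5bR (-y) *
          (w.subst (d5bP K) : PowerSeries K))) := by
    rw [subst_mul hf, subst_X hf, subst_mul hs, subst_mul hs]
    calc phiPow y * dlog5 K * (hauptmodul 5 K * (w.subst (hauptmodul 5 K) : PowerSeries K))
        = phiPow y * (dlog5 K * hauptmodul 5 K) *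
          (w.subst (hauptmodul 5 K) : PowerSeries K) := by ring
      _ = ((phiPow y).expand 5 five_ne * (d5bR (-y)).subst (hser5 K)) *
          (thq (hser5 K) * ((Rser5 K 1).subst (hser5 K) : PowerSeries K)) *
          PowerSeries.subst (hser5 K) (w.subst (d5bP K) : PowerSeries K) := by
        rw [hh.d1, d5b_thq_f hh, ← d5b_phi_expand hh, d5b_u_subst hh w]
      _ = _ := by ring
  -- the right side
  have h2 : (PowerSeries.mk fun i ↦
        ∑ j ∈ Finset.range (5 * i + 1), Mat5 1 y i j * PowerSeries.coeff j (X * w)) =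
      X * PowerSeries.mk fun i ↦ PowerSeries.coeff (5 * i + 4)
        (Qser5 K ^ (i + 1) * (Rser5 K 1 * d5bR (-y) * (w.subst (d5bP K) : PowerSeries K))) := by
    ext i
    cases i with
    | zero =>
      rw [PowerSeries.coeff_mk, PowerSeries.coeff_zero_X_mul]
      simp
    | succ i =>
      rw [PowerSeries.coeff_mk, PowerSeries.coeff_succ_X_mul, PowerSeries.coeff_mk]
      have h3 : Qser5 K ^ (i + 1) * (Rser5 K 1 * d5bR (-y) *
          (w.subst (d5bP K) : PowerSeries K)) =
          (Rser5 K 1 * d5bR ((i : K) + 1 - y)) * w.subst (d5bP K) := by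
        have h4 : (i : K) + 1 - y = ((i + 1 : ℕ) : K) + (-y) := by
          push_cast
          ring
        rw [h4, d5bR_add, d5bR_nat]
        ring
      rw [h3, ub_coeff_mul_subst d5bP_const (N := 5 * i + 5)
        (by rw [d5bP_pow]; exact dvd_mul_right _ _)]
      have h5 : 5 * (i + 1) + 1 = (5 * i + 5) + 1 := by ring
      rw [h5, Finset.sum_range_succ', PowerSeries.coeff_zero_X_mul, mul_zero, add_zero]
      refine Finset.sum_congr rfl fun m _ => ?_
      rw [PowerSeries.coeff_succ_X_mul, d5b_Mat5_succ]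
      ring
  rw [h1, h2, U_expand_mul5, U_theta_subst_hser5 hh, subst_mul hf, subst_X hf, ← hh.d1]
  ring

/-- Column version for a general function of `f`. -/
theorem U_frm5_subst (hh : HIds5 K) (e : ℕ) (y : K) (u : PowerSeries K)
    (he : e = 0 ∨ (e = 1 ∧ PowerSeries.coeff 0 u = 0)) :
    U 5 (frm5 e y * u.subst (hauptmodul 5 K)) =
      frm5 e y * (PowerSeries.mk fun i ↦
        ∑ j ∈ Finset.range (5 * i + 1), Mat5 e y i j * PowerSeries.coeff j u).subst
        (hauptmodul 5 K) := by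
  rcases he with rfl | ⟨rfl, hu⟩
  · unfold frm5
    rw [pow_zero, mul_one]
    exact d5b_even hh y u
  · obtain ⟨w, rfl⟩ : ∃ w, u = X * w := by
      have h1 : (X : PowerSeries K) ∣ u := by
        rw [PowerSeries.X_dvd_iff, ← PowerSeries.coeff_zero_eq_constantCoeff_apply]
        exact hu
      exact h1
    unfold frm5
    rw [pow_one]
    exact d5b_odd hh y w

/-- The matrix of `U_5` in the basis `φ^y (θf/f)^e f^j` (`j ≥ 1` if `e = 1`). -/
theorem U_frm5 (hh : HIds5 K) (e : ℕ) (y : K) (j : ℕ) (he : e = 0 ∨ (e = 1 ∧ 1 ≤ j)) :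
    U 5 (frm5 e y * hauptmodul 5 K ^ j) =
      frm5 e y * (PowerSeries.mk fun i ↦ Mat5 e y i j).subst (hauptmodul 5 K) := by
  have hf := d5b_hs_f hh
  have he' : e = 0 ∨ (e = 1 ∧ PowerSeries.coeff 0 ((X : PowerSeries K) ^ j) = 0) := by
    rcases he with h | ⟨h, hj⟩
    · exact Or.inl h
    · refine Or.inr ⟨h, ?_⟩
      rw [PowerSeries.coeff_X_pow, if_neg (by omega)]
  have h := U_frm5_subst hh e y (X ^ j) he'
  rw [subst_pow hf, subst_X hf] at h
  rw [h]
  congr 2
  ext i
  rw [PowerSeries.coeff_mk, PowerSeries.coeff_mk]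
  by_cases hj : j ≤ 5 * i
  · rw [Finset.sum_eq_single j]
    · rw [PowerSeries.coeff_X_pow, if_pos rfl, mul_one]
    · intro b _ hb
      rw [PowerSeries.coeff_X_pow, if_neg hb, mul_zero]
    · intro h
      exact absurd (Finset.mem_range.mpr (by omega)) h
  · rw [Mat5_of_lt e y (by omega)]
    refine Finset.sum_eq_zero fun b hb => ?_
    rw [Finset.mem_range] at hb
    rw [PowerSeries.coeff_X_pow, if_neg (by omega), mul_zero]

theorem Mat5_zero_zero (e : ℕ) (y : K) : Mat5 e y 0 0 = 1 := by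
  rw [d5b_Mat5, mul_zero, PowerSeries.coeff_zero_eq_constantCoeff_apply, pow_zero, mul_one,
    map_mul, d5bR_const]
  unfold Rser5
  split_ifs <;> simp

omit [CharZero K] in
theorem d5b_const_phi5 : PowerSeries.constantCoeff (phi5 K) = 1 := by
  unfold phi5
  have h1 : PowerSeries.constantCoeff (invOfUnit (euler K 5) 1) = 1 := by
    rw [PowerSeries.constantCoeff_invOfUnit]
    simp
  rw [map_mul, map_pow, fx_constantCoeff_euler, h1]
  simp

theorem phiPow_natCast (m : ℕ) : phiPow (m : K) = phi5 K ^ m :=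
  ub_ppow_nat d5b_const_phi5 m

theorem constantCoeff_phiPow (y : K) : PowerSeries.constantCoeff (phiPow y) = 1 :=
  ub_const_ppow d5b_const_phi5 y

end D5

end GH
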