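import Pool.Agent.GH.D5.QHaupt5
import Pool.Agent.GH.D5.UMat5B
import Pool.Agent.GH.D5.UBound5
import Pool.Agent.GH.D5.ClE5
import Pool.Agent.GH.D5.ClStab5
import Pool.Agent.GH.D5.Param5
import Pool.Agent.GH.D5.Ord5
import Pool.Agent.GH.DP.ZCharP

open PowerSeries Filter Topology

noncomputable section

namespace GH

namespace D5

open GP DP

/-! On the central disc `E_{κ₀} = φ^y u_y(f)`. -/

/-- The identities over a field of characteristic zero. -/
theorem hIds5 (K : Type*) [Field K] : HIds5 K where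
  c0 := coeff_zero_hser5 K
  c1 := coeff_one_hser5 K
  t0 := constantCoeff_phi5 K
  f1 := hauptmodul5_eq qd5
  f2 := expand_hauptmodul5 qd5
  h1 := exists_hser5_inv qd5
  t3 := phi5_mul qd5
  d0 := constantCoeff_dlog5 K
  d1 := dlog5_mul K

/-- The classical points. -/
theorem stab5 (m : ℕ) (hm : 1 ≤ m) :
    ∃ u : PowerSeries C5, PowerSeries.coeff 0 u = 1 ∧
      (∃ B : ℝ, ∀ n, ‖PowerSeries.coeff n u‖ * (9 / 5 : ℝ) ^ n ≤ B) ∧
      PowerSeries.map (algebraMap ℚ C5) (eisStab5 (4 * m)) =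
        phiPow ((2 * m : ℕ) : C5) * u.subst (hauptmodul 5 C5) := by
  refine exists_stab5 (fun m hm ↦ eisQ_eq_phi5 (eisQ_four (exists_G4_form
    (G4_expand (hIds5 ℚ)))) hauptmodul5_mul_phi m hm) eisStab5_eq ?_ ?_ ?_ m hm
  · intro y u
    have h := U_frm5_subst (hIds5 C5) 0 y u (Or.inl rfl)
    simpa only [frm5, pow_zero, mul_one] using h
  · intro m
    exact phiPow_natCast m
  · intro y hy i j h
    exact norm_Mat5_zero_le hy h

/-! ### helper lemmas `d5_gl_...` -/

theorem d5_gl_U_evSp (w : C5) (E : PowerSeries (PowerSeries ℤ_[5])) :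
    U 5 (evSp w E) = evSp w (U 5 E) := by
  ext n
  unfold U evSp
  rw [PowerSeries.coeff_mk, PowerSeries.coeff_mk, PowerSeries.coeff_mk, PowerSeries.coeff_mk]

theorem d5_gl_U_phi (y : C5) (u : PowerSeries C5) :
    U 5 (phiPow y * u.subst (hauptmodul 5 C5)) =
      phiPow y * (PowerSeries.mk fun i ↦
        ∑ j ∈ Finset.range (5 * i + 1), Mat5 0 y i j * PowerSeries.coeff j u).subst
        (hauptmodul 5 C5) := by
  have h := U_frm5_subst (hIds5 C5) 0 y u (Or.inl rfl)
  simpa only [frm5, pow_zero, mul_one] using h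

theorem d5_gl_eisStab (k : ℕ) : eisStabP 5 k = eisStab5 k := by
  unfold eisStabP eisStab5
  simp only [Nat.cast_ofNat]

/-- The identity at the classical weights. -/
theorem d5_gl_nat (E : PowerSeries (PowerSeries ℤ_[5])) (hE : EisFamilyP E) (u : ℕ → C5 → C5)
    (hu : OrdVec5 u) (m : ℕ) (hm : 1 ≤ m) :
    evSp (wx5 ((2 * m : ℕ) : C5)) E = phiPow ((2 * m : ℕ) : C5) *
      (PowerSeries.mk fun n ↦ u n ((2 * m : ℕ) : C5)).subst (hauptmodul 5 C5) := by
  obtain ⟨v, hv0, hvB, hv⟩ := stab5 m hm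
  obtain ⟨y, hy⟩ : ∃ y : C5, y = ((2 * m : ℕ) : C5) := ⟨_, rfl⟩
  have hy1 : ‖y‖ ≤ 1 := by
    rw [hy]
    exact IsUltrametricDist.norm_natCast_le_one C5 _
  have hw : wx5 ((2 * m : ℕ) : C5) =
      (1 + 2 * ((5 : ℕ) : PadicComplex 5)) ^ ((5 - 1) * m) - 1 := by
    rw [wx5_natCast, show (5 - 1) * m = 2 * (2 * m) by omega, pow_mul (1 + 2 * _) 2 (2 * m)]
    norm_num
  have h1 : evSp (wx5 y) E = phiPow y * v.subst (hauptmodul 5 C5) := by
    rw [hy, hw, hE.cls m hm, d5_gl_eisStab]
    exact hv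
  have h2 : U 5 (evSp (wx5 y) E) = evSp (wx5 y) E := by rw [d5_gl_U_evSp, hE.eig]
  rw [h1, d5_gl_U_phi] at h2
  have h0 : phiPow y ≠ 0 := by
    intro h
    have h3 := congrArg PowerSeries.constantCoeff h
    rw [constantCoeff_phiPow, map_zero] at h3
    exact one_ne_zero h3
  have h3 := mul_left_cancel₀ h0 h2
  have h4 : ∀ i, PowerSeries.coeff i v = ∑ j ∈ Finset.range (5 * i + 1),
      Mat5 0 y i j * PowerSeries.coeff j v := by
    intro i
    have h5 := congrArg (fun F => fcoeff 5 F i) h3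
    simp only [fcoeff_subst, PowerSeries.coeff_mk] at h5
    exact h5.symm
  have h5 : v = PowerSeries.mk fun n ↦ u n y := by
    ext n
    rw [PowerSeries.coeff_mk]
    exact hu.uniq y hy1 (fun n => PowerSeries.coeff n v) hv0 hvB h4 n
  rw [← hy, h1, ← h5]

theorem d5_gl_tate_binS (m : ℕ) : IsTate fun y : C5 ↦ PowerSeries.coeff m (binS y) := by
  have h : (fun y : C5 ↦ PowerSeries.coeff m (binS y)) =
      fun y : C5 ↦ (∏ i ∈ Finset.range m, (y - (i : C5))) * ((m.factorial : C5))⁻¹ := by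
    funext y
    unfold binS
    rw [PowerSeries.coeff_mk, div_eq_mul_inv]
  rw [h]
  exact IsTate.mul (IsTate.prod _ fun i _ => IsTate.sub IsTate.id (IsTate.const _))
    (IsTate.const _)

theorem d5_gl_coeff_phiPow (y : C5) (n : ℕ) : PowerSeries.coeff n (phiPow y) =
    ∑ m ∈ Finset.range (n + 1), PowerSeries.coeff m (binS y) *
      PowerSeries.coeff n ((phi5 C5 - 1) ^ m) := by
  have h0 : PowerSeries.constantCoeff (phi5 C5 - 1) = 0 := by
    rw [map_sub, constantCoeff_phi5]
    simp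
  have hs : HasSubst (phi5 C5 - 1) := HasSubst.of_constantCoeff_zero' h0
  unfold phiPow ppow
  rw [PowerSeries.coeff_subst' hs, finsum_eq_sum_of_support_subset (s := Finset.range (n + 1))]
  · exact Finset.sum_congr rfl fun m _ => by rw [smul_eq_mul]
  · intro m hm
    rw [Function.mem_support] at hm
    rw [Finset.coe_range, Set.mem_Iio]
    by_contra h
    refine hm ?_
    have h1 : (X : PowerSeries C5) ^ m ∣ (phi5 C5 - 1) ^ m :=
      pow_dvd_pow_of_dvd (PowerSeries.X_dvd_iff.2 h0) m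
    rw [PowerSeries.X_pow_dvd_iff.1 h1 n (by omega), smul_zero]

theorem d5_gl_tate_phiPow (n : ℕ) : IsTate fun y : C5 ↦ PowerSeries.coeff n (phiPow y) := by
  have h : (fun y : C5 ↦ PowerSeries.coeff n (phiPow y)) = fun y ↦
    ∑ m ∈ Finset.range (n + 1), PowerSeries.coeff m (binS y) *
      PowerSeries.coeff n ((phi5 C5 - 1) ^ m) := by
    funext y
    exact d5_gl_coeff_phiPow y n
  rw [h]
  exact IsTate.sum _ fun m _ => IsTate.mul (d5_gl_tate_binS m) (IsTate.const _)

theorem d5_gl_tate_subst (u : ℕ → C5 → C5) (hu : ∀ n, IsTate (u n)) (n : ℕ) :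
    IsTate fun y : C5 ↦ PowerSeries.coeff n
      ((PowerSeries.mk fun n ↦ u n y).subst (hauptmodul 5 C5) : PowerSeries C5) := by
  have h : (fun y : C5 ↦ PowerSeries.coeff n
      ((PowerSeries.mk fun n ↦ u n y).subst (hauptmodul 5 C5) : PowerSeries C5)) = fun y ↦
      (∑ m ∈ Finset.range n, u m y * PowerSeries.coeff n (hauptmodul 5 C5 ^ m)) + u n y := by
    funext y
    rw [fx_coeff_subst]
    simp only [PowerSeries.coeff_mk]
  rw [h]
  exact IsTate.add (IsTate.sum _ fun m _ => IsTate.mul (hu m) (IsTate.const _)) (hu n)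

theorem evSp_eisFam5 (E : PowerSeries (PowerSeries ℤ_[5])) (hE : EisFamilyP E)
    (u : ℕ → C5 → C5) (hu : OrdVec5 u) (y : C5) (hy : ‖y‖ ≤ 1) :
    evSp (wx5 y) E = phiPow y * (PowerSeries.mk fun n ↦ u n y).subst (hauptmodul 5 C5) := by
  ext n
  have hT : IsTate fun y : C5 ↦ PowerSeries.coeff n (evSp (wx5 y) E) -
      PowerSeries.coeff n (phiPow y *
        (PowerSeries.mk fun n ↦ u n y).subst (hauptmodul 5 C5)) := by
    refine IsTate.sub ?_ ?_
    · have h : (fun y : C5 ↦ PowerSeries.coeff n (evSp (wx5 y) E)) =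
          fun y ↦ evp (wx5 y) (PowerSeries.coeff n E) := by
        funext y
        unfold evSp
        rw [PowerSeries.coeff_mk]
      rw [h]
      exact isTate_evp_wx5 _
    · have h : (fun y : C5 ↦ PowerSeries.coeff n (phiPow y *
          (PowerSeries.mk fun n ↦ u n y).subst (hauptmodul 5 C5))) = fun y ↦
          ∑ p ∈ Finset.HasAntidiagonal.antidiagonal n, PowerSeries.coeff p.1 (phiPow y) *
            PowerSeries.coeff p.2 ((PowerSeries.mk fun n ↦ u n y).subst (hauptmodul 5 C5) :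
              PowerSeries C5) := by
        funext y
        rw [PowerSeries.coeff_mul]
      rw [h]
      exact IsTate.sum _ fun p _ =>
        IsTate.mul (d5_gl_tate_phiPow p.1) (d5_gl_tate_subst u hu.tate p.2)
  have hS : (Set.range fun m : ℕ => ((2 * (m + 1) : ℕ) : C5)).Infinite := by
    refine Set.infinite_range_of_injective fun a b hab => ?_
    have h : 2 * (a + 1) = 2 * (b + 1) := Nat.cast_injective hab
    omega
  have h := hT.eq_zero_of_infinite (hS.mono (by
      rintro _ ⟨m, rfl⟩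
      refine ⟨IsUltrametricDist.norm_natCast_le_one C5 _, ?_⟩
      have h1 := d5_gl_nat E hE u hu (m + 1) (by omega)
      simp only []
      rw [h1, sub_self])) hy
  exact sub_eq_zero.1 h

end D5

end GH
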