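import Pool.Agent.GH.D5.QHaupt5
import Pool.Agent.GH.D5.UMat5B
import Pool.Agent.GH.DP.BaseP

open PowerSeries Filter Topology

noncomputable section

namespace GH

namespace D5

open GP DP

/-! The matrices `Mat5 e y` in the form needed for the assembly. -/

section

variable {K : Type*} [Field K] [CharZero K]

/-- `θh/h`, `h = q E(q^25)/E(q)`. -/
def dlh5 (R : Type*) [CommRing R] : PowerSeries R :=
  1 + thq (euler R 25 * invOfUnit (euler R 1) 1) *
    invOfUnit (euler R 25 * invOfUnit (euler R 1) 1) 1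

/-! ### Helper lemmas -/

theorem d5c_thq_X {R : Type*} [CommRing R] : thq (X : PowerSeries R) = X := by
  ext n
  rw [d5b_thq_coeff, PowerSeries.coeff_X]
  split_ifs with h
  · rw [h, Nat.cast_one, one_mul]
  · rw [mul_zero]

theorem d5c_thq_sub {R : Type*} [CommRing R] (F G : PowerSeries R) :
    thq (F - G) = thq F - thq G := by
  ext n
  rw [map_sub, d5b_thq_coeff, d5b_thq_coeff, d5b_thq_coeff, map_sub]
  ring

theorem d5c_thq_pow {R : Type*} [CommRing R] (F : PowerSeries R) (n : ℕ) :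
    thq (F ^ (n + 1)) = ((n + 1 : ℕ) : PowerSeries R) * F ^ n * thq F := by
  induction n with
  | zero => simp
  | succ n ih =>
    rw [pow_succ, d5b_thq_mul, ih]
    push_cast
    ring

theorem d5c_thq_expand {R : Type*} [CommRing R] (F : PowerSeries R) :
    thq (F.expand 5 five_ne) = 5 * (thq F).expand 5 five_ne := by
  have h5 : (5 : PowerSeries R) = C (5 : R) := by
    rw [map_ofNat]
  ext n
  rw [d5b_thq_coeff, h5, PowerSeries.coeff_C_mul]
  by_cases h : 5 ∣ n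
  · obtain ⟨m, rfl⟩ := h
    rw [coeff_expand_mul, coeff_expand_mul, d5b_thq_coeff]
    push_cast
    ring
  · rw [coeff_expand_of_not_dvd 5 five_ne _ h, coeff_expand_of_not_dvd 5 five_ne _ h, mul_zero,
      mul_zero]

theorem d5c_U_add {R : Type*} [CommRing R] (F G : PowerSeries R) :
    U 5 (F + G) = U 5 F + U 5 G := by
  ext n
  simp [U]

theorem d5c_U_X {R : Type*} [CommRing R] (i : ℕ) :
    U 5 ((X : PowerSeries R) ^ i) = if 5 ∣ i then X ^ (i / 5) else 0 := by
  ext n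
  have h1 : PowerSeries.coeff n (U 5 ((X : PowerSeries R) ^ i)) =
      PowerSeries.coeff (5 * n) ((X : PowerSeries R) ^ i) := PowerSeries.coeff_mk _ _
  rw [h1, PowerSeries.coeff_X_pow]
  split_ifs with h2 h3 h3
  · subst h2
    rw [Nat.mul_div_cancel_left _ (by norm_num), PowerSeries.coeff_X_pow, if_pos rfl]
  · exact absurd ⟨n, h2.symm⟩ h3
  · obtain ⟨m, rfl⟩ := h3
    rw [Nat.mul_div_cancel_left _ (by norm_num), PowerSeries.coeff_X_pow, if_neg]
    rintro rfl
    exact h2 rfl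
  · rw [map_zero]

theorem d5c_expand_inj {R : Type*} [CommRing R] {F G : PowerSeries R}
    (h : F.expand 5 five_ne = G.expand 5 five_ne) : F = G := by
  ext n
  have h1 := congrArg (PowerSeries.coeff (5 * n)) h
  rwa [coeff_expand_mul, coeff_expand_mul] at h1

theorem d5c_const_u (R : Type*) [CommRing R] :
    PowerSeries.constantCoeff (euler R 25 * invOfUnit (euler R 1) 1) = 1 := by
  rw [map_mul, fx_constantCoeff_euler, PowerSeries.constantCoeff_invOfUnit]
  simp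

theorem dlh5_mul (R : Type*) [CommRing R] : dlh5 R * hser5 R = thq (hser5 R) := by
  have h1 : (euler R 25 * invOfUnit (euler R 1) 1) *
      invOfUnit (euler R 25 * invOfUnit (euler R 1) 1) 1 = 1 := by
    apply PowerSeries.mul_invOfUnit
    rw [d5c_const_u, Units.val_one]
  unfold dlh5 hser5
  generalize euler R 25 * invOfUnit (euler R 1) 1 = u at h1 ⊢
  rw [d5b_thq_mul, d5c_thq_X]
  linear_combination (X * thq u) * h1

/-- `P(v) = 1 + v + 2v² + 3v³ + 5v⁴ - 3v⁵ + 2v⁶ - v⁷ + v⁸`, made homogeneous. -/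
def d5cP {R : Type*} [CommRing R] (v a : R) : R :=
  a ^ 8 + v * a ^ 7 + 2 * v ^ 2 * a ^ 6 + 3 * v ^ 3 * a ^ 5 + 5 * v ^ 4 * a ^ 4 -
    3 * v ^ 5 * a ^ 3 + 2 * v ^ 6 * a ^ 2 - v ^ 7 * a + v ^ 8

theorem d5c_P1 {R : Type*} [CommRing R] (v a : R) :
    (a ^ 2 - v * a - v ^ 2) * d5cP v a = a ^ 10 - 11 * v ^ 5 * a ^ 5 - v ^ 10 := by
  unfold d5cP
  ring

theorem d5c_P2 {R : Type*} [CommRing R] (v a h : R) (hd : h * (a ^ 2 - v * a - v ^ 2) = v * a) :
    (a ^ 2 - v * a - v ^ 2) ^ 4 * (1 + 5 * h + 15 * h ^ 2 + 25 * h ^ 3 + 25 * h ^ 4) =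
      d5cP v a := by
  have h2 : (a ^ 2 - v * a - v ^ 2) ^ 4 * (1 + 5 * h + 15 * h ^ 2 + 25 * h ^ 3 + 25 * h ^ 4) =
      (a ^ 2 - v * a - v ^ 2) ^ 4 +
      5 * (h * (a ^ 2 - v * a - v ^ 2)) * (a ^ 2 - v * a - v ^ 2) ^ 3 +
      15 * (h * (a ^ 2 - v * a - v ^ 2)) ^ 2 * (a ^ 2 - v * a - v ^ 2) ^ 2 +
      25 * (h * (a ^ 2 - v * a - v ^ 2)) ^ 3 * (a ^ 2 - v * a - v ^ 2) +
      25 * (h * (a ^ 2 - v * a - v ^ 2)) ^ 4 := by ring
  rw [h2, hd]
  unfold d5cP
  ring

theorem d5c_UP {R : Type*} [CommRing R] (A : PowerSeries R) :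
    U 5 (((A.expand 5 five_ne) ^ 2 + X ^ 2) * d5cP X (A.expand 5 five_ne)) =
      A ^ 10 + X ^ 2 := by
  have h1 : ((A.expand 5 five_ne) ^ 2 + X ^ 2) * d5cP X (A.expand 5 five_ne) =
      (A ^ 10).expand 5 five_ne * X ^ 0 + (A ^ 9).expand 5 five_ne * X ^ 1 +
      (3 * A ^ 8).expand 5 five_ne * X ^ 2 + (4 * A ^ 7).expand 5 five_ne * X ^ 3 +
      (7 * A ^ 6).expand 5 five_ne * X ^ 4 + (7 * A ^ 4).expand 5 five_ne * X ^ 6 +
      (-4 * A ^ 3).expand 5 five_ne * X ^ 7 + (3 * A ^ 2).expand 5 five_ne * X ^ 8 +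
      (-A).expand 5 five_ne * X ^ 9 + (1 : PowerSeries R).expand 5 five_ne * X ^ 10 := by
    simp only [map_mul, map_pow, map_ofNat, map_neg, map_one]
    unfold d5cP
    ring
  rw [h1]
  simp only [d5c_U_add, U_expand_mul5, d5c_U_X]
  norm_num

/-- `h D = X A`, `D = A² - X A - X²` (the series `A` in `q^5`): consequences. -/
theorem d5c_key {A h : PowerSeries K} (h0 : h ≠ 0) (hA : PowerSeries.constantCoeff A = 1)
    (hd : h * ((A.expand 5 five_ne) ^ 2 - X * A.expand 5 five_ne - X ^ 2) =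
      X * A.expand 5 five_ne)
    {L : PowerSeries K} (hL : L * h = thq h) :
    A * (A ^ 10 - 11 * X * A ^ 5 - X ^ 2) * U 5 L =
      (A - 5 * thq A) * (A ^ 10 + X ^ 2) := by
  set B := A.expand 5 five_ne with hB
  set b : PowerSeries K := 5 * (thq A).expand 5 five_ne with hb
  have hthB : thq B = b := d5c_thq_expand A
  have hX0 : (X : PowerSeries K) ≠ 0 := PowerSeries.X_ne_zero
  have hBc : PowerSeries.constantCoeff B = 1 := by
    rw [← PowerSeries.coeff_zero_eq_constantCoeff_apply] at hA ⊢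
    have h5 := coeff_expand_mul 5 five_ne A 0
    rw [mul_zero] at h5
    rw [hB, h5, hA]
  have hD0 : B ^ 2 - X * B - X ^ 2 ≠ 0 := by
    intro h
    have h2 := congrArg PowerSeries.constantCoeff h
    simp [hBc] at h2
  -- differentiate
  have h1 : thq h * (B ^ 2 - X * B - X ^ 2) + h * (2 * B * b - (X * B + X * b) - 2 * X ^ 2) =
      X * B + X * b := by
    have h2 := congrArg thq hd
    rw [d5b_thq_mul, d5b_thq_mul, d5c_thq_sub, d5c_thq_sub, d5b_thq_mul, d5c_thq_X, hthB,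
      show (2 : ℕ) = 1 + 1 from rfl, d5c_thq_pow, d5c_thq_pow, d5c_thq_X, hthB] at h2
    push_cast at h2
    linear_combination h2
  have h2 : (B ^ 2 - X * B - X ^ 2) * ((L * h) * (B ^ 2 - X * B - X ^ 2) * B) =
      (B ^ 2 - X * B - X ^ 2) * (h * ((B - b) * (B ^ 2 + X ^ 2))) := by
    rw [hL]
    linear_combination (B * (B ^ 2 - X * B - X ^ 2)) * h1 -
      (B * (2 * B * b - (X * B + X * b) - 2 * X ^ 2) + (B - b) * (B ^ 2 + X ^ 2)) * hd
  have h3 := mul_left_cancel₀ hD0 h2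
  have h4 : h * (L * (B ^ 2 - X * B - X ^ 2) * B) = h * ((B - b) * (B ^ 2 + X ^ 2)) := by
    rw [← h3]
    ring
  have h5 := mul_left_cancel₀ h0 h4
  have h6 : (A * (A ^ 10 - 11 * X * A ^ 5 - X ^ 2)).expand 5 five_ne * L =
      (A - 5 * thq A).expand 5 five_ne * ((B ^ 2 + X ^ 2) * d5cP X B) := by
    have h7 := d5c_P1 (X : PowerSeries K) B
    have e1 : (A * (A ^ 10 - 11 * X * A ^ 5 - X ^ 2)).expand 5 five_ne =
        B * (B ^ 10 - 11 * X ^ 5 * B ^ 5 - X ^ 10) := by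
      simp only [map_mul, map_pow, map_ofNat, map_sub, PowerSeries.expand_X]
      rw [← hB]
      ring
    have e2 : (A - 5 * thq A).expand 5 five_ne = B - b := by
      simp only [map_mul, map_ofNat, map_sub]
      rw [← hB, ← hb]
    rw [e1, e2, ← h7]
    linear_combination (d5cP X B) * h5
  have h8 := congrArg (U 5) h6
  rw [U_expand_mul5, U_expand_mul5, d5c_UP] at h8
  exact h8

omit [CharZero K] in
/-- `f (A^10 - 11 X A^5 - X²) = X A^5`. -/
theorem d5c_f {A : PowerSeries K} (hh : HIds5 K)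
    (hd : hser5 K * ((A.expand 5 five_ne) ^ 2 - X * A.expand 5 five_ne - X ^ 2) =
      X * A.expand 5 five_ne) :
    hauptmodul 5 K * (A ^ 10 - 11 * X * A ^ 5 - X ^ 2) = X * A ^ 5 := by
  apply d5c_expand_inj
  set B := A.expand 5 five_ne with hB
  have h1 := d5c_P2 (X : PowerSeries K) B (hser5 K) hd
  have h2 := d5c_P1 (X : PowerSeries K) B
  have h3 := hh.f2
  simp only [map_mul, map_pow, map_ofNat, map_sub, PowerSeries.expand_X]
  rw [← hB]
  have e1 : B ^ 10 - 11 * X ^ 5 * B ^ 5 - (X ^ 5) ^ 2 =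
      B ^ 10 - 11 * X ^ 5 * B ^ 5 - (X : PowerSeries K) ^ 10 := by ring
  rw [e1, ← h2, ← h1]
  calc _ = (B ^ 2 - X * B - X ^ 2) ^ 5 * ((hauptmodul 5 K).expand 5 five_ne *
        (1 + 5 * hser5 K + 15 * hser5 K ^ 2 + 25 * hser5 K ^ 3 + 25 * hser5 K ^ 4)) := by ring
    _ = (hser5 K * (B ^ 2 - X * B - X ^ 2)) ^ 5 := by rw [h3]; ring
    _ = X ^ 5 * B ^ 5 := by rw [hd]; ring

/-- `(θf/f) A (A^10 - 11 X A^5 - X²) = (A - 5θA) (A^10 + X²)`. -/
theorem d5c_dlog {A : PowerSeries K} (hh : HIds5 K) (hA : PowerSeries.constantCoeff A = 1)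
    (hf : hauptmodul 5 K * (A ^ 10 - 11 * X * A ^ 5 - X ^ 2) = X * A ^ 5) :
    A * (A ^ 10 - 11 * X * A ^ 5 - X ^ 2) * dlog5 K = (A - 5 * thq A) * (A ^ 10 + X ^ 2) := by
  set f := hauptmodul 5 K with hfd
  have hN0 : A ^ 10 - 11 * X * A ^ 5 - X ^ 2 ≠ 0 := by
    intro h
    have h2 := congrArg PowerSeries.constantCoeff h
    simp [hA] at h2
  have hf0 : f ≠ 0 := by
    intro h
    rw [h, zero_mul] at hf
    have h2 : (X : PowerSeries K) * A ^ 5 ≠ 0 := by
      refine mul_ne_zero PowerSeries.X_ne_zero (pow_ne_zero _ ?_)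
      rintro rfl
      simp at hA
    exact h2 hf.symm
  have t10 : thq (A ^ 10) = 10 * A ^ 9 * thq A := by
    have h := d5c_thq_pow A 9
    push_cast at h
    linear_combination h
  have t5 : thq (A ^ 5) = 5 * A ^ 4 * thq A := by
    have h := d5c_thq_pow A 4
    push_cast at h
    linear_combination h
  have t2 : thq ((X : PowerSeries K) ^ 2) = 2 * X ^ 2 := by
    have h := d5c_thq_pow (X : PowerSeries K) 1
    rw [d5c_thq_X] at h
    push_cast at h
    rw [h]
    ring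
  have t11 : ∀ F : PowerSeries K, thq (11 * F) = 11 * thq F := by
    intro F
    have h := d5b_thq_natMul 11 F
    push_cast at h
    exact h
  have hth : thq (A ^ 10 - 11 * X * A ^ 5 - X ^ 2) =
      10 * A ^ 9 * thq A - 11 * (X * A ^ 5 + X * (5 * A ^ 4 * thq A)) - 2 * X ^ 2 := by
    rw [d5c_thq_sub, d5c_thq_sub, t10, mul_assoc (11 : PowerSeries K), t11, d5b_thq_mul,
      d5c_thq_X, t5, t2]
  have h1 := congrArg thq hf
  rw [d5b_thq_mul, d5b_thq_mul, hth, d5c_thq_X, t5, ← hh.d1, ← hfd] at h1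
  have h2 : (f * (A ^ 10 - 11 * X * A ^ 5 - X ^ 2)) *
      (A * (A ^ 10 - 11 * X * A ^ 5 - X ^ 2) * dlog5 K) =
      (f * (A ^ 10 - 11 * X * A ^ 5 - X ^ 2)) * ((A - 5 * thq A) * (A ^ 10 + X ^ 2)) := by
    linear_combination (A * (A ^ 10 - 11 * X * A ^ 5 - X ^ 2)) * h1 -
      (A * (10 * A ^ 9 * thq A - 11 * (X * A ^ 5 + X * (5 * A ^ 4 * thq A)) - 2 * X ^ 2) +
        (A - 5 * thq A) * (A ^ 10 + X ^ 2)) * hf
  exact mul_left_cancel₀ (mul_ne_zero hf0 hN0) h2

theorem d5c_h_ne (hh : HIds5 K) : hser5 K ≠ 0 := by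
  intro h
  have h2 := hh.c1
  rw [h, map_zero] at h2
  exact zero_ne_one h2

/-- `U_5 (θh/h) = θf/f`. -/
theorem U_dlh5 (hh : HIds5 K) : U 5 (dlh5 K) = dlog5 K := by
  obtain ⟨A, hA, hd⟩ := hh.h1
  have h1 := d5c_key (d5c_h_ne hh) hA hd (dlh5_mul K)
  have hf := d5c_f hh hd
  have h2 := d5c_dlog hh hA hf
  have hA0 : A ≠ 0 := by
    rintro rfl
    simp at hA
  have hN0 : A ^ 10 - 11 * X * A ^ 5 - X ^ 2 ≠ 0 := by
    intro h
    have h2 := congrArg PowerSeries.constantCoeff h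
    simp [hA] at h2
  exact mul_left_cancel₀ (mul_ne_zero hA0 hN0) (h1.trans h2.symm)

/-- `θf/f = (θh/h) (R_1/Q)(h)`. -/
theorem d5c_dlog_eq (hh : HIds5 K) :
    dlog5 K = dlh5 K * ((Rser5 K 1 * d5bR (-1)).subst (hser5 K) : PowerSeries K) := by
  have hs := d5b_hs_h hh
  have h1 := d5b_thq_f hh
  rw [← hh.d1, ← dlh5_mul K, ← d5b_f_subst hh] at h1
  have h2 : (d5bP K : PowerSeries K).subst (hser5 K) =
      hser5 K * ((d5bR (1 : K)).subst (hser5 K) : PowerSeries K) := by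
    unfold d5bP
    rw [subst_mul hs, subst_X hs, d5bR_one]
  have h3 : ((d5bR (1 : K)).subst (hser5 K) : PowerSeries K) *
      ((d5bR (-1 : K)).subst (hser5 K) : PowerSeries K) = 1 := by
    rw [← subst_mul hs, ← d5bR_add, add_neg_cancel, d5bR_zero, ub_subst_one hs]
  rw [h2] at h1
  have h4 : hser5 K * (dlog5 K * ((d5bR (1 : K)).subst (hser5 K) : PowerSeries K)) =
      hser5 K * (dlh5 K * ((Rser5 K 1).subst (hser5 K) : PowerSeries K)) := by
    linear_combination h1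
  have h5 := mul_left_cancel₀ (d5c_h_ne hh) h4
  rw [subst_mul hs]
  linear_combination ((d5bR (-1 : K)).subst (hser5 K) : PowerSeries K) * h5 - dlog5 K * h3

/-- The column `j = 0` for `e = 1`. -/
theorem U_frm5_one_zero (hh : HIds5 K) (y : K) : U 5 (frm5 1 y) =
    frm5 1 y * (PowerSeries.mk fun i ↦ Mat5 1 y i 0).subst (hauptmodul 5 K) := by
  have hs := d5b_hs_h hh
  have hf := d5b_hs_f hh
  have hG : PowerSeries.constantCoeff (Rser5 K 1 * d5bR (-1 - y)) = 1 := by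
    rw [map_mul, d5bR_const]
    unfold Rser5
    rw [if_neg one_ne_zero]
    simp
  obtain ⟨G1, hG1⟩ : ∃ G1, Rser5 K 1 * d5bR (-1 - y) - 1 = X * G1 := by
    have h1 : (X : PowerSeries K) ∣ Rser5 K 1 * d5bR (-1 - y) - 1 := by
      rw [PowerSeries.X_dvd_iff, map_sub, hG, map_one, sub_self]
    exact h1
  have hG2 : Rser5 K 1 * d5bR (-1 - y) = 1 + X * G1 := by rw [← hG1]; ring
  have h1 : frm5 1 y = (phiPow y).expand 5 five_ne *
      (dlh5 K + thq (hser5 K) * (G1.subst (hser5 K) : PowerSeries K)) := by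
    have h2 : ((Rser5 K 1 * d5bR (-1 - y)).subst (hser5 K) : PowerSeries K) =
        1 + hser5 K * (G1.subst (hser5 K) : PowerSeries K) := by
      rw [hG2, subst_add hs, subst_mul hs, subst_X hs, ub_subst_one hs]
    have h3 : ((Rser5 K 1 * d5bR (-1 - y)).subst (hser5 K) : PowerSeries K) =
        ((Rser5 K 1 * d5bR (-1)).subst (hser5 K) : PowerSeries K) *
          ((d5bR (-y)).subst (hser5 K) : PowerSeries K) := by
      rw [← subst_mul hs, show (-1 - y : K) = -1 + -y by ring, d5bR_add, mul_assoc]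
    unfold frm5
    rw [pow_one, ← dlh5_mul K]
    calc phiPow y * dlog5 K
        = ((phiPow y).expand 5 five_ne * ((d5bR (-y)).subst (hser5 K) : PowerSeries K)) *
          (dlh5 K * ((Rser5 K 1 * d5bR (-1)).subst (hser5 K) : PowerSeries K)) := by
          rw [← d5b_phi_expand hh, ← d5c_dlog_eq hh]
      _ = (phiPow y).expand 5 five_ne * (dlh5 K *
          ((Rser5 K 1 * d5bR (-1 - y)).subst (hser5 K) : PowerSeries K)) := by
          rw [h3]
          ring
      _ = _ := by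
          rw [h2]
          ring
  have h2 : (PowerSeries.mk fun i ↦ Mat5 1 y i 0) =
      1 + X * PowerSeries.mk fun i ↦ PowerSeries.coeff (5 * i + 4)
        (Qser5 K ^ (i + 1) * G1) := by
    ext i
    cases i with
    | zero =>
      rw [PowerSeries.coeff_mk, Mat5_zero_zero, map_add, PowerSeries.coeff_zero_X_mul]
      simp
    | succ i =>
      rw [PowerSeries.coeff_mk, map_add, PowerSeries.coeff_succ_X_mul, PowerSeries.coeff_mk,
        PowerSeries.coeff_one, if_neg (Nat.succ_ne_zero i), zero_add, d5b_Mat5, pow_zero, mul_one]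
      have h3 : PowerSeries.coeff (5 * i + 4) (Qser5 K ^ (i + 1) * G1) =
          PowerSeries.coeff (5 * i + 5) (Qser5 K ^ (i + 1) * (X * G1)) := by
        rw [show Qser5 K ^ (i + 1) * (X * G1) = X * (Qser5 K ^ (i + 1) * G1) by ring,
          show 5 * i + 5 = (5 * i + 4) + 1 by ring, PowerSeries.coeff_succ_X_mul]
      have h4 : Qser5 K ^ (i + 1) * (X * G1) =
          Rser5 K 1 * d5bR (((i + 1 : ℕ) : K) - 1 - y) - Qser5 K ^ (i + 1) := by
        rw [← hG1]
        have h5 : (((i + 1 : ℕ) : K) - 1 - y) = ((i + 1 : ℕ) : K) + (-1 - y) := by ring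
        rw [h5, d5bR_add ((i + 1 : ℕ) : K), d5bR_nat]
        ring
      have h6 : PowerSeries.coeff (5 * i + 5) (Qser5 K ^ (i + 1)) = 0 := by
        have hpoly : ∀ m : ℕ, ∃ P : Polynomial K, P.natDegree ≤ 4 * m ∧
            (P : PowerSeries K) = Qser5 K ^ m := by
          intro m
          refine ⟨(1 + Polynomial.C 5 * Polynomial.X + Polynomial.C 15 * Polynomial.X ^ 2 +
            Polynomial.C 25 * Polynomial.X ^ 3 + Polynomial.C 25 * Polynomial.X ^ 4) ^ m, ?_, ?_⟩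
          · refine (Polynomial.natDegree_pow_le).trans ?_
            have h7 : (1 + Polynomial.C 5 * Polynomial.X + Polynomial.C 15 * Polynomial.X ^ 2 +
              Polynomial.C 25 * Polynomial.X ^ 3 +
              Polynomial.C 25 * Polynomial.X ^ 4 : Polynomial K).natDegree ≤ 4 := by
              compute_degree
            calc m * _ ≤ m * 4 := Nat.mul_le_mul_left _ h7
              _ = 4 * m := mul_comm _ _
          · rw [Polynomial.coe_pow]
            congr 1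
            unfold Qser5
            simp
        obtain ⟨P, hP1, hP2⟩ := hpoly (i + 1)
        rw [← hP2, Polynomial.coeff_coe]
        exact Polynomial.coeff_eq_zero_of_natDegree_lt (by omega)
      rw [h3, h4, map_sub, h6, sub_zero]
      rfl
  rw [h2, subst_add hf, subst_mul hf, subst_X hf, ub_subst_one hf]
  conv_lhs => rw [h1]
  rw [U_expand_mul5, d5c_U_add, U_dlh5 hh, U_theta_subst_hser5 hh, ← hh.d1]
  unfold frm5
  rw [pow_one]
  ring

end

theorem d5c_cpl (e : ℕ) : cpl (dlog5 ℤ_[5] ^ e) = dlog5 C5 ^ e := by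
  unfold cpl
  rw [map_pow, map_dlog5]

/-- The matrix of `U_5` in the basis `φ^y (θf/f)^e f^j`, `e = 0, 1`. -/
theorem isUMat5 (hh : HIds5 C5) {e : ℕ} (he : e ≤ 1) (y : C5) :
    IsUMat (phiPow y * cpl (dlog5 ℤ_[5] ^ e)) (Mat5 e y) := by
  rw [d5c_cpl]
  refine ⟨?_, fun i j h => Mat5_of_lt e y h, fun u hu => ?_⟩
  · rw [map_mul, map_pow, constantCoeff_phiPow, hh.d0]
    simp
  · have he' : e = 0 ∨ (e = 1 ∧ PowerSeries.coeff 0 u = 0) := by
      rcases Nat.lt_or_ge e 1 with h | h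
      · exact Or.inl (by omega)
      · exact Or.inr ⟨by omega, hu⟩
    exact U_frm5_subst hh e y u he'

theorem isUMat5_zero (hh : HIds5 C5) {e : ℕ} (he : e ≤ 1) :
    IsUMat (cpl (dlog5 ℤ_[5] ^ e)) (Mat5 e (0 : C5)) := by
  have h := isUMat5 hh he 0
  have h0 : phiPow (0 : C5) = 1 := by
    have h1 := phiPow_natCast (K := C5) 0
    rwa [Nat.cast_zero, pow_zero] at h1
  rwa [h0, one_mul] at h

end D5

end GH
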