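import Pool.Agent.GH.D5.Phi5
import Pool.Agent.GH.D5.UMat5C
import Pool.Agent.GH.D5.Ghost5
import Pool.Agent.GH.D5.EisW2
import Pool.Agent.GH.DP.MainP
import Pool.Agent.GH.DP.EisFamP

/-!
# Final assembly: the central theorem implies the ghost conjecture for `p = 5`, `N = 1`
-/

open PowerSeries Filter Topology

noncomputable section

namespace GH

namespace D5

open GP DP CombU

/-- The theorem on the central disc. -/
def CentralTheorem5 : Prop :=
  ∀ e : ℕ, e ≤ 1 → ∀ y : C5, ‖y‖ ≤ 1 →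
    newtonPolygon 5 (fred (Mat5 e y)) = newtonPolygon 5 (ghostG 5 e (121 ^ e * (1 + wx5 y) - 1))

theorem m5_ne_two : (5 : ℕ) ≠ 2 := by norm_num

theorem m5_cast : ((5 : ℕ) : ℝ)⁻¹ = 1 / 5 := by norm_num

/-- The weight two Eisenstein series. -/
theorem m5_eis {e : ℕ} (he : e ≤ 1) :
    ((Weight.incl 5) ^ (2 * e) : Weight 5).eis = cpl (dlog5 ℤ_[5] ^ e) := by
  obtain rfl | rfl : e = 0 ∨ e = 1 := by omega
  · rw [mul_zero, pow_zero, pow_zero, Weight.eis_one]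
    unfold cpl
    rw [map_one]
  · rw [eis_incl_pow m5_ne_two (by norm_num) (by norm_num), mul_one, pow_one]
    unfold cpl
    rw [map_dlog5, ← map_dlog5 ℚ (algebraMap ℚ C5)]
    congr 1
    rw [dlog5_eq]
    unfold eisStabP
    congr 1
    ext n
    rw [PowerSeries.coeff_mk, PowerSeries.coeff_mk, bernoulli_two]
    congr 1
    · norm_num
    · refine Finset.sum_congr rfl fun d _ ↦ ?_
      split_ifs
      · rfl
      · norm_num

/-- The bounds in the form needed. -/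
theorem m5_dec {e : ℕ} (he : e ≤ 1) {y : C5} (hy : ‖y‖ ≤ 1) :
    Dec (9 / 5) ((9 / 5 : ℝ) ^ 2) (Mat5 e y) := by
  intro i j h
  have h1 : ‖Mat5 e y i j‖ * (9 / 5 : ℝ) ^ (5 * i - j) ≤ (9 / 5 : ℝ) ^ 2 := by
    obtain rfl | rfl : e = 0 ∨ e = 1 := by omega
    · exact norm_Mat5_zero_le hy h
    · exact (norm_Mat5_one_le hy h).trans (by norm_num)
  rw [inv_pow]
  rwa [← div_eq_mul_inv, le_div_iff₀ (by positivity)]

theorem ghost5_component (hc : CentralTheorem5) (κ : Weight 5) (hκ : κ.IsEven) :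
    (∀ m : ℕ, ∃ c : PadicComplex 5,
      Tendsto (fun N : ℕ ↦ fredBlock κ.uMatrixU N m) atTop (𝓝 c)) ∧
    newtonPolygon 5 κ.charSeriesU = newtonPolygon 5 (ghostG 5 κ.nu κ.w) := by
  have he : κ.nu ≤ 1 := by
    have h1 := (Weight.nu_spec κ hκ).1
    omega
  obtain ⟨E, hE⟩ := exists_eisFamP (p := 5) m5_ne_two
  obtain ⟨u, hu⟩ := exists_ord5 (fun y ↦ Mat5_zero_zero 0 y) (fun y hy i j h ↦
    norm_Mat5_zero_le hy h) (Mat5_isPoly 0)
  have h := ghost_of_central (p := 5) m5_ne_two E hE κ.nu (dlog5 ℤ_[5] ^ κ.nu)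
    (by rw [map_pow, constantCoeff_dlog5, one_pow]) (m5_eis he) wx5
    (fun w hw ↦ exists_wx5_eq (by rwa [m5_cast] at hw)) (fun y ↦ phiPow y)
    (fun y _ ↦ constantCoeff_phiPow y) u (9 / 5) (11 / 10) ((9 / 5 : ℝ) ^ 2) (by norm_num)
    (by norm_num) (fun y hy ↦ (hu.eqs y hy).1) (fun y hy ↦ (hu.eqs y hy).2.1)
    (fun y hy ↦ evSp_eisFam5 E hE u hu y hy) (fun y ↦ Mat5 κ.nu y)
    (fun y _ ↦ isUMat5 (hIds5 C5) he y) (fun y hy ↦ m5_dec he hy) (Mat5 κ.nu 0)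
    (isUMat5_zero (hIds5 C5) he) (m5_dec he (by simp)) (fun w hw l ↦
      norm_Phi5_central E hE u hu hw l) (fun w n ↦ ghostG 5 κ.nu (121 ^ κ.nu * (1 + w) - 1) n)
    (fun n ↦ 3 * n + 3) zero5 (fun n l ↦ T5 κ.nu n (2 * l)) norm_zero5
    (fun w hw n ↦ norm_ghostG5 he hw n) ?_ (fun y hy ↦ hc κ.nu he y hy) κ hκ rfl
  · refine ⟨h.1, ?_⟩
    rw [h.2]
    congr 1
    funext n
    congr 1
    rw [w_base κ, pow_mul]
    norm_num
  · intro n
    rw [sum_T5 he, sum_T5 he, sum_T5 he]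
    have h1 : (8 * (n + 1) + 4 * κ.nu) / 5 + 1 ≤ (8 * (n + 1 + 1) + 4 * κ.nu) / 5 := by omega
    have e1 : B5 κ.nu (n + 1) = B5 κ.nu n + (8 * (n + 1) + 4 * κ.nu) / 5 :=
      Finset.sum_range_succ _ _
    have e2 : B5 κ.nu (n + 2) = B5 κ.nu (n + 1) + (8 * (n + 1 + 1) + 4 * κ.nu) / 5 :=
      Finset.sum_range_succ _ _
    omega

/-- **The ghost conjecture for `p = 5`, tame level one**, from the theorem on the central disc. -/
theorem ghost5_of_central (hc : CentralTheorem5) : GhostConjectureU 5 :=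
  fun κ hκ ↦ ghost5_component hc κ hκ

end D5

end GH
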