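import Pool.Agent.GH.D5.Glue5
import Pool.Agent.GH.DP.FamP

open PowerSeries Filter Topology

noncomputable section

namespace GH

namespace D5

open GP DP

/-! ### expansion `q ↦ q^5` -/

theorem d5_ph_expand_subst {K : Type*} [Field K] {v : PowerSeries K}
    (hv : PowerSeries.constantCoeff v = 0) (g : PowerSeries K) :
    PowerSeries.expand 5 five_ne (g.subst v) = g.subst (v.expand 5 five_ne) := by
  rw [PowerSeries.expand_apply, PowerSeries.expand_apply]
  exact subst_comp_subst_apply (HasSubst.of_constantCoeff_zero' hv)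
    (HasSubst.X_pow five_ne) g

theorem d5_ph_expand_ppow {K : Type*} [Field K] {u : PowerSeries K}
    (hu : PowerSeries.constantCoeff u = 1) (s : K) :
    (ppow u s).expand 5 five_ne = ppow (u.expand 5 five_ne) s := by
  unfold ppow
  rw [d5_ph_expand_subst (by rw [map_sub, hu, map_one, sub_self]), map_sub, map_one]

/-! ### norms -/

theorem d5_ph_smul {r a : ℝ} {F : PowerSeries C5} (hF : d5_Bd r a F) (c : C5) :
    d5_Bd r (‖c‖ * a) (C c * F) := by
  intro n
  rw [PowerSeries.coeff_C_mul, norm_mul, mul_assoc]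
  exact mul_le_mul_of_nonneg_left (hF n) (norm_nonneg _)

theorem d5_ph_mono {r a b : ℝ} {F : PowerSeries C5} (hF : d5_Bd r a F) (h : a ≤ b) :
    d5_Bd r b F := fun n => (hF n).trans h

theorem d5_ph_subst {r a : ℝ} (hr : 0 < r) {F G : PowerSeries C5}
    (hF0 : PowerSeries.constantCoeff F = 0) (hF : d5_Bd r a F)
    (hG : ∀ m, ‖PowerSeries.coeff m G‖ * a ^ m ≤ 1) : d5_Bd r 1 (G.subst F) := by
  intro n
  have h32 : (0 : ℝ) < r ^ n := by positivity
  rw [← le_div_iff₀ h32, fa_coeff_subst hF0]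
  refine IsUltrametricDist.norm_sum_le_of_forall_le_of_nonneg (by positivity) fun m _ => ?_
  rw [le_div_iff₀ h32, norm_mul, mul_assoc]
  calc ‖PowerSeries.coeff m G‖ * (‖PowerSeries.coeff n (F ^ m)‖ * r ^ n)
      ≤ ‖PowerSeries.coeff m G‖ * a ^ m :=
        mul_le_mul_of_nonneg_left (d5_Bd_pow hr hF m n) (norm_nonneg _)
    _ ≤ 1 := hG m

theorem d5_ph_inv {r : ℝ} (hr : 0 < r) {F G : PowerSeries C5}
    (hF0 : PowerSeries.constantCoeff F = 1) (hF : d5_Bd r 1 F) (hFG : F * G = 1) :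
    d5_Bd r 1 G := by
  intro n
  induction n using Nat.strong_induction_on with
  | _ n ih =>
    have h32 : (0 : ℝ) < r ^ n := by positivity
    have h1 : PowerSeries.coeff n G = (if n = 0 then 1 else 0) -
        ∑ ij ∈ (Finset.HasAntidiagonal.antidiagonal n).erase (0, n),
          PowerSeries.coeff ij.1 F * PowerSeries.coeff ij.2 G := by
      have h2 := congrArg (PowerSeries.coeff n) hFG
      rw [PowerSeries.coeff_mul, PowerSeries.coeff_one,
        ← Finset.add_sum_erase _ _ (Finset.HasAntidiagonal.mem_antidiagonal.2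
          (show ((0, n) : ℕ × ℕ).1 + ((0, n) : ℕ × ℕ).2 = n from zero_add n)),
        PowerSeries.coeff_zero_eq_constantCoeff_apply, hF0, one_mul] at h2
      exact eq_sub_of_add_eq h2
    rw [← le_div_iff₀ h32, h1, sub_eq_add_neg]
    refine (IsUltrametricDist.norm_add_le_max _ _).trans (max_le ?_ ?_)
    · rcases Nat.eq_zero_or_pos n with h | h
      · subst h
        simp
      · rw [if_neg (by omega), norm_zero]
        positivity
    · rw [norm_neg]
      refine IsUltrametricDist.norm_sum_le_of_forall_le_of_nonneg (by positivity) fun ij hij => ?_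
      rw [Finset.mem_erase, Finset.HasAntidiagonal.mem_antidiagonal] at hij
      have hlt : ij.2 < n := by
        rcases Nat.lt_or_ge ij.2 n with h | h
        · exact h
        · exact absurd (Prod.ext (by show ij.1 = 0; omega) (by show ij.2 = n; omega)) hij.1
      rw [le_div_iff₀ h32, norm_mul, ← hij.2, pow_add]
      calc ‖PowerSeries.coeff ij.1 F‖ * ‖PowerSeries.coeff ij.2 G‖ *
            (r ^ ij.1 * r ^ ij.2)
          = (‖PowerSeries.coeff ij.1 F‖ * r ^ ij.1) *
            (‖PowerSeries.coeff ij.2 G‖ * r ^ ij.2) := by ring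
        _ ≤ 1 * 1 := mul_le_mul (hF _) (ih _ hlt) (by positivity) zero_le_one
        _ = 1 := one_mul 1

/-- one product with vanishing constant terms -/
theorem d5_ph_mul_bound {r : ℝ} (hr : 0 < r) {F G : PowerSeries C5}
    (hF0 : PowerSeries.constantCoeff F = 0)
    (hG0 : PowerSeries.constantCoeff G = 0) {n : ℕ} {a b : ℝ} (ha : 0 ≤ a) (hb : 0 ≤ b)
    (hF : ∀ m < n, ‖PowerSeries.coeff m F‖ * r ^ m ≤ a)
    (hG : ∀ m < n, ‖PowerSeries.coeff m G‖ * r ^ m ≤ b) {k : ℕ} (hk : k ≤ n) :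
    ‖PowerSeries.coeff k (F * G)‖ * r ^ k ≤ a * b := by
  have h32 : (0 : ℝ) < r ^ k := by positivity
  rw [← le_div_iff₀ h32, PowerSeries.coeff_mul]
  refine IsUltrametricDist.norm_sum_le_of_forall_le_of_nonneg (by positivity) fun ij hij => ?_
  rw [Finset.HasAntidiagonal.mem_antidiagonal] at hij
  rw [le_div_iff₀ h32]
  by_cases h1 : ij.1 = 0
  · rw [h1, PowerSeries.coeff_zero_eq_constantCoeff_apply, hF0, zero_mul, norm_zero, zero_mul]
    positivity
  by_cases h2 : ij.2 = 0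
  · rw [h2, PowerSeries.coeff_zero_eq_constantCoeff_apply, hG0, mul_zero, norm_zero, zero_mul]
    positivity
  rw [norm_mul, ← hij, pow_add]
  calc ‖PowerSeries.coeff ij.1 F‖ * ‖PowerSeries.coeff ij.2 G‖ *
        (r ^ ij.1 * r ^ ij.2)
      = (‖PowerSeries.coeff ij.1 F‖ * r ^ ij.1) *
        (‖PowerSeries.coeff ij.2 G‖ * r ^ ij.2) := by ring
    _ ≤ a * b := mul_le_mul (hF _ (by omega)) (hG _ (by omega)) (by positivity) ha

theorem d5_ph_n15 : ‖(15 : C5)‖ ≤ 1 / 5 := by
  have h : (15 : C5) = 5 * ((3 : ℕ) : C5) := by norm_num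
  rw [h, norm_mul, norm_five_C5]
  calc (5 : ℝ)⁻¹ * ‖((3 : ℕ) : C5)‖ ≤ 5⁻¹ * 1 :=
        mul_le_mul_of_nonneg_left (d5_ubn_nat 3) (by norm_num)
    _ = 1 / 5 := by norm_num

theorem d5_ph_n25 : ‖(25 : C5)‖ ≤ 1 / 25 := by
  have h : (25 : C5) = 5 ^ 2 := by norm_num
  rw [h, norm_pow, norm_five_C5]
  norm_num

theorem d5_ph_n5 : ‖(5 : C5)‖ ≤ 1 / 5 := by
  rw [norm_five_C5]
  norm_num

/-- the norm of `h` as a power series in `f` -/
theorem d5_ph_g {g : PowerSeries C5} (h0 : PowerSeries.constantCoeff g = 0)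
    (hg : g * (1 + C (5 : C5) * g + C (15 : C5) * g ^ 2 + C (25 : C5) * g ^ 3 +
      C (25 : C5) * g ^ 4) = X) : d5_Bd (11 / 10) (11 / 10) g := by
  have hg' : g = X - C (5 : C5) * (g * g) - C (15 : C5) * (g * (g * g)) -
      C (25 : C5) * (g * (g * (g * g))) - C (25 : C5) * (g * (g * (g * (g * g)))) := by
    rw [← hg]
    ring
  have h00 : PowerSeries.constantCoeff (g * g) = 0 := by rw [map_mul, h0, zero_mul]
  have h01 : PowerSeries.constantCoeff (g * (g * g)) = 0 := by rw [map_mul, h0, zero_mul]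
  have h02 : PowerSeries.constantCoeff (g * (g * (g * g))) = 0 := by rw [map_mul, h0, zero_mul]
  have hr : (0 : ℝ) < 11 / 10 := by norm_num
  intro n
  induction n using Nat.strong_induction_on with
  | _ n ih =>
    have h32 : (0 : ℝ) < (11 / 10 : ℝ) ^ n := by positivity
    have b2 : ∀ k ≤ n, ‖PowerSeries.coeff k (g * g)‖ * (11 / 10 : ℝ) ^ k ≤
        11 / 10 * (11 / 10) :=
      fun k hk => d5_ph_mul_bound hr h0 h0 (by norm_num) (by norm_num) ih ih hk
    have b3 : ∀ k ≤ n, ‖PowerSeries.coeff k (g * (g * g))‖ * (11 / 10 : ℝ) ^ k ≤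
        11 / 10 * (11 / 10 * (11 / 10)) :=
      fun k hk => d5_ph_mul_bound hr h0 h00 (by norm_num) (by norm_num) ih
        (fun m hm => b2 m hm.le) hk
    have b4 : ∀ k ≤ n, ‖PowerSeries.coeff k (g * (g * (g * g)))‖ * (11 / 10 : ℝ) ^ k ≤
        11 / 10 * (11 / 10 * (11 / 10 * (11 / 10))) :=
      fun k hk => d5_ph_mul_bound hr h0 h01 (by norm_num) (by norm_num) ih
        (fun m hm => b3 m hm.le) hk
    have b5 : ∀ k ≤ n, ‖PowerSeries.coeff k (g * (g * (g * (g * g))))‖ * (11 / 10 : ℝ) ^ k ≤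
        11 / 10 * (11 / 10 * (11 / 10 * (11 / 10 * (11 / 10)))) :=
      fun k hk => d5_ph_mul_bound hr h0 h02 (by norm_num) (by norm_num) ih
        (fun m hm => b4 m hm.le) hk
    have key : ∀ (c : C5) (F : PowerSeries C5) (a b : ℝ), ‖c‖ ≤ a → 0 ≤ b →
        ‖PowerSeries.coeff n F‖ * (11 / 10 : ℝ) ^ n ≤ b → a * b ≤ 11 / 10 →
        ‖-(c * PowerSeries.coeff n F)‖ ≤ 11 / 10 / (11 / 10 : ℝ) ^ n := by
      intro c F a b hc hb hF hab
      rw [norm_neg, norm_mul, le_div_iff₀ h32, mul_assoc]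
      exact (mul_le_mul hc hF (by positivity) ((norm_nonneg _).trans hc)).trans hab
    rw [← le_div_iff₀ h32, hg', map_sub, map_sub, map_sub, map_sub, PowerSeries.coeff_C_mul,
      PowerSeries.coeff_C_mul, PowerSeries.coeff_C_mul, PowerSeries.coeff_C_mul, sub_eq_add_neg,
      sub_eq_add_neg, sub_eq_add_neg, sub_eq_add_neg]
    refine (IsUltrametricDist.norm_add_le_max _ _).trans (max_le
      ((IsUltrametricDist.norm_add_le_max _ _).trans (max_le
      ((IsUltrametricDist.norm_add_le_max _ _).trans (max_le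
      ((IsUltrametricDist.norm_add_le_max _ _).trans (max_le ?_ ?_)) ?_)) ?_)) ?_)
    · rw [PowerSeries.coeff_X]
      split_ifs with h
      · subst h
        simp
      · rw [norm_zero]
        positivity
    · exact key _ _ _ _ d5_ph_n5 (by norm_num) (b2 n le_rfl) (by norm_num)
    · exact key _ _ _ _ d5_ph_n15 (by norm_num) (b3 n le_rfl) (by norm_num)
    · exact key _ _ _ _ d5_ph_n25 (by norm_num) (b4 n le_rfl) (by norm_num)
    · exact key _ _ _ _ d5_ph_n25 (by norm_num) (b5 n le_rfl) (by norm_num)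

theorem d5_ph_binS {s : C5} (hs : ‖s‖ ≤ 1) (m : ℕ) :
    ‖PowerSeries.coeff m (binS s)‖ * (1 / 4 : ℝ) ^ m ≤ 1 := by
  have h1 : ‖∏ i ∈ Finset.range m, (s - i)‖ ≤ 1 := by
    refine d5_ubn_prod m fun l => ?_
    rw [sub_eq_add_neg]
    refine (IsUltrametricDist.norm_add_le_max _ _).trans (max_le hs ?_)
    rw [norm_neg]
    exact d5_ubn_nat l
  have h2 := d5_ubn_fac m
  unfold binS
  rw [PowerSeries.coeff_mk, norm_div, div_eq_mul_inv]
  calc ‖∏ i ∈ Finset.range m, (s - i)‖ * ‖(m.factorial : C5)‖⁻¹ * (1 / 4 : ℝ) ^ m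
      ≤ 1 * (3 / 2 : ℝ) ^ m * (1 / 4 : ℝ) ^ m := by gcongr
    _ = (3 / 8 : ℝ) ^ m := by
        rw [one_mul, ← mul_pow]
        norm_num
    _ ≤ 1 := pow_le_one₀ (by norm_num) (by norm_num)

theorem d5_ph_phic : PowerSeries.constantCoeff (phi5 C5) = 1 := constantCoeff_phi5 C5

theorem d5_ph_haupt_c : PowerSeries.constantCoeff (hauptmodul 5 C5) = 0 := by
  rw [← PowerSeries.coeff_zero_eq_constantCoeff_apply, coeff_zero_hauptmodul]

/-- On the central disc the coefficients of `E(q)/E(q^5)` decay with radius `11/10`. -/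
theorem norm_Phi5_central (E : PowerSeries (PowerSeries ℤ_[5])) (hE : EisFamilyP E)
    (u : ℕ → C5 → C5) (hu : OrdVec5 u) {w : C5} (hw : ‖w‖ ≤ ((5 : ℕ) : ℝ)⁻¹) (l : ℕ) :
    ‖evp w (PhiP E l)‖ * (11 / 10 : ℝ) ^ l ≤ 1 := by
  have hw' : ‖w‖ ≤ 1 / 5 := by
    refine hw.trans (le_of_eq ?_)
    norm_num
  obtain ⟨x, hx, rfl⟩ := exists_wx5_eq hw'
  have hw1 : ‖wx5 x‖ < 1 := lt_of_le_of_lt hw' (by norm_num)
  obtain ⟨g, hg0, -, hg, hh⟩ := exists_hser5_eq_subst (R := C5) (hauptmodul5_eq qd5)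
  have hr : (0 : ℝ) < 11 / 10 := by norm_num
  set f := hauptmodul 5 C5 with hf
  have hfs : HasSubst f := fx_hasSubst 5
  set G := PowerSeries.map (Int.castRingHom C5) g with hG
  have hG0 : PowerSeries.constantCoeff G = 0 := by
    rw [← PowerSeries.coeff_zero_eq_constantCoeff_apply, hG, PowerSeries.coeff_map, hg0, map_zero]
  have hC5 : (C (5 : C5) : PowerSeries C5) = 5 := map_ofNat _ _
  have hC15 : (C (15 : C5) : PowerSeries C5) = 15 := map_ofNat _ _
  have hC25 : (C (25 : C5) : PowerSeries C5) = 25 := map_ofNat _ _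
  have hGX : G * (1 + C (5 : C5) * G + C (15 : C5) * G ^ 2 + C (25 : C5) * G ^ 3 +
      C (25 : C5) * G ^ 4) = X := by
    have h2 := congrArg (PowerSeries.map (Int.castRingHom C5)) hg
    simp only [map_mul, map_add, map_pow, map_one, map_ofNat, PowerSeries.map_X] at h2
    rw [hC5, hC15, hC25]
    exact h2
  have nG : d5_Bd (11 / 10) (11 / 10) G := d5_ph_g hG0 hGX
  -- `W = Q(h) - 1`
  set W : PowerSeries C5 := C (5 : C5) * G + C (15 : C5) * G ^ 2 + C (25 : C5) * G ^ 3 +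
      C (25 : C5) * G ^ 4 with hW
  have nW : d5_Bd (11 / 10) (1 / 4) W := by
    refine d5_Bd_add hr (d5_Bd_add hr (d5_Bd_add hr ?_ ?_) ?_) ?_
    · refine d5_ph_mono (d5_ph_smul nG 5) ?_
      rw [norm_five_C5]
      norm_num
    · refine d5_ph_mono (d5_ph_smul (d5_Bd_pow hr nG 2) 15) ?_
      exact (mul_le_mul_of_nonneg_right d5_ph_n15 (by norm_num)).trans (by norm_num)
    · refine d5_ph_mono (d5_ph_smul (d5_Bd_pow hr nG 3) 25) ?_
      exact (mul_le_mul_of_nonneg_right d5_ph_n25 (by norm_num)).trans (by norm_num)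
    · refine d5_ph_mono (d5_ph_smul (d5_Bd_pow hr nG 4) 25) ?_
      exact (mul_le_mul_of_nonneg_right d5_ph_n25 (by norm_num)).trans (by norm_num)
  have hW0 : PowerSeries.constantCoeff W = 0 := by
    rw [hW]
    simp [hG0]
  -- `A = Q(h)`
  set A : PowerSeries C5 := 1 + W with hA
  have hA0 : PowerSeries.constantCoeff A = 1 := by rw [hA, map_add, map_one, hW0, add_zero]
  have nA : d5_Bd (11 / 10) 1 A :=
    d5_Bd_add hr (d5_Bd_one le_rfl) (d5_ph_mono nW (by norm_num))
  have hWf : W.subst f = 5 * hser5 C5 + 15 * hser5 C5 ^ 2 + 25 * hser5 C5 ^ 3 +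
      25 * hser5 C5 ^ 4 := by
    rw [hW, hC5, hC15, hC25, ← coe_substAlgHom hfs]
    simp only [map_add, map_mul, map_pow, map_ofNat]
    rw [coe_substAlgHom, ← hh]
  have hAf : A.subst f = 1 + 5 * hser5 C5 + 15 * hser5 C5 ^ 2 + 25 * hser5 C5 ^ 3 +
      25 * hser5 C5 ^ 4 := by
    have h1 : A.subst f = 1 + W.subst f := by
      rw [hA, ← coe_substAlgHom hfs, map_add, map_one, coe_substAlgHom]
    rw [h1, hWf]
    ring
  have hAi : A * A⁻¹ = 1 := PowerSeries.mul_inv_cancel _ (by rw [hA0]; exact one_ne_zero)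
  have nAi : d5_Bd (11 / 10) 1 A⁻¹ := d5_ph_inv hr hA0 nA hAi
  -- `k(f) = f(q^5)`
  set k : PowerSeries C5 := G ^ 5 * A⁻¹ with hk
  have nk : d5_Bd (11 / 10) (9 / 5) k :=
    d5_ph_mono (d5_Bd_mul hr (d5_Bd_pow hr nG 5) nAi) (by norm_num)
  have hk0 : PowerSeries.constantCoeff k = 0 := by
    rw [hk, map_mul, map_pow, hG0]
    simp
  have hkf : k.subst f = f.expand 5 five_ne := by
    have h1 : k.subst f * A.subst f = hser5 C5 ^ 5 := by
      rw [← PowerSeries.subst_mul hfs, hk, mul_assoc, mul_comm A⁻¹ A, hAi, mul_one, hh,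
        ← coe_substAlgHom hfs, map_pow]
    have h2 : f.expand 5 five_ne * A.subst f = hser5 C5 ^ 5 := by
      rw [hAf]
      exact expand_hauptmodul5 qd5
    have h3 : A.subst f ≠ 0 := by
      intro h
      have h4 := congrArg (PowerSeries.coeff 0) h
      rw [fx_coeff_subst] at h4
      simp [hA0] at h4
    exact mul_right_cancel₀ h3 (h1.trans h2.symm)
  -- `B(f) = Q(h)^y`
  set B : PowerSeries C5 := (binS x).subst W with hB
  have nB : d5_Bd (11 / 10) 1 B := d5_ph_subst hr hW0 nW (d5_ph_binS hx)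
  have hB0 : PowerSeries.constantCoeff B = 1 := by
    rw [← PowerSeries.coeff_zero_eq_constantCoeff_apply, hB, fa_coeff_subst hW0]
    simp [binS]
  have hBf : PowerSeries.subst f B =
      ppow (1 + 5 * hser5 C5 + 15 * hser5 C5 ^ 2 + 25 * hser5 C5 ^ 3 + 25 * hser5 C5 ^ 4) x := by
    unfold ppow
    rw [hB, subst_comp_subst_apply (HasSubst.of_constantCoeff_zero' hW0) hfs]
    congr 1
    rw [hWf]
    ring
  -- `V(f) = u(f(q^5))`
  set uS : PowerSeries C5 := PowerSeries.mk fun n ↦ u n x with huS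
  obtain ⟨hu0, hub, -⟩ := hu.eqs x hx
  set V : PowerSeries C5 := uS.subst k with hV
  have nV : d5_Bd (11 / 10) 1 V := by
    refine d5_ph_subst hr hk0 nk fun m => ?_
    rw [huS, PowerSeries.coeff_mk]
    exact hub m
  have hV0 : PowerSeries.constantCoeff V = 1 := by
    rw [← PowerSeries.coeff_zero_eq_constantCoeff_apply, hV, fa_coeff_subst hk0]
    simp [huS, hu0]
  have hVf : PowerSeries.subst f V = PowerSeries.expand 5 five_ne (uS.subst f) := by
    rw [hV, subst_comp_subst_apply (HasSubst.of_constantCoeff_zero' hk0) hfs, hkf,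
      d5_ph_expand_subst d5_ph_haupt_c]
  have nu : d5_Bd (11 / 10) 1 uS := by
    intro n
    rw [huS, PowerSeries.coeff_mk]
    exact (mul_le_mul_of_nonneg_left (pow_le_pow_left₀ (by norm_num) (by norm_num) n)
      (norm_nonneg _)).trans (hub n)
  -- the product
  have hBV0 : PowerSeries.constantCoeff (B * V) = 1 := by rw [map_mul, hB0, hV0, one_mul]
  have hBVi : B * V * (B * V)⁻¹ = 1 :=
    PowerSeries.mul_inv_cancel _ (by rw [hBV0]; exact one_ne_zero)
  have nBV : d5_Bd (11 / 10) 1 (B * V) := d5_ph_mono (d5_Bd_mul hr nB nV) (by norm_num)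
  have nBVi : d5_Bd (11 / 10) 1 (B * V)⁻¹ := d5_ph_inv hr hBV0 nBV hBVi
  have nΦ : d5_Bd (11 / 10) 1 (uS * (B * V)⁻¹) := d5_ph_mono (d5_Bd_mul hr nu nBVi) (by norm_num)
  have hE1 : evSp (wx5 x) E = phiPow x * uS.subst f := evSp_eisFam5 E hE u hu x hx
  have h16h : PowerSeries.constantCoeff (1 + 5 * hser5 C5 + 15 * hser5 C5 ^ 2 +
      25 * hser5 C5 ^ 3 + 25 * hser5 C5 ^ 4) = 1 := by
    have h1 : PowerSeries.constantCoeff (hser5 C5) = 0 := by
      rw [← PowerSeries.coeff_zero_eq_constantCoeff_apply, coeff_zero_hser5]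
    simp [h1]
  have hE2 : (evSp (wx5 x) E).expand 5 five_ne = phiPow x * (B * V).subst f := by
    rw [hE1, map_mul]
    have h1 : (phiPow x).expand 5 five_ne = phiPow x * PowerSeries.subst f B := by
      unfold phiPow
      rw [d5_ph_expand_ppow d5_ph_phic, ← phi5_mul qd5, fa_ppow_mul d5_ph_phic h16h, hBf]
    rw [h1, PowerSeries.subst_mul hfs, hVf, mul_assoc]
  have hcE : PowerSeries.constantCoeff ((evSp (wx5 x) E).expand 5 five_ne) ≠ 0 := by
    rw [PowerSeries.constantCoeff_expand, dp_fm_cEw hE hw1]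
    exact one_ne_zero
  have hΦ : evSp (wx5 x) E * ((evSp (wx5 x) E).expand 5 five_ne)⁻¹ =
      (uS * (B * V)⁻¹).subst f := by
    symm
    rw [PowerSeries.eq_mul_inv_iff_mul_eq hcE, hE2, hE1, PowerSeries.subst_mul hfs]
    have h1 : ((B * V)⁻¹).subst f * (B * V).subst f = 1 := by
      rw [← PowerSeries.subst_mul hfs, mul_comm (B * V)⁻¹, hBVi, ← coe_substAlgHom hfs, map_one]
    calc uS.subst f * ((B * V)⁻¹).subst f * (phiPow x * (B * V).subst f)
        = phiPow x * uS.subst f * (((B * V)⁻¹).subst f * (B * V).subst f) := by ring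
      _ = phiPow x * uS.subst f := by rw [h1, mul_one]
  rw [dp_fm_ev_Phi hE hw1, hΦ, fcoeff_subst]
  exact nΦ l

end D5

end GH
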