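import Pool.Agent.GH.D5.Base5
import Pool.Agent.GH.D3.QJac

open PowerSeries Filter Topology

noncomputable section

namespace GH

namespace D5

/-! The 5-dissection of `E(q) = ∏ (1-q^n)`. -/

theorem five_ne : (5 : ℕ) ≠ 0 := by norm_num

/-- `E(q) = A(q^5) - q E(q^25) - q² B(q^5)` with `A B = E(q^5)²` in the variable `q^5`. -/
def QD5 : Prop := ∃ A B : PowerSeries ℤ,
    euler ℤ 1 = A.expand 5 five_ne - X * euler ℤ 25 - X ^ 2 * B.expand 5 five_ne ∧
      A * B = euler ℤ 5 ^ 2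

/-! ### The pentagonal number theorem for `euler ℤ 1` -/

theorem d5_coeff_euler (n : ℕ) : PowerSeries.coeff n (euler ℤ 1) =
    PowerSeries.coeff n (pentagonalSeries ℤ) := by
  obtain ⟨s, hs⟩ := Filter.eventually_atTop.1 (coeff_prod_one_sub_X_pow_eventually_eq ℤ n)
  have h1 := hs (Finset.range (max n (s.sup id + 1))) (by
    intro x hx
    have : x ≤ s.sup id := Finset.le_sup (f := id) hx
    exact Finset.mem_range.2 (by omega))
  unfold euler
  rw [coeff_mk, ← D3.d3j_coeff_stable 1 n n (by omega) (max n (s.sup id + 1)) (le_max_left _ _),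
    ← h1]
  simp only [one_mul]

theorem d5_coeff_pent (k : ℤ) : PowerSeries.coeff (pentagonal k) (euler ℤ 1) =
    ((Int.negOnePow k : ℤˣ) : ℤ) := by
  rw [d5_coeff_euler, coeff_pentagonalSeries_pentagonal]
  exact Int.cast_id

theorem d5_coeff_not (n : ℕ) (h : ∀ k : ℤ, pentagonal k ≠ n) :
    PowerSeries.coeff n (euler ℤ 1) = 0 := by
  rw [d5_coeff_euler, coeff_pentagonalSeries_eq_zero]
  rintro ⟨k, hk⟩
  exact h k hk

theorem d5_pent_five (m : ℤ) : pentagonal (5 * m + 1) = 1 + 25 * pentagonal (-m) := by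
  have h1 := two_mul_natCast_pentagonal (5 * m + 1)
  have h2 := two_mul_natCast_pentagonal_neg m
  have h3 : (2 : ℤ) * (pentagonal (5 * m + 1) : ℤ) = 2 * (1 + 25 * (pentagonal (-m) : ℤ)) := by
    rw [h1, show (2 : ℤ) * (1 + 25 * (pentagonal (-m) : ℤ)) =
      2 + 25 * (2 * (pentagonal (-m) : ℤ)) by ring, h2]
    ring
  omega

theorem d5_pent_mod (k : ℤ) : (pentagonal k % 5 = 0 ∨ pentagonal k % 5 = 1 ∨
    pentagonal k % 5 = 2) ∧ (pentagonal k % 5 = 1 → ∃ m : ℤ, k = 5 * m + 1) := by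
  have h1 := two_mul_natCast_pentagonal k
  obtain ⟨m, hm | hm | hm | hm | hm⟩ : ∃ m : ℤ, k = 5 * m ∨ k = 5 * m + 1 ∨ k = 5 * m + 2 ∨
    k = 5 * m + 3 ∨ k = 5 * m + 4 := ⟨k / 5, by omega⟩
  · have h2 : (2 : ℤ) * (pentagonal k : ℤ) = 5 * (m * (15 * m - 1)) := by rw [h1, hm]; ring
    omega
  · have h2 : (2 : ℤ) * (pentagonal k : ℤ) = 5 * (m * (15 * m + 5)) + 2 := by rw [h1, hm]; ring
    refine ⟨by omega, fun _ => ⟨m, hm⟩⟩
  · have h2 : (2 : ℤ) * (pentagonal k : ℤ) = 5 * ((5 * m + 2) * (3 * m + 1)) := by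
      rw [h1, hm]; ring
    omega
  · have h2 : (2 : ℤ) * (pentagonal k : ℤ) = 5 * (15 * m ^ 2 + 17 * m + 4) + 4 := by
      rw [h1, hm]; ring
    omega
  · have h2 : (2 : ℤ) * (pentagonal k : ℤ) = 5 * (15 * m ^ 2 + 23 * m + 8) + 4 := by
      rw [h1, hm]; ring
    omega

/-- The class of `1` modulo five. -/
theorem d5_class_one (j : ℕ) : PowerSeries.coeff (5 * j + 1) (euler ℤ 1) =
    PowerSeries.coeff (5 * j + 1) (-(X * euler ℤ 25)) := by
  rw [map_neg, coeff_succ_X_mul, ← D3.d3j_expand_euler 25 (by norm_num), coeff_expand]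
  by_cases ht : ∃ k : ℤ, pentagonal k = 5 * j + 1
  · obtain ⟨k, hk⟩ := ht
    obtain ⟨m, rfl⟩ := (d5_pent_mod k).2 (by omega)
    have h1 := d5_pent_five m
    have h2 : 5 * j = 25 * pentagonal (-m) := by omega
    rw [← hk, d5_coeff_pent, h2, if_pos ⟨_, rfl⟩, Nat.mul_div_cancel_left _ (by norm_num),
      d5_coeff_pent]
    have h3 : Int.negOnePow (5 * m + 1) = - Int.negOnePow (-m) := by
      rw [Int.negOnePow_succ, Int.negOnePow_neg, show 5 * m = m + 2 * (2 * m) by ring,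
        Int.negOnePow_add, Int.negOnePow_two_mul, mul_one]
    rw [h3]
    simp
  · push Not at ht
    rw [d5_coeff_not _ ht]
    split_ifs with h
    · obtain ⟨l, hl⟩ := h
      rw [hl, Nat.mul_div_cancel_left _ (by norm_num), d5_coeff_not, neg_zero]
      intro k hk
      apply ht (5 * (-k) + 1)
      rw [d5_pent_five, neg_neg, hk]
      omega
    · simp

theorem d5_cx (G : PowerSeries ℤ) (i n : ℕ) (h : n % 5 ≠ i % 5) :
    PowerSeries.coeff n (X ^ i * G.expand 5 five_ne) = 0 := by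
  rw [coeff_X_pow_mul']
  split_ifs with hi
  · rw [PowerSeries.coeff_expand_of_not_dvd 5 five_ne]
    omega
  · rfl

theorem d5_cy (G : PowerSeries ℤ) (i n : ℕ) :
    PowerSeries.coeff (5 * n + i) (X ^ i * G.expand 5 five_ne) = PowerSeries.coeff n G := by
  rw [coeff_X_pow_mul', if_pos (by omega), Nat.add_sub_cancel, coeff_expand_mul]

theorem d5_e25 : euler ℤ 25 = (euler ℤ 5).expand 5 five_ne := by
  rw [← D3.d3j_expand_euler 25 (by norm_num), ← D3.d3j_expand_euler 5 five_ne, 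
    ← PowerSeries.expand_mul]

theorem d5_dissect : euler ℤ 1 =
    (PowerSeries.mk fun n ↦ PowerSeries.coeff (5 * n) (euler ℤ 1)).expand 5 five_ne -
      X * euler ℤ 25 -
      X ^ 2 * (PowerSeries.mk fun n ↦ -PowerSeries.coeff (5 * n + 2) (euler ℤ 1)).expand 5
        five_ne := by
  have h0 : ∀ G : PowerSeries ℤ, G.expand 5 five_ne = X ^ 0 * G.expand 5 five_ne := by
    intro G
    rw [pow_zero, one_mul]
  have h1 : (X : PowerSeries ℤ) * euler ℤ 25 = X ^ 1 * (euler ℤ 5).expand 5 five_ne := by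
    rw [pow_one, d5_e25]
  ext n
  obtain ⟨j, hj | hj | hj | hj⟩ : ∃ j, n = 5 * j ∨ n = 5 * j + 1 ∨ n = 5 * j + 2 ∨
    (n % 5 = 3 ∨ n % 5 = 4) := ⟨n / 5, by omega⟩
  · subst hj
    rw [map_sub, map_sub, coeff_expand_mul, coeff_mk, h1, d5_cx _ 1 _ (by omega),
      d5_cx _ 2 _ (by omega)]
    ring
  · subst hj
    rw [map_sub, map_sub, h0, d5_cx _ 0 _ (by omega), d5_cx _ 2 _ (by omega), d5_class_one,
      map_neg]
    ring
  · subst hj
    rw [map_sub, map_sub, h0 (PowerSeries.mk _), h1, d5_cx _ 0 _ (by omega),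
      d5_cx _ 1 _ (by omega), d5_cy, coeff_mk]
    ring
  · rw [map_sub, map_sub, h0 (PowerSeries.mk _), h1, d5_cx _ 0 _ (by omega),
      d5_cx _ 1 _ (by omega), d5_cx _ 2 _ (by omega), d5_coeff_not]
    · ring
    · intro k hk
      have := (d5_pent_mod k).1
      omega

theorem d5_tri_mod (j : ℕ) : D3.d3j_tri j % 5 ≠ 2 := by
  have h1 := D3.d3j_two_tri j
  obtain ⟨m, hm | hm | hm | hm | hm⟩ : ∃ m : ℕ, j = 5 * m ∨ j = 5 * m + 1 ∨ j = 5 * m + 2 ∨
    j = 5 * m + 3 ∨ j = 5 * m + 4 := ⟨j / 5, by omega⟩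
  · have h2 : 2 * D3.d3j_tri j = 5 * (m * (5 * m + 1)) := by rw [h1, hm]; ring
    omega
  · have h2 : 2 * D3.d3j_tri j = 5 * (m * (5 * m + 3)) + 2 := by rw [h1, hm]; ring
    omega
  · have h2 : 2 * D3.d3j_tri j = 5 * (m * (5 * m + 5) + 1) + 1 := by rw [h1, hm]; ring
    omega
  · have h2 : 2 * D3.d3j_tri j = 5 * (m * (5 * m + 7) + 2) + 2 := by rw [h1, hm]; ring
    omega
  · have h2 : 2 * D3.d3j_tri j = 5 * ((5 * m + 4) * (m + 1)) := by rw [h1, hm]; ring
    omega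

theorem d5_cube_zero (m : ℕ) : PowerSeries.coeff (5 * m + 2) (euler ℤ 1 ^ 3) = 0 := by
  rw [D3.d3j_jacobi]
  apply D3.d3j_coeff_not
  intro k hk
  have := d5_tri_mod k
  omega

theorem qd5 : QD5 := by
  refine ⟨_, _, d5_dissect, ?_⟩
  set A : PowerSeries ℤ := PowerSeries.mk fun n ↦ PowerSeries.coeff (5 * n) (euler ℤ 1) with hA
  set B : PowerSeries ℤ := PowerSeries.mk fun n ↦ -PowerSeries.coeff (5 * n + 2) (euler ℤ 1)
    with hB
  have hA0 : A ≠ 0 := by
    intro h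
    have h1 : PowerSeries.coeff 0 A = 1 := by
      rw [hA, coeff_mk]
      unfold euler
      simp
    rw [h, map_zero] at h1
    exact zero_ne_one h1
  have hd : euler ℤ 1 = A.expand 5 five_ne - X * euler ℤ 25 - X ^ 2 * B.expand 5 five_ne :=
    d5_dissect
  have hc : euler ℤ 1 ^ 3 = X ^ 0 * (A ^ 3).expand 5 five_ne -
      X ^ 1 * (3 * A ^ 2 * euler ℤ 5).expand 5 five_ne +
      X ^ 2 * (3 * A * (euler ℤ 5 ^ 2 - A * B)).expand 5 five_ne +
      X ^ 3 * (6 * A * euler ℤ 5 * B - euler ℤ 5 ^ 3).expand 5 five_ne +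
      X ^ 4 * (3 * A * B ^ 2 - 3 * euler ℤ 5 ^ 2 * B).expand 5 five_ne -
      X ^ 5 * (3 * euler ℤ 5 * B ^ 2).expand 5 five_ne -
      X ^ 6 * (B ^ 3).expand 5 five_ne := by
    rw [hd, d5_e25]
    simp only [map_mul, map_sub, map_pow, map_ofNat]
    ring
  have h2 : 3 * A * (euler ℤ 5 ^ 2 - A * B) = 0 := by
    ext m
    have h3 := d5_cube_zero m
    rw [hc, map_sub, map_sub, map_add, map_add, map_add, map_sub] at h3
    rw [d5_cx _ 0 _ (by omega), d5_cx _ 1 _ (by omega), d5_cx _ 3 _ (by omega),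
      d5_cx _ 4 _ (by omega), d5_cx _ 5 _ (by omega), d5_cx _ 6 _ (by omega), d5_cy] at h3
    rw [map_zero]
    linarith
  have h3 : (3 : PowerSeries ℤ) * A ≠ 0 := by
    refine mul_ne_zero ?_ hA0
    intro h
    have h4 : PowerSeries.constantCoeff (3 : PowerSeries ℤ) = 0 := by rw [h, map_zero]
    rw [map_ofNat] at h4
    norm_num at h4
  have h4 := (mul_eq_zero.1 h2).resolve_left h3
  linear_combination -h4

end D5

end GH
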