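import Pool.Agent.GH.D5.Q5Dis
import Pool.Agent.GH.FExp

open PowerSeries Filter Topology

noncomputable section

namespace GH

namespace D5

/-! Consequences of the dissection `qd5` (given as a hypothesis). -/

/-! ### Products and expansion -/

lemma d5q_stab (K : Type*) [CommRing K] (k n N : ℕ) (h : n < k * (N + 1)) :
    ∀ M, N ≤ M → PowerSeries.coeff n (∏ m ∈ Finset.range M,
      (1 - (X : PowerSeries K) ^ (k * (m + 1)))) =
      PowerSeries.coeff n (∏ m ∈ Finset.range N, (1 - (X : PowerSeries K) ^ (k * (m + 1)))) := by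
  intro M hM
  induction M, hM using Nat.le_induction with
  | base => rfl
  | succ M hM ih =>
    rw [Finset.prod_range_succ, mul_sub, mul_one, map_sub, ih, PowerSeries.coeff_mul_X_pow',
      if_neg, sub_zero]
    have h1 : k * (N + 1) ≤ k * (M + 1) := Nat.mul_le_mul_left _ (by omega)
    omega

lemma d5q_ceu (K : Type*) [CommRing K] (k n M : ℕ) (hk : 1 ≤ k) (hM : n ≤ M) :
    PowerSeries.coeff n (euler K k) =
      PowerSeries.coeff n (∏ m ∈ Finset.range M, (1 - (X : PowerSeries K) ^ (k * (m + 1)))) := by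
  unfold euler
  rw [PowerSeries.coeff_mk]
  refine (d5q_stab K k n n ?_ M hM).symm
  nlinarith

lemma d5q_xprod (K : Type*) [CommRing K] (k N : ℕ) : (∏ m ∈ Finset.range N,
      (1 - (X : PowerSeries K) ^ (k * (m + 1)))).expand 5 five_ne =
      ∏ m ∈ Finset.range N, (1 - (X : PowerSeries K) ^ (5 * k * (m + 1))) := by
  rw [map_prod]
  refine Finset.prod_congr rfl fun m _ => ?_
  rw [map_sub, map_one, map_pow, PowerSeries.expand_X, ← pow_mul, mul_assoc]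

lemma d5q_xeuler (K : Type*) [CommRing K] (k : ℕ) (hk : 1 ≤ k) :
    (euler K k).expand 5 five_ne = euler K (5 * k) := by
  ext n
  rw [PowerSeries.coeff_expand]
  split_ifs with h
  · obtain ⟨l, rfl⟩ := h
    rw [Nat.mul_div_cancel_left l (by norm_num), d5q_ceu K k l l hk le_rfl,
      d5q_ceu K (5 * k) (5 * l) (5 * l) (by omega) le_rfl,
      ← PowerSeries.coeff_expand_mul 5 five_ne, d5q_xprod]
    refine (d5q_stab K (5 * k) (5 * l) l ?_ (5 * l) (by omega)).symm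
    nlinarith
  · unfold euler
    rw [PowerSeries.coeff_mk, ← d5q_xprod, PowerSeries.coeff_expand_of_not_dvd 5 five_ne _ h]

lemma d5q_ne_zero {F : PowerSeries ℤ} (h : PowerSeries.constantCoeff F = 1) : F ≠ 0 := by
  rintro rfl
  simp at h

lemma d5q_euler_ne (k : ℕ) : euler ℤ k ≠ 0 := d5q_ne_zero (fx_constantCoeff_euler ℤ k)

lemma d5q_mul_inv (R : Type*) [CommRing R] (k : ℕ) : euler R k * invOfUnit (euler R k) 1 = 1 :=
  PowerSeries.mul_invOfUnit _ _ (by rw [fx_constantCoeff_euler]; rfl)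

lemma d5q_isUnit (R : Type*) [CommRing R] (k : ℕ) : IsUnit (euler R k) := by
  rw [PowerSeries.isUnit_iff_constantCoeff, fx_constantCoeff_euler]
  exact isUnit_one

/-! ### The norm of `E(q)` -/

section norm

variable {K : Type*} [CommRing K] {z : K}

lemma d5q_fifth (hz : 1 + z + z ^ 2 + z ^ 3 + z ^ 4 = 0) : z ^ 5 = 1 := by
  linear_combination (z - 1) * hz

lemma d5q_C (hz : 1 + z + z ^ 2 + z ^ 3 + z ^ 4 = 0) :
    (1 : PowerSeries K) + C z + C z ^ 2 + C z ^ 3 + C z ^ 4 = 0 := by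
  rw [← map_pow, ← map_pow, ← map_pow, ← map_one (C : K →+* PowerSeries K), ← map_add, ← map_add,
    ← map_add, ← map_add, hz, map_zero]

/-- `∏_b (1 - z^b x) = 1 - x^5`. -/
lemma d5q_fac {L : Type*} [CommRing L] {w : L} (hw : 1 + w + w ^ 2 + w ^ 3 + w ^ 4 = 0) (x : L) :
    (1 - x) * (1 - w * x) * (1 - w ^ 2 * x) * (1 - w ^ 3 * x) * (1 - w ^ 4 * x) = 1 - x ^ 5 := by
  linear_combination (-w ^ 6 * x ^ 5 + w ^ 6 * x ^ 4 + w ^ 5 * x ^ 5 - w ^ 5 * x ^ 3 - w ^ 3 * x ^ 3 + w ^ 3 * x ^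
    2 - w * x ^ 5 + w * x ^ 2 + x ^ 5 - x) * hw

lemma d5q_res_prod (z : K) (N : ℕ) : rescale z (∏ m ∈ Finset.range N,
      (1 - (X : PowerSeries K) ^ (1 * (m + 1)))) =
      ∏ m ∈ Finset.range N, (1 - C (z ^ (m + 1)) * (X : PowerSeries K) ^ (m + 1)) := by
  rw [map_prod]
  refine Finset.prod_congr rfl fun m _ => ?_
  rw [map_sub, map_one, map_pow, rescale_X, one_mul, mul_pow, ← map_pow]

/-- The product of the five conjugate factors of degree `m`. -/
def d5q_F (z : K) (m : ℕ) : PowerSeries K := ∏ b ∈ Finset.range 5,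
  (1 - C ((z ^ b) ^ m) * (X : PowerSeries K) ^ m)

lemma d5q_F_of_dvd (hz : 1 + z + z ^ 2 + z ^ 3 + z ^ 4 = 0) (m : ℕ) :
    d5q_F z (5 * m) = (1 - (X : PowerSeries K) ^ (5 * m)) ^ 5 := by
  unfold d5q_F
  have h : ∀ b ∈ Finset.range 5, (1 - C ((z ^ b) ^ (5 * m)) * (X : PowerSeries K) ^ (5 * m)) =
      1 - (X : PowerSeries K) ^ (5 * m) := by
    intro b _
    have h1 : (z ^ b) ^ (5 * m) = 1 := by
      rw [← pow_mul, show b * (5 * m) = 5 * (b * m) by ring, pow_mul, d5q_fifth hz, one_pow]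
    rw [h1, map_one, one_mul]
  rw [Finset.prod_congr rfl h, Finset.prod_const, Finset.card_range]

lemma d5q_cyc_pow (hz : 1 + z + z ^ 2 + z ^ 3 + z ^ 4 = 0) (m r : ℕ) (hr : 1 ≤ r) (hr5 : r < 5) :
    1 + z ^ (5 * m + r) + (z ^ (5 * m + r)) ^ 2 + (z ^ (5 * m + r)) ^ 3 +
      (z ^ (5 * m + r)) ^ 4 = 0 := by
  have h5 := d5q_fifth hz
  have h : z ^ (5 * m + r) = z ^ r := by rw [pow_add, pow_mul, h5, one_pow, one_mul]
  rw [h]
  interval_cases r
  · linear_combination hz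
  · linear_combination (z ^ 4 - z ^ 3 + z ^ 2 - z + 1) * hz
  · linear_combination (z ^ 8 - z ^ 7 + z ^ 5 - z ^ 4 + z ^ 3 - z + 1) * hz
  · linear_combination (z ^ 12 - z ^ 11 + z ^ 8 - z ^ 6 + z ^ 4 - z + 1) * hz

lemma d5q_F_of_not (hz : 1 + z + z ^ 2 + z ^ 3 + z ^ 4 = 0) (m r : ℕ) (hr : 1 ≤ r) (hr5 : r < 5) :
    d5q_F z (5 * m + r) = 1 - (X : PowerSeries K) ^ (5 * (5 * m + r)) := by
  unfold d5q_F
  have h := d5q_fac (d5q_C (d5q_cyc_pow hz m r hr hr5)) ((X : PowerSeries K) ^ (5 * m + r))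
  rw [← pow_mul, mul_comm (5 * m + r) 5] at h
  rw [← h]
  simp only [Finset.prod_range_succ, Finset.prod_range_zero, one_mul, pow_zero, one_pow, map_one,
    pow_one]
  simp only [← pow_mul, ← map_pow, mul_comm _ (5 * m + r)]

lemma d5q_norm_prod (hz : 1 + z + z ^ 2 + z ^ 3 + z ^ 4 = 0) (N : ℕ) :
    (∏ m ∈ Finset.range (5 * N), d5q_F z (m + 1)) *
      (∏ m ∈ Finset.range N, (1 - (X : PowerSeries K) ^ (25 * (m + 1)))) =
    (∏ m ∈ Finset.range (5 * N), (1 - (X : PowerSeries K) ^ (5 * (m + 1)))) *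
      (∏ m ∈ Finset.range N, (1 - (X : PowerSeries K) ^ (5 * (m + 1)))) ^ 5 := by
  induction N with
  | zero => simp
  | succ N ih =>
    have e : 5 * (N + 1) = 5 * N + 1 + 1 + 1 + 1 + 1 := by ring
    have f1 := d5q_F_of_not hz N 1 le_rfl (by norm_num)
    have f2 := d5q_F_of_not hz N 2 (by norm_num) (by norm_num)
    have f3 := d5q_F_of_not hz N 3 (by norm_num) (by norm_num)
    have f4 := d5q_F_of_not hz N 4 (by norm_num) (by norm_num)
    have f5 := d5q_F_of_dvd hz (N + 1)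
    have e5 : 25 * (N + 1) = 5 * (5 * N + 1 + 1 + 1 + 1 + 1) := by ring
    rw [e]
    simp only [Finset.prod_range_succ]
    rw [mul_pow, e5]
    rw [e] at f5 ⊢
    rw [show 5 * N + 1 + 1 = 5 * N + 2 by ring, show 5 * N + 2 + 1 = 5 * N + 3 by ring,
      show 5 * N + 3 + 1 = 5 * N + 4 by ring] at *
    rw [f1, f2, f3, f4, f5]
    generalize (1 - (X : PowerSeries K) ^ (5 * (5 * N + 1))) = g1
    generalize (1 - (X : PowerSeries K) ^ (5 * (5 * N + 2))) = g2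
    generalize (1 - (X : PowerSeries K) ^ (5 * (5 * N + 3))) = g3
    generalize (1 - (X : PowerSeries K) ^ (5 * (5 * N + 4))) = g4
    generalize (1 - (X : PowerSeries K) ^ (5 * (5 * N + 4 + 1))) = g5
    generalize (1 - (X : PowerSeries K) ^ (5 * N + 4 + 1)) = u
    generalize (∏ m ∈ Finset.range (5 * N), d5q_F z (m + 1)) = P1 at *
    generalize (∏ m ∈ Finset.range N, (1 - (X : PowerSeries K) ^ (25 * (m + 1)))) = P2 at *
    generalize (∏ m ∈ Finset.range (5 * N), (1 - (X : PowerSeries K) ^ (5 * (m + 1)))) = P3 at *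
    generalize (∏ m ∈ Finset.range N, (1 - (X : PowerSeries K) ^ (5 * (m + 1)))) = P4 at *
    linear_combination (g1 * g2 * g3 * g4 * g5 * u ^ 5) * ih

lemma d5q_dvd {F G : PowerSeries K} {n : ℕ} (h : ∀ m < n, PowerSeries.coeff m F =
    PowerSeries.coeff m G) : Ideal.Quotient.mk (Ideal.span {(X : PowerSeries K) ^ n}) F =
      Ideal.Quotient.mk (Ideal.span {(X : PowerSeries K) ^ n}) G := by
  rw [Ideal.Quotient.eq, Ideal.mem_span_singleton, PowerSeries.X_pow_dvd_iff]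
  intro m hm
  rw [map_sub, h m hm, sub_self]

lemma d5q_norm (hz : 1 + z + z ^ 2 + z ^ 3 + z ^ 4 = 0) :
    (∏ b ∈ Finset.range 5, rescale (z ^ b) (euler K 1)) * euler K 25 = euler K 5 ^ 6 := by
  ext n
  have key : Ideal.Quotient.mk (Ideal.span {(X : PowerSeries K) ^ (n + 1)})
      ((∏ b ∈ Finset.range 5, rescale (z ^ b) (euler K 1)) * euler K 25) =
      Ideal.Quotient.mk (Ideal.span {(X : PowerSeries K) ^ (n + 1)}) (euler K 5 ^ 6) := by
    have h2 : ∀ y : K, Ideal.Quotient.mk (Ideal.span {(X : PowerSeries K) ^ (n + 1)})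
        (rescale y (euler K 1)) = Ideal.Quotient.mk (Ideal.span {(X : PowerSeries K) ^ (n + 1)})
        (∏ m ∈ Finset.range (5 * n), (1 - C (y ^ (m + 1)) * (X : PowerSeries K) ^ (m + 1))) := by
      intro y
      apply d5q_dvd
      intro m hm
      rw [← d5q_res_prod, coeff_rescale, coeff_rescale,
        d5q_ceu K 1 m (5 * n) le_rfl (by omega)]
    have h9 := d5q_dvd (F := euler K 25) (n := n + 1)
      (G := ∏ m ∈ Finset.range n, (1 - (X : PowerSeries K) ^ (25 * (m + 1))))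
      (fun m hm => d5q_ceu K 25 m n (by norm_num) (by omega))
    have h3 := d5q_dvd (F := euler K 5) (n := n + 1)
      (G := ∏ m ∈ Finset.range (5 * n), (1 - (X : PowerSeries K) ^ (5 * (m + 1))))
      (fun m hm => d5q_ceu K 5 m (5 * n) (by norm_num) (by omega))
    have h3' := d5q_dvd (F := euler K 5) (n := n + 1)
      (G := ∏ m ∈ Finset.range n, (1 - (X : PowerSeries K) ^ (5 * (m + 1))))
      (fun m hm => d5q_ceu K 5 m n (by norm_num) (by omega))
    have hswap : (∏ b ∈ Finset.range 5, ∏ m ∈ Finset.range (5 * n),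
        (1 - C ((z ^ b) ^ (m + 1)) * (X : PowerSeries K) ^ (m + 1))) =
        ∏ m ∈ Finset.range (5 * n), d5q_F z (m + 1) := by
      rw [Finset.prod_comm]
      rfl
    rw [map_mul, map_prod, Finset.prod_congr rfl (fun b _ => h2 (z ^ b)), h9, ← map_prod, hswap,
      ← map_mul, d5q_norm_prod hz, map_mul, map_pow, map_pow, ← h3, ← h3']
    ring
  rw [Ideal.Quotient.eq, Ideal.mem_span_singleton, PowerSeries.X_pow_dvd_iff] at key
  have := key n (Nat.lt_succ_self n)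
  rwa [map_sub, sub_eq_zero] at this

lemma d5q_res_expand {y : K} (hy : y ^ 5 = 1) (A : PowerSeries K) :
    rescale y (A.expand 5 five_ne) = A.expand 5 five_ne := by
  ext n
  rw [coeff_rescale, PowerSeries.coeff_expand]
  split_ifs with h
  · obtain ⟨l, rfl⟩ := h
    rw [pow_mul, hy, one_pow, one_mul]
  · rw [mul_zero]

/-- `∏_b (a - z^b s - z^(2b) t) = a^5 - 11 s^5 - t^5` if `a t = s²`. -/
lemma d5q_resultant {L : Type*} [CommRing L] {w a s t : L}
    (hw : 1 + w + w ^ 2 + w ^ 3 + w ^ 4 = 0) (h : a * t = s ^ 2) :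
    (a - s - t) * (a - w * s - w ^ 2 * t) * (a - w ^ 2 * s - w ^ 4 * t) *
      (a - w ^ 3 * s - w * t) * (a - w ^ 4 * s - w ^ 3 * t) = a ^ 5 - 11 * s ^ 5 - t ^ 5 := by
  have h1 : (a - s - t) * (a - w * s - w ^ 2 * t) * (a - w ^ 2 * s - w ^ 4 * t) *
      (a - w ^ 3 * s - w * t) * (a - w ^ 4 * s - w ^ 3 * t) =
      a ^ 5 - s ^ 5 - t ^ 5 - 5 * a * s ^ 3 * t - 5 * a ^ 2 * s * t ^ 2 := by
    linear_combination (w ^ 9 * a * s ^ 2 * t ^ 2 - w ^ 9 * s ^ 3 * t ^ 2 - w ^ 9 * s ^ 2 * t ^ 3 + w ^ 8 * a * s ^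
    3 * t - w ^ 8 * a * s ^ 2 * t ^ 2 + w ^ 8 * a * s * t ^ 3 - w ^ 8 * s ^ 4 * t - w ^ 8 * s *
    t ^ 4 - w ^ 7 * a ^ 2 * s ^ 2 * t + w ^ 7 * a * s ^ 3 * t + 2 * w ^ 7 * a * s ^ 2 * t ^ 2 -
    w ^ 7 * s ^ 3 * t ^ 2 - w ^ 7 * s ^ 2 * t ^ 3 + w ^ 6 * a ^ 2 * s ^ 2 * t - 2 * w ^ 6 * a ^
    2 * s * t ^ 2 + w ^ 6 * a * s ^ 4 - 2 * w ^ 6 * a * s ^ 3 * t + 2 * w ^ 6 * a * s ^ 2 * t ^
    2 + w ^ 6 * a * s * t ^ 3 + w ^ 6 * a * t ^ 4 - w ^ 6 * s ^ 5 - w ^ 6 * t ^ 5 - w ^ 5 * a ^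
    2 * s ^ 3 - 2 * w ^ 5 * a ^ 2 * s ^ 2 * t - w ^ 5 * a ^ 2 * t ^ 3 + 4 * w ^ 5 * a * s ^ 3 *
    t + w ^ 5 * a * s ^ 2 * t ^ 2 + 2 * w ^ 5 * a * s * t ^ 3 + w ^ 5 * s ^ 5 + w ^ 5 * t ^ 5 +
    w ^ 4 * a ^ 3 * s * t - 2 * w ^ 4 * a ^ 2 * s ^ 2 * t - w ^ 4 * a ^ 2 * s * t ^ 2 + w ^ 4 *
    a * s ^ 3 * t + w ^ 4 * a * s ^ 2 * t ^ 2 + w ^ 3 * a ^ 3 * s ^ 2 + w ^ 3 * a ^ 3 * t ^ 2 -
    w ^ 3 * a ^ 2 * s ^ 3 - w ^ 3 * a ^ 2 * s ^ 2 * t - w ^ 3 * a ^ 2 * s * t ^ 2 - w ^ 3 * a ^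
    2 * t ^ 3 + w ^ 2 * a ^ 3 * s * t - w ^ 2 * a ^ 2 * s ^ 2 * t - w ^ 2 * a ^ 2 * s * t ^ 2 +
    w * a ^ 3 * s ^ 2 + 2 * w * a ^ 3 * s * t + w * a ^ 3 * t ^ 2 - 5 * w * a ^ 2 * s * t ^ 2 -
    5 * w * a * s ^ 3 * t - w * s ^ 5 - w * t ^ 5 - a ^ 4 * s - a ^ 4 * t + 5 * a ^ 2 * s * t ^
    2 + 5 * a * s ^ 3 * t + s ^ 5 + t ^ 5) * hw
  rw [h1]
  linear_combination (-(5 * a * s * t + 10 * s ^ 3)) * h

end norm

lemma d5q_root : ∃ z : ℂ, 1 + z + z ^ 2 + z ^ 3 + z ^ 4 = 0 := by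
  obtain ⟨z, hz⟩ := IsAlgClosed.exists_root
    (Polynomial.X ^ 4 + Polynomial.X ^ 3 + Polynomial.X ^ 2 + Polynomial.X + 1 : Polynomial ℂ)
    (by
      have h : (Polynomial.X ^ 4 + Polynomial.X ^ 3 + Polynomial.X ^ 2 + Polynomial.X + 1 :
          Polynomial ℂ).degree = 4 := by
        compute_degree!
      rw [h]
      decide)
  refine ⟨z, ?_⟩
  rw [Polynomial.IsRoot.def] at hz
  simp only [Polynomial.eval_add, Polynomial.eval_pow, Polynomial.eval_X,
    Polynomial.eval_one] at hz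
  linear_combination hz

lemma d5q_key_C (A B : PowerSeries ℂ)
    (hA : euler ℂ 1 = A.expand 5 five_ne - X * euler ℂ 25 - X ^ 2 * B.expand 5 five_ne)
    (hAB : A * B = euler ℂ 5 ^ 2) :
    ((A.expand 5 five_ne) ^ 5 - 11 * (X * euler ℂ 25) ^ 5 - (X ^ 2 * B.expand 5 five_ne) ^ 5) *
      euler ℂ 25 = euler ℂ 5 ^ 6 := by
  obtain ⟨z, hz⟩ := d5q_root
  have h5 := d5q_fifth hz
  have h25 : euler ℂ 25 = (euler ℂ 5).expand 5 five_ne := by
    rw [d5q_xeuler ℂ 5 (by norm_num)]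
  have hat : A.expand 5 five_ne * (X ^ 2 * B.expand 5 five_ne) = (X * euler ℂ 25) ^ 2 := by
    have h := congrArg (PowerSeries.expand 5 five_ne) hAB
    rw [map_mul, map_pow, ← h25] at h
    linear_combination (X ^ 2 : PowerSeries ℂ) * h
  have hres : ∀ y : ℂ, y ^ 5 = 1 → rescale y (euler ℂ 1) =
      A.expand 5 five_ne - C y * (X * euler ℂ 25) - C (y ^ 2) * (X ^ 2 * B.expand 5 five_ne) := by
    intro y hy
    rw [hA, map_sub, map_sub, d5q_res_expand hy, map_mul, map_mul, map_pow, rescale_X, h25,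
      d5q_res_expand hy, d5q_res_expand hy, map_pow]
    ring
  have hC := d5q_C hz
  rw [← d5q_norm hz]
  congr 1
  rw [← d5q_resultant hC hat]
  have hCp : ∀ k : ℕ, (C z : PowerSeries ℂ) ^ k = C (z ^ k) := fun k => (map_pow _ _ _).symm
  have e0 : rescale (z ^ 0) (euler ℂ 1) =
      A.expand 5 five_ne - X * euler ℂ 25 - X ^ 2 * B.expand 5 five_ne := by
    rw [hres (z ^ 0) (by simp), pow_zero, one_pow, map_one, one_mul, one_mul]
  have e1 : rescale (z ^ 1) (euler ℂ 1) =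
      A.expand 5 five_ne - C z * (X * euler ℂ 25) - C z ^ 2 * (X ^ 2 * B.expand 5 five_ne) := by
    rw [hres (z ^ 1) (by rw [← pow_mul, mul_comm, pow_mul, h5, one_pow]), pow_one, hCp]
  have e2 : rescale (z ^ 2) (euler ℂ 1) =
      A.expand 5 five_ne - C z ^ 2 * (X * euler ℂ 25) -
        C z ^ 4 * (X ^ 2 * B.expand 5 five_ne) := by
    rw [hres (z ^ 2) (by rw [← pow_mul, mul_comm, pow_mul, h5, one_pow]), ← pow_mul, hCp, hCp]
  have e3 : rescale (z ^ 3) (euler ℂ 1) =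
      A.expand 5 five_ne - C z ^ 3 * (X * euler ℂ 25) - C z * (X ^ 2 * B.expand 5 five_ne) := by
    have h6 : (z ^ 3) ^ 2 = z := by linear_combination z * h5
    rw [hres (z ^ 3) (by rw [← pow_mul, mul_comm, pow_mul, h5, one_pow]), h6, hCp]
  have e4 : rescale (z ^ 4) (euler ℂ 1) =
      A.expand 5 five_ne - C z ^ 4 * (X * euler ℂ 25) -
        C z ^ 3 * (X ^ 2 * B.expand 5 five_ne) := by
    have h6 : (z ^ 4) ^ 2 = z ^ 3 := by linear_combination z ^ 3 * h5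
    rw [hres (z ^ 4) (by rw [← pow_mul, mul_comm, pow_mul, h5, one_pow]), h6, hCp, hCp]
  simp only [Finset.prod_range_succ, Finset.prod_range_zero, one_mul]
  rw [e0, e1, e2, e3, e4]

lemma d5q_map_inj : Function.Injective (PowerSeries.map (Int.castRingHom ℂ)) := by
  intro F G h
  ext n
  have h1 := congrArg (PowerSeries.coeff n) h
  rw [PowerSeries.coeff_map, PowerSeries.coeff_map] at h1
  exact Int.cast_injective h1

lemma d5q_key (A B : PowerSeries ℤ)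
    (hA : euler ℤ 1 = A.expand 5 five_ne - X * euler ℤ 25 - X ^ 2 * B.expand 5 five_ne)
    (hAB : A * B = euler ℤ 5 ^ 2) :
    ((A.expand 5 five_ne) ^ 5 - 11 * (X * euler ℤ 25) ^ 5 - (X ^ 2 * B.expand 5 five_ne) ^ 5) *
      euler ℤ 25 = euler ℤ 5 ^ 6 := by
  have h := congrArg (PowerSeries.map (Int.castRingHom ℂ)) hA
  have h' := congrArg (PowerSeries.map (Int.castRingHom ℂ)) hAB
  simp only [map_mul, map_sub, map_pow, fx_map_euler, PowerSeries.map_expand,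
    PowerSeries.map_X] at h h'
  have h2 := d5q_key_C _ _ h h'
  apply d5q_map_inj
  simp only [map_mul, map_sub, map_pow, fx_map_euler, PowerSeries.map_expand,
    PowerSeries.map_X, map_ofNat]
  exact h2

/-! ### The identities over `ℤ` -/

section

variable (R : Type*) [CommRing R]

theorem constantCoeff_phi5 : PowerSeries.constantCoeff (phi5 R) = 1 := by
  unfold phi5
  rw [map_mul, map_pow, fx_constantCoeff_euler, PowerSeries.constantCoeff_invOfUnit]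
  simp

theorem coeff_zero_hser5 : PowerSeries.coeff 0 (hser5 R) = 0 := by
  unfold hser5
  simp

theorem coeff_one_hser5 : PowerSeries.coeff 1 (hser5 R) = 1 := by
  unfold hser5
  have h := PowerSeries.coeff_succ_X_mul 0 (euler R 25 * invOfUnit (euler R 1) 1)
  rw [zero_add] at h
  rw [h, PowerSeries.coeff_zero_eq_constantCoeff_apply, map_mul,
    fx_constantCoeff_euler, PowerSeries.constantCoeff_invOfUnit]
  simp

lemma d5q_cc_thq (F : PowerSeries R) : PowerSeries.constantCoeff (thq F) = 0 := by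
  rw [← PowerSeries.coeff_zero_eq_constantCoeff_apply]
  unfold thq
  rw [PowerSeries.coeff_mk]
  simp

theorem constantCoeff_dlog5 : PowerSeries.constantCoeff (dlog5 R) = 1 := by
  unfold dlog5
  rw [map_add, map_mul, d5q_cc_thq, zero_mul, add_zero, map_one]

lemma d5q_phi_mul : phi5 R * euler R 5 = euler R 1 ^ 5 := by
  unfold phi5
  calc euler R 1 ^ 5 * invOfUnit (euler R 5) 1 * euler R 5
      = euler R 1 ^ 5 * (euler R 5 * invOfUnit (euler R 5) 1) := by ring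
    _ = euler R 1 ^ 5 := by rw [d5q_mul_inv, mul_one]

lemma d5q_hser_mul : hser5 R * euler R 1 = X * euler R 25 := by
  unfold hser5
  calc X * (euler R 25 * invOfUnit (euler R 1) 1) * euler R 1
      = X * euler R 25 * (euler R 1 * invOfUnit (euler R 1) 1) := by ring
    _ = X * euler R 25 := by rw [d5q_mul_inv, mul_one]

theorem map_phi5 {S : Type*} [CommRing S] (φ : R →+* S) :
    PowerSeries.map φ (phi5 R) = phi5 S := by
  have h1 := congrArg (PowerSeries.map φ) (d5q_phi_mul R)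
  rw [map_mul, map_pow, fx_map_euler, fx_map_euler, ← d5q_phi_mul S] at h1
  exact (d5q_isUnit S 5).mul_right_cancel h1

theorem map_hser5 {S : Type*} [CommRing S] (φ : R →+* S) :
    PowerSeries.map φ (hser5 R) = hser5 S := by
  have h1 := congrArg (PowerSeries.map φ) (d5q_hser_mul R)
  rw [map_mul, map_mul, fx_map_euler, fx_map_euler, PowerSeries.map_X,
    ← d5q_hser_mul S] at h1
  exact (d5q_isUnit S 1).mul_right_cancel h1

/-- The series `u = (E(q^5)/E(q))^6`. -/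
def d5q_u : PowerSeries R := (euler R 5 * invOfUnit (euler R 1) 1) ^ 6

lemma d5q_u_mul : d5q_u R * euler R 1 ^ 6 = euler R 5 ^ 6 := by
  unfold d5q_u
  rw [← mul_pow]
  congr 1
  calc euler R 5 * invOfUnit (euler R 1) 1 * euler R 1
      = euler R 5 * (euler R 1 * invOfUnit (euler R 1) 1) := by ring
    _ = euler R 5 := by rw [d5q_mul_inv, mul_one]

lemma d5q_u_cc : PowerSeries.constantCoeff (d5q_u R) = 1 := by
  have h := congrArg PowerSeries.constantCoeff (d5q_u_mul R)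
  rw [map_mul, map_pow, map_pow, fx_constantCoeff_euler, fx_constantCoeff_euler, one_pow,
    mul_one] at h
  exact h

lemma d5q_u_inv : d5q_u R * invOfUnit (d5q_u R) 1 = 1 :=
  PowerSeries.mul_invOfUnit _ _ (by rw [d5q_u_cc]; rfl)

lemma d5q_u_isUnit : IsUnit (d5q_u R) := by
  rw [PowerSeries.isUnit_iff_constantCoeff, d5q_u_cc]
  exact isUnit_one

lemma d5q_u_map {S : Type*} [CommRing S] (φ : R →+* S) :
    PowerSeries.map φ (d5q_u R) = d5q_u S := by
  have h1 := congrArg (PowerSeries.map φ) (d5q_u_mul R)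
  rw [map_mul, map_pow, map_pow, fx_map_euler, fx_map_euler, ← d5q_u_mul S] at h1
  exact ((d5q_isUnit S 1).pow 6).mul_right_cancel h1

lemma d5q_thq_map {S : Type*} [CommRing S] (φ : R →+* S) (F : PowerSeries R) :
    PowerSeries.map φ (thq F) = thq (PowerSeries.map φ F) := by
  ext n
  unfold thq
  rw [PowerSeries.coeff_map, PowerSeries.coeff_mk, PowerSeries.coeff_mk, PowerSeries.coeff_map,
    map_mul, map_natCast]

lemma d5q_dlog_mul : (dlog5 R - 1) * d5q_u R = thq (d5q_u R) := by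
  have h : dlog5 R = 1 + thq (d5q_u R) * invOfUnit (d5q_u R) 1 := rfl
  rw [h]
  calc (1 + thq (d5q_u R) * invOfUnit (d5q_u R) 1 - 1) * d5q_u R
      = thq (d5q_u R) * (d5q_u R * invOfUnit (d5q_u R) 1) := by ring
    _ = thq (d5q_u R) := by rw [d5q_u_inv, mul_one]

theorem map_dlog5 {S : Type*} [CommRing S] (φ : R →+* S) :
    PowerSeries.map φ (dlog5 R) = dlog5 S := by
  have h1 := congrArg (PowerSeries.map φ) (d5q_dlog_mul R)
  rw [map_mul, map_sub, map_one, d5q_thq_map, d5q_u_map, ← d5q_dlog_mul S] at h1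
  have h2 := (d5q_u_isUnit S).mul_right_cancel h1
  exact sub_left_inj.1 h2

lemma d5q_haupt_u : hauptmodul 5 R = X * d5q_u R := rfl

lemma d5q_thq_X (F : PowerSeries R) : thq (X * F) = X * F + X * thq F := by
  ext n
  rw [map_add]
  unfold thq
  rw [PowerSeries.coeff_mk]
  cases n with
  | zero => simp
  | succ n =>
    rw [PowerSeries.coeff_succ_X_mul, PowerSeries.coeff_succ_X_mul, PowerSeries.coeff_mk]
    push_cast
    ring

/-- `(θf/f) f = θf`. -/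
theorem dlog5_mul : dlog5 R * hauptmodul 5 R = thq (hauptmodul 5 R) := by
  rw [d5q_haupt_u, d5q_thq_X, ← d5q_dlog_mul]
  ring

lemma d5q_haupt : hauptmodul 5 R * euler R 1 ^ 6 = X * euler R 5 ^ 6 := by
  rw [d5q_haupt_u, mul_assoc, d5q_u_mul]

end

lemma d5q_Q (hq : QD5) :
    euler ℤ 1 ^ 5 * (1 + 5 * hser5 ℤ + 15 * hser5 ℤ ^ 2 + 25 * hser5 ℤ ^ 3 +
      25 * hser5 ℤ ^ 4) * euler ℤ 25 = euler ℤ 5 ^ 6 := by
  obtain ⟨A, B, hA, hAB⟩ := hq
  rw [← d5q_key A B hA hAB]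
  have hh := d5q_hser_mul ℤ
  have hat : A.expand 5 five_ne * (X ^ 2 * B.expand 5 five_ne) = (X * euler ℤ 25) ^ 2 := by
    have h := congrArg (PowerSeries.expand 5 five_ne) hAB
    rw [map_mul, map_pow, d5q_xeuler ℤ 5 (by norm_num)] at h
    linear_combination (X ^ 2 : PowerSeries ℤ) * h
  have h1 : euler ℤ 1 ^ 5 * (1 + 5 * hser5 ℤ + 15 * hser5 ℤ ^ 2 + 25 * hser5 ℤ ^ 3 +
      25 * hser5 ℤ ^ 4) = euler ℤ 1 ^ 5 + 5 * euler ℤ 1 ^ 4 * (X * euler ℤ 25) +
      15 * euler ℤ 1 ^ 3 * (X * euler ℤ 25) ^ 2 + 25 * euler ℤ 1 ^ 2 * (X * euler ℤ 25) ^ 3 +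
      25 * euler ℤ 1 * (X * euler ℤ 25) ^ 4 := by
    rw [← hh]
    ring
  rw [h1, hA]
  congr 1
  generalize A.expand 5 five_ne = a at *
  generalize X ^ 2 * B.expand 5 five_ne = t at *
  generalize X * euler ℤ 25 = s at *
  linear_combination (-(5 * a ^ 3 - 10 * a ^ 2 * t + 5 * a * s ^ 2 + 10 * a * t ^ 2 -
    5 * s ^ 2 * t - 5 * t ^ 3)) * hat

lemma d5q_haupt_eq (hq : QD5) :
    hauptmodul 5 ℤ = hser5 ℤ *
      (1 + 5 * hser5 ℤ + 15 * hser5 ℤ ^ 2 + 25 * hser5 ℤ ^ 3 + 25 * hser5 ℤ ^ 4) := by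
  have hb : euler ℤ 1 ^ 6 ≠ 0 := pow_ne_zero _ (d5q_euler_ne 1)
  apply mul_right_cancel₀ hb
  rw [d5q_haupt, ← d5q_Q hq]
  generalize 1 + 5 * hser5 ℤ + 15 * hser5 ℤ ^ 2 + 25 * hser5 ℤ ^ 3 + 25 * hser5 ℤ ^ 4 = Q
  linear_combination (-(euler ℤ 1 ^ 5 * Q)) * d5q_hser_mul ℤ

lemma d5q_expand_haupt (hq : QD5) :
    (hauptmodul 5 ℤ).expand 5 five_ne *
      (1 + 5 * hser5 ℤ + 15 * hser5 ℤ ^ 2 + 25 * hser5 ℤ ^ 3 + 25 * hser5 ℤ ^ 4) =
      hser5 ℤ ^ 5 := by
  have h1 : (hauptmodul 5 ℤ).expand 5 five_ne * euler ℤ 5 ^ 6 = X ^ 5 * euler ℤ 25 ^ 6 := by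
    have h := congrArg (PowerSeries.expand 5 five_ne) (d5q_haupt ℤ)
    rw [map_mul, map_mul, map_pow, map_pow, d5q_xeuler ℤ 5 (by norm_num),
      d5q_xeuler ℤ 1 le_rfl, PowerSeries.expand_X] at h
    exact h
  have hb : euler ℤ 1 ^ 5 * euler ℤ 25 ≠ 0 :=
    mul_ne_zero (pow_ne_zero _ (d5q_euler_ne 1)) (d5q_euler_ne 25)
  apply mul_right_cancel₀ hb
  have h2 := d5q_Q hq
  generalize 1 + 5 * hser5 ℤ + 15 * hser5 ℤ ^ 2 + 25 * hser5 ℤ ^ 3 + 25 * hser5 ℤ ^ 4 = Q at *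
  calc (hauptmodul 5 ℤ).expand 5 five_ne * Q * (euler ℤ 1 ^ 5 * euler ℤ 25)
      = (hauptmodul 5 ℤ).expand 5 five_ne * (euler ℤ 1 ^ 5 * Q * euler ℤ 25) := by ring
    _ = X ^ 5 * euler ℤ 25 ^ 6 := by rw [h2, h1]
    _ = (X * euler ℤ 25) ^ 5 * euler ℤ 25 := by ring
    _ = hser5 ℤ ^ 5 * (euler ℤ 1 ^ 5 * euler ℤ 25) := by
        rw [← d5q_hser_mul ℤ]
        ring

lemma d5q_phi_Q (hq : QD5) :
    phi5 ℤ * (1 + 5 * hser5 ℤ + 15 * hser5 ℤ ^ 2 + 25 * hser5 ℤ ^ 3 + 25 * hser5 ℤ ^ 4) =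
      (phi5 ℤ).expand 5 five_ne := by
  have h1 : (phi5 ℤ).expand 5 five_ne * euler ℤ 25 = euler ℤ 5 ^ 5 := by
    have h := congrArg (PowerSeries.expand 5 five_ne) (d5q_phi_mul ℤ)
    rw [map_mul, map_pow, d5q_xeuler ℤ 5 (by norm_num), d5q_xeuler ℤ 1 le_rfl] at h
    exact h
  have hb : euler ℤ 5 * euler ℤ 25 ≠ 0 := mul_ne_zero (d5q_euler_ne 5) (d5q_euler_ne 25)
  apply mul_right_cancel₀ hb
  have h2 := d5q_Q hq
  generalize 1 + 5 * hser5 ℤ + 15 * hser5 ℤ ^ 2 + 25 * hser5 ℤ ^ 3 + 25 * hser5 ℤ ^ 4 = Q at *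
  calc phi5 ℤ * Q * (euler ℤ 5 * euler ℤ 25)
      = (phi5 ℤ * euler ℤ 5) * Q * euler ℤ 25 := by ring
    _ = euler ℤ 5 ^ 5 * euler ℤ 5 := by
        rw [d5q_phi_mul, h2]
        ring
    _ = (phi5 ℤ).expand 5 five_ne * (euler ℤ 5 * euler ℤ 25) := by
        rw [← h1]
        ring

lemma d5q_exists_inv (hq : QD5) : ∃ A : PowerSeries ℤ, PowerSeries.constantCoeff A = 1 ∧
    hser5 ℤ * ((A.expand 5 five_ne) ^ 2 - X * A.expand 5 five_ne - X ^ 2) =
      X * A.expand 5 five_ne := by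
  obtain ⟨A, B, hA, hAB⟩ := hq
  refine ⟨A * invOfUnit (euler ℤ 5) 1, ?_, ?_⟩
  · have h := congrArg PowerSeries.constantCoeff hA
    rw [fx_constantCoeff_euler, map_sub, map_sub, PowerSeries.constantCoeff_expand, map_mul,
      map_mul, map_pow, PowerSeries.constantCoeff_X] at h
    rw [map_mul, PowerSeries.constantCoeff_invOfUnit]
    have h0 : (0 : ℤ) ^ 2 = 0 := by norm_num
    rw [h0, zero_mul, zero_mul, sub_zero, sub_zero] at h
    rw [← h]
    simp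
  · have hb : euler ℤ 25 ^ 2 ≠ 0 := pow_ne_zero _ (d5q_euler_ne 25)
    apply mul_right_cancel₀ hb
    have h1 : euler ℤ 25 * (invOfUnit (euler ℤ 5) 1).expand 5 five_ne = 1 := by
      have h := congrArg (PowerSeries.expand 5 five_ne) (d5q_mul_inv ℤ 5)
      rw [map_mul, d5q_xeuler ℤ 5 (by norm_num), map_one] at h
      exact h
    have hat : A.expand 5 five_ne * (X ^ 2 * B.expand 5 five_ne) = (X * euler ℤ 25) ^ 2 := by
      have h := congrArg (PowerSeries.expand 5 five_ne) hAB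
      rw [map_mul, map_pow, d5q_xeuler ℤ 5 (by norm_num)] at h
      linear_combination (X ^ 2 : PowerSeries ℤ) * h
    have hh := d5q_hser_mul ℤ
    rw [map_mul]
    have h3 : (A.expand 5 five_ne * (invOfUnit (euler ℤ 5) 1).expand 5 five_ne) * euler ℤ 25 =
        A.expand 5 five_ne := by
      linear_combination (A.expand 5 five_ne) * h1
    generalize A.expand 5 five_ne * (invOfUnit (euler ℤ 5) 1).expand 5 five_ne = c at *
    calc hser5 ℤ * (c ^ 2 - X * c - X ^ 2) * euler ℤ 25 ^ 2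
        = hser5 ℤ * ((c * euler ℤ 25) ^ 2 - (X * euler ℤ 25) * (c * euler ℤ 25) -
          (X * euler ℤ 25) ^ 2) := by ring
      _ = (A.expand 5 five_ne) * (hser5 ℤ * (A.expand 5 five_ne - X * euler ℤ 25 -
          X ^ 2 * B.expand 5 five_ne)) := by
          rw [h3, ← hat]
          ring
      _ = X * euler ℤ 25 * A.expand 5 five_ne := by
          rw [← hA, hh]
          ring
      _ = X * c * euler ℤ 25 ^ 2 := by
          rw [← h3]
          ring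

/-! ### Transport to any ring -/

variable {R : Type*} [CommRing R]

/-- `h (A² - q A - q²) = q A` with `A` a series in `q^5` of constant term `1`, i.e.
`h = v/(1-v-v²)`, `v = q/A`. -/
theorem exists_hser5_inv (hq : QD5) : ∃ A : PowerSeries R, PowerSeries.constantCoeff A = 1 ∧
    hser5 R * ((A.expand 5 five_ne) ^ 2 - X * A.expand 5 five_ne - X ^ 2) =
      X * A.expand 5 five_ne := by
  obtain ⟨A, hA, h⟩ := d5q_exists_inv hq
  refine ⟨PowerSeries.map (Int.castRingHom R) A, ?_, ?_⟩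
  · rw [← PowerSeries.coeff_zero_eq_constantCoeff_apply, PowerSeries.coeff_map,
      PowerSeries.coeff_zero_eq_constantCoeff_apply, hA, map_one]
  · have h2 := congrArg (PowerSeries.map (Int.castRingHom R)) h
    simp only [map_mul, map_sub, map_pow, PowerSeries.map_expand, PowerSeries.map_X,
      map_hser5] at h2
    exact h2

lemma d5q_map_Q : PowerSeries.map (Int.castRingHom R)
    (1 + 5 * hser5 ℤ + 15 * hser5 ℤ ^ 2 + 25 * hser5 ℤ ^ 3 + 25 * hser5 ℤ ^ 4) =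
    1 + 5 * hser5 R + 15 * hser5 R ^ 2 + 25 * hser5 R ^ 3 + 25 * hser5 R ^ 4 := by
  simp only [map_mul, map_add, map_pow, map_one, map_ofNat, map_hser5]

/-- `f = h (1 + 5h + 15h² + 25h³ + 25h⁴)`. -/
theorem hauptmodul5_eq (hq : QD5) :
    hauptmodul 5 R = hser5 R *
      (1 + 5 * hser5 R + 15 * hser5 R ^ 2 + 25 * hser5 R ^ 3 + 25 * hser5 R ^ 4) := by
  have h := congrArg (PowerSeries.map (Int.castRingHom R)) (d5q_haupt_eq hq)
  rwa [map_hauptmodul, map_mul, d5q_map_Q, map_hser5] at h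

/-- `f(q^5) (1 + 5h + 15h² + 25h³ + 25h⁴) = h^5`. -/
theorem expand_hauptmodul5 (hq : QD5) :
    (hauptmodul 5 R).expand 5 five_ne *
      (1 + 5 * hser5 R + 15 * hser5 R ^ 2 + 25 * hser5 R ^ 3 + 25 * hser5 R ^ 4) =
      hser5 R ^ 5 := by
  have h := congrArg (PowerSeries.map (Int.castRingHom R)) (d5q_expand_haupt hq)
  rwa [map_mul, PowerSeries.map_expand, map_hauptmodul, d5q_map_Q, map_pow, map_hser5] at h

/-- `φ (1 + 5h + 15h² + 25h³ + 25h⁴) = φ(q^5)`. -/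
theorem phi5_mul (hq : QD5) :
    phi5 R * (1 + 5 * hser5 R + 15 * hser5 R ^ 2 + 25 * hser5 R ^ 3 + 25 * hser5 R ^ 4) =
      (phi5 R).expand 5 five_ne := by
  have h := congrArg (PowerSeries.map (Int.castRingHom R)) (d5q_phi_Q hq)
  rwa [map_mul, PowerSeries.map_expand, d5q_map_Q, map_phi5] at h

/-- `f φ^6 = Δ = q ∏ (1-q^n)^24`. -/
theorem hauptmodul5_mul_phi : hauptmodul 5 R * phi5 R ^ 6 = X * euler R 1 ^ 24 := by
  have hb : IsUnit (euler R 5 ^ 6) := (d5q_isUnit R 5).pow 6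
  apply hb.mul_right_cancel
  calc hauptmodul 5 R * phi5 R ^ 6 * euler R 5 ^ 6
      = hauptmodul 5 R * (phi5 R * euler R 5) ^ 6 := by ring
    _ = hauptmodul 5 R * euler R 1 ^ 6 * euler R 1 ^ 24 := by
        rw [d5q_phi_mul]
        ring
    _ = X * euler R 1 ^ 24 * euler R 5 ^ 6 := by
        rw [d5q_haupt]
        ring

/-! ### The inverse series of `T (1 + 5T + 15T² + 25T³ + 25T⁴)` -/

/-- The contraction whose fixed point is the inverse series divided by `X`. -/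
def d5q_Phi (u : PowerSeries ℤ) : PowerSeries ℤ :=
  1 - 5 * X * u ^ 2 - 15 * X ^ 2 * u ^ 3 - 25 * X ^ 3 * u ^ 4 - 25 * X ^ 4 * u ^ 5

/-- The iterates. -/
def d5q_It (n : ℕ) : PowerSeries ℤ := (d5q_Phi^[n]) 1

lemma d5q_It_succ (n : ℕ) : d5q_It (n + 1) = d5q_Phi (d5q_It n) :=
  Function.iterate_succ_apply' d5q_Phi n 1

lemma d5q_Phi_dvd {a b : PowerSeries ℤ} {n : ℕ} (h : X ^ n ∣ a - b) :
    X ^ (n + 1) ∣ d5q_Phi a - d5q_Phi b := by
  obtain ⟨c, hc⟩ := h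
  refine ⟨c * (-5 * (a + b) - 15 * X * (a ^ 2 + a * b + b ^ 2) -
    25 * X ^ 2 * (a ^ 3 + a ^ 2 * b + a * b ^ 2 + b ^ 3) -
    25 * X ^ 3 * (a ^ 4 + a ^ 3 * b + a ^ 2 * b ^ 2 + a * b ^ 3 + b ^ 4)), ?_⟩
  unfold d5q_Phi
  rw [pow_succ]
  linear_combination (X * (-5 * (a + b) - 15 * X * (a ^ 2 + a * b + b ^ 2) -
    25 * X ^ 2 * (a ^ 3 + a ^ 2 * b + a * b ^ 2 + b ^ 3) -
    25 * X ^ 3 * (a ^ 4 + a ^ 3 * b + a ^ 2 * b ^ 2 + a * b ^ 3 + b ^ 4))) * hc

lemma d5q_It_dvd (n : ℕ) : (X : PowerSeries ℤ) ^ (n + 1) ∣ d5q_It (n + 1) - d5q_It n := by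
  induction n with
  | zero =>
    refine ⟨-5 - 15 * X - 25 * X ^ 2 - 25 * X ^ 3, ?_⟩
    show d5q_Phi 1 - 1 = _
    unfold d5q_Phi
    ring
  | succ n ih =>
    rw [d5q_It_succ (n + 1), d5q_It_succ n]
    rw [d5q_It_succ n] at ih
    exact d5q_Phi_dvd ih

lemma d5q_It_dvd' (n k : ℕ) : (X : PowerSeries ℤ) ^ (n + 1) ∣ d5q_It (n + k) - d5q_It n := by
  induction k with
  | zero => simp
  | succ k ih =>
    have h1 := d5q_It_dvd (n + k)
    have h2 : (X : PowerSeries ℤ) ^ (n + 1) ∣ X ^ (n + k + 1) := pow_dvd_pow _ (by omega)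
    have h3 := dvd_add (h2.trans h1) ih
    rwa [sub_add_sub_cancel] at h3

/-- The fixed point. -/
def d5q_U : PowerSeries ℤ := PowerSeries.mk fun n => PowerSeries.coeff n (d5q_It n)

lemma d5q_U_dvd (n : ℕ) : (X : PowerSeries ℤ) ^ (n + 1) ∣ d5q_U - d5q_It n := by
  rw [PowerSeries.X_pow_dvd_iff]
  intro m hm
  have h := d5q_It_dvd' m (n - m)
  rw [PowerSeries.X_pow_dvd_iff] at h
  have h2 := h m (Nat.lt_succ_self m)
  rw [show m + (n - m) = n by omega, map_sub] at h2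
  unfold d5q_U
  rw [map_sub, PowerSeries.coeff_mk]
  linarith

lemma d5q_U_fix : d5q_Phi d5q_U = d5q_U := by
  ext n
  have h1 := d5q_Phi_dvd (d5q_U_dvd n)
  rw [← d5q_It_succ] at h1
  have h2 := d5q_U_dvd (n + 1)
  rw [PowerSeries.X_pow_dvd_iff] at h1 h2
  have h3 := h1 n (by omega)
  have h4 := h2 n (by omega)
  rw [map_sub] at h3 h4
  linarith

lemma d5q_U_eq : X * d5q_U * (1 + 5 * (X * d5q_U) + 15 * (X * d5q_U) ^ 2 + 25 * (X * d5q_U) ^ 3 +
    25 * (X * d5q_U) ^ 4) = X := by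
  have h := d5q_U_fix
  unfold d5q_Phi at h
  linear_combination (-X : PowerSeries ℤ) * h

lemma d5q_U_zero : PowerSeries.constantCoeff d5q_U = 1 := by
  have h := congrArg PowerSeries.constantCoeff d5q_U_fix
  unfold d5q_Phi at h
  rw [← h]
  simp

/-- `h` as a power series in `f`: integral coefficients. -/
theorem exists_hser5_eq_subst
    (h : hauptmodul 5 R = hser5 R *
      (1 + 5 * hser5 R + 15 * hser5 R ^ 2 + 25 * hser5 R ^ 3 + 25 * hser5 R ^ 4)) :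
    ∃ g : PowerSeries ℤ, PowerSeries.coeff 0 g = 0 ∧ PowerSeries.coeff 1 g = 1 ∧
      g * (1 + 5 * g + 15 * g ^ 2 + 25 * g ^ 3 + 25 * g ^ 4) = X ∧
      hser5 R = (PowerSeries.map (Int.castRingHom R) g).subst (hauptmodul 5 R) := by
  refine ⟨X * d5q_U, ?_, ?_, d5q_U_eq, ?_⟩
  · simp
  · have h1 := PowerSeries.coeff_succ_X_mul 0 d5q_U
    rw [zero_add] at h1
    rw [h1, PowerSeries.coeff_zero_eq_constantCoeff_apply, d5q_U_zero]
  · have hg0 : PowerSeries.coeff 0 (X * d5q_U) = 0 := by simp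
    have hgeq := d5q_U_eq
    generalize X * d5q_U = g at hg0 hgeq ⊢
    set G := (PowerSeries.map (Int.castRingHom R) g).subst (hauptmodul 5 R) with hG
    have h1 : G * (1 + 5 * G + 15 * G ^ 2 + 25 * G ^ 3 + 25 * G ^ 4) = hauptmodul 5 R := by
      have h2 := congrArg (PowerSeries.map (Int.castRingHom R)) hgeq
      simp only [map_mul, map_add, map_pow, map_one, map_ofNat, PowerSeries.map_X] at h2
      have h3 := congrArg (substAlgHom (R := R) (fx_hasSubst (R := R) 5)) h2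
      rw [map_mul, map_add, map_add, map_add, map_add, map_mul, map_mul, map_mul, map_mul,
        map_pow, map_pow, map_pow, map_one, map_ofNat, map_ofNat, map_ofNat,
        substAlgHom_X, coe_substAlgHom] at h3
      exact h3
    have h0 : PowerSeries.constantCoeff (hser5 R) = 0 := by
      rw [← PowerSeries.coeff_zero_eq_constantCoeff_apply, coeff_zero_hser5]
    have hG0 : PowerSeries.constantCoeff G = 0 := by
      rw [← PowerSeries.coeff_zero_eq_constantCoeff_apply, hG, fx_coeff_subst,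
        PowerSeries.coeff_map, hg0]
      simp
    have h4 : (hser5 R - G) * (1 + 5 * (hser5 R + G) +
        15 * (hser5 R ^ 2 + hser5 R * G + G ^ 2) +
        25 * (hser5 R ^ 3 + hser5 R ^ 2 * G + hser5 R * G ^ 2 + G ^ 3) +
        25 * (hser5 R ^ 4 + hser5 R ^ 3 * G + hser5 R ^ 2 * G ^ 2 + hser5 R * G ^ 3 +
          G ^ 4)) = 0 := by
      have h5 : hser5 R * (1 + 5 * hser5 R + 15 * hser5 R ^ 2 + 25 * hser5 R ^ 3 +
          25 * hser5 R ^ 4) = G * (1 + 5 * G + 15 * G ^ 2 + 25 * G ^ 3 + 25 * G ^ 4) := by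
        rw [h1, h]
      linear_combination h5
    have h6 : IsUnit (1 + 5 * (hser5 R + G) +
        15 * (hser5 R ^ 2 + hser5 R * G + G ^ 2) +
        25 * (hser5 R ^ 3 + hser5 R ^ 2 * G + hser5 R * G ^ 2 + G ^ 3) +
        25 * (hser5 R ^ 4 + hser5 R ^ 3 * G + hser5 R ^ 2 * G ^ 2 + hser5 R * G ^ 3 +
          G ^ 4)) := by
      rw [PowerSeries.isUnit_iff_constantCoeff]
      have : PowerSeries.constantCoeff (1 + 5 * (hser5 R + G) +
        15 * (hser5 R ^ 2 + hser5 R * G + G ^ 2) +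
        25 * (hser5 R ^ 3 + hser5 R ^ 2 * G + hser5 R * G ^ 2 + G ^ 3) +
        25 * (hser5 R ^ 4 + hser5 R ^ 3 * G + hser5 R ^ 2 * G ^ 2 + hser5 R * G ^ 3 +
          G ^ 4)) = 1 := by
        simp only [map_add, map_mul, map_pow, h0, hG0, map_one]
        ring
      rw [this]
      exact isUnit_one
    have h7 := (h6.mul_left_eq_zero).1 h4
    exact sub_eq_zero.1 h7

end D5

end GH
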