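import Pool.Agent.GH.D5.Q5Dis

open PowerSeries Filter Topology

noncomputable section

namespace GH

namespace D5

/-! The operator `U_5` on series in `h`. -/

/-- The identities of `QHaupt5` over `K`. -/
structure HIds5 (K : Type*) [Field K] : Prop where
  c0 : PowerSeries.coeff 0 (hser5 K) = 0
  c1 : PowerSeries.coeff 1 (hser5 K) = 1
  t0 : PowerSeries.constantCoeff (phi5 K) = 1
  f1 : hauptmodul 5 K = hser5 K *
    (1 + 5 * hser5 K + 15 * hser5 K ^ 2 + 25 * hser5 K ^ 3 + 25 * hser5 K ^ 4)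
  f2 : (hauptmodul 5 K).expand 5 five_ne *
    (1 + 5 * hser5 K + 15 * hser5 K ^ 2 + 25 * hser5 K ^ 3 + 25 * hser5 K ^ 4) = hser5 K ^ 5
  h1 : ∃ A : PowerSeries K, PowerSeries.constantCoeff A = 1 ∧
    hser5 K * ((A.expand 5 five_ne) ^ 2 - X * A.expand 5 five_ne - X ^ 2) =
      X * A.expand 5 five_ne
  t3 : phi5 K * (1 + 5 * hser5 K + 15 * hser5 K ^ 2 + 25 * hser5 K ^ 3 + 25 * hser5 K ^ 4) =
    (phi5 K).expand 5 five_ne
  d0 : PowerSeries.constantCoeff (dlog5 K) = 1
  d1 : dlog5 K * hauptmodul 5 K = thq (hauptmodul 5 K)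

/-! ### Auxiliary statements -/

section Aux

theorem d5_U_expand_mul {R : Type*} [CommRing R] (F G : PowerSeries R) :
    U 5 (F.expand 5 five_ne * G) = F * U 5 G := by
  ext n
  simp only [U, coeff_mk]
  rw [coeff_mul, coeff_mul]
  symm
  refine Finset.sum_of_injOn (fun p ↦ (5 * p.1, 5 * p.2)) ?_ ?_ ?_ ?_
  · intro a _ b _ hab
    simp only [Prod.mk.injEq] at hab
    exact Prod.ext (by omega) (by omega)
  · intro a ha
    simp only [Finset.mem_coe, Finset.HasAntidiagonal.mem_antidiagonal] at ha ⊢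
    omega
  · intro a ha hna
    rw [Finset.HasAntidiagonal.mem_antidiagonal] at ha
    by_cases h : 5 ∣ a.1
    · exfalso
      apply hna
      obtain ⟨m, hm⟩ := h
      refine ⟨(m, n - m), ?_, ?_⟩
      · simp only [Finset.mem_coe, Finset.HasAntidiagonal.mem_antidiagonal]
        omega
      · exact Prod.ext (by simp [hm]) (by simp; omega)
    · rw [coeff_expand_of_not_dvd _ _ _ h, zero_mul]
  · intro a _
    simp only [coeff_mk]
    rw [coeff_expand_mul]

theorem d5_U_add {R : Type*} [CommRing R] (F G : PowerSeries R) :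
    U 5 (F + G) = U 5 F + U 5 G := by
  ext n
  simp only [U, coeff_mk, map_add]

theorem d5_U_C_mul {R : Type*} [CommRing R] (a : R) (F : PowerSeries R) :
    U 5 (C a * F) = C a * U 5 F := by
  ext n
  simp only [U, coeff_mk, coeff_C_mul]

theorem d5_U_X_pow {R : Type*} [CommRing R] (k : ℕ) (hk : k ≠ 0) (hk5 : k < 5) :
    U 5 ((X : PowerSeries R) ^ k) = 0 := by
  ext n
  rw [U, coeff_mk, coeff_X_pow, if_neg (by omega), map_zero]

theorem d5_U_expand {R : Type*} [CommRing R] (F : PowerSeries R) :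
    U 5 (F.expand 5 five_ne) = F := by
  ext n
  rw [U, coeff_mk, coeff_expand_mul]

theorem d5_thq_eq {R : Type*} [CommRing R] (F : PowerSeries R) :
    thq F = X * derivative R F := by
  ext n
  rcases n with _ | n
  · simp [thq]
  · rw [thq, coeff_mk, coeff_succ_X_mul, coeff_derivative]
    push_cast
    ring

variable {K : Type*} [Field K]

variable (K) in
theorem d5_Q_inv : Qser5 K * (Qser5 K)⁻¹ = 1 := by
  apply PowerSeries.mul_inv_cancel
  simp [Qser5]

/-- the sequence `b_i(G)` -/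
def d5_B (G : PowerSeries K) : PowerSeries K :=
  PowerSeries.mk fun i ↦ PowerSeries.coeff (5 * i)
    (Rser5 K 0 * Qser5 K ^ i * (Qser5 K)⁻¹ * G)

theorem d5_B_add (G H : PowerSeries K) : d5_B (G + H) = d5_B G + d5_B H := by
  ext i
  simp only [d5_B, coeff_mk, map_add, mul_add]

theorem d5_B_C_mul (a : K) (G : PowerSeries K) : d5_B (C a * G) = C a * d5_B G := by
  ext i
  simp only [d5_B, coeff_mk, coeff_C_mul]
  rw [show Rser5 K 0 * Qser5 K ^ i * (Qser5 K)⁻¹ * (C a * G) =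
    C a * (Rser5 K 0 * Qser5 K ^ i * (Qser5 K)⁻¹ * G) from by ring, coeff_C_mul]

theorem d5_B_z (G : PowerSeries K) :
    d5_B (X ^ 5 * (Qser5 K)⁻¹ * G) = X * d5_B G := by
  ext i
  rcases i with _ | i
  · simp only [d5_B, coeff_mk]
    rw [mul_zero, show Rser5 K 0 * Qser5 K ^ 0 * (Qser5 K)⁻¹ *
      (X ^ 5 * (Qser5 K)⁻¹ * G) = X ^ 5 * (Rser5 K 0 * Qser5 K ^ 0 * (Qser5 K)⁻¹ *
        ((Qser5 K)⁻¹ * G)) from by ring, PowerSeries.coeff_X_pow_mul', if_neg (by norm_num),
      PowerSeries.coeff_zero_X_mul]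
  · rw [PowerSeries.coeff_succ_X_mul]
    simp only [d5_B, coeff_mk]
    have h1 : Rser5 K 0 * Qser5 K ^ (i + 1) * (Qser5 K)⁻¹ *
        (X ^ 5 * (Qser5 K)⁻¹ * G) = X ^ 5 * (Rser5 K 0 * Qser5 K ^ i *
          (Qser5 K)⁻¹ * G) := by
      calc Rser5 K 0 * Qser5 K ^ (i + 1) * (Qser5 K)⁻¹ *
            (X ^ 5 * (Qser5 K)⁻¹ * G) =
          (Qser5 K * (Qser5 K)⁻¹) * (X ^ 5 * (Rser5 K 0 * Qser5 K ^ i *
            (Qser5 K)⁻¹ * G)) := by ring
        _ = _ := by rw [d5_Q_inv, one_mul]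
    rw [h1, PowerSeries.coeff_X_pow_mul', if_pos (by omega)]
    congr 1

theorem d5_poly (i n : ℕ) (h : 4 * i + 4 < n) :
    PowerSeries.coeff n (Rser5 K 0 * Qser5 K ^ i) = 0 := by
  have h1 : Rser5 K 0 * Qser5 K ^ i =
      (((1 + Polynomial.C (4 : K) * Polynomial.X + Polynomial.C (9 : K) * Polynomial.X ^ 2 +
        Polynomial.C (10 : K) * Polynomial.X ^ 3 + Polynomial.C (5 : K) * Polynomial.X ^ 4) *
        (1 + Polynomial.C (5 : K) * Polynomial.X + Polynomial.C (15 : K) * Polynomial.X ^ 2 +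
        Polynomial.C (25 : K) * Polynomial.X ^ 3 + Polynomial.C (25 : K) * Polynomial.X ^ 4) ^ i :
          Polynomial K) : PowerSeries K) := by
    simp [Qser5, Rser5]
  rw [h1, Polynomial.coeff_coe]
  apply Polynomial.coeff_eq_zero_of_natDegree_lt
  have h2 : (1 + Polynomial.C (4 : K) * Polynomial.X + Polynomial.C (9 : K) * Polynomial.X ^ 2 +
        Polynomial.C (10 : K) * Polynomial.X ^ 3 + Polynomial.C (5 : K) * Polynomial.X ^ 4 :
        Polynomial K).natDegree ≤ 4 := by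
    compute_degree
  have h3 : (1 + Polynomial.C (5 : K) * Polynomial.X + Polynomial.C (15 : K) *
      Polynomial.X ^ 2 + Polynomial.C (25 : K) * Polynomial.X ^ 3 + Polynomial.C (25 : K) *
      Polynomial.X ^ 4 : Polynomial K).natDegree ≤ 4 := by
    compute_degree
  calc _ ≤ (1 + Polynomial.C (4 : K) * Polynomial.X + Polynomial.C (9 : K) * Polynomial.X ^ 2 +
        Polynomial.C (10 : K) * Polynomial.X ^ 3 + Polynomial.C (5 : K) * Polynomial.X ^ 4 :
        Polynomial K).natDegree +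
        ((1 + Polynomial.C (5 : K) * Polynomial.X + Polynomial.C (15 : K) *
      Polynomial.X ^ 2 + Polynomial.C (25 : K) * Polynomial.X ^ 3 + Polynomial.C (25 : K) *
      Polynomial.X ^ 4) ^ i : Polynomial K).natDegree :=
        Polynomial.natDegree_mul_le
    _ ≤ 4 + i * 4 := add_le_add h2 (Polynomial.natDegree_pow_le.trans
        (Nat.mul_le_mul_left _ h3))
    _ < n := by omega

theorem d5_B_succ (G : PowerSeries K) (i : ℕ) : PowerSeries.coeff (i + 1) (d5_B G) =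
    PowerSeries.coeff (5 * (i + 1)) (Rser5 K 0 * Qser5 K ^ i * G) := by
  simp only [d5_B, coeff_mk]
  congr 1
  calc Rser5 K 0 * Qser5 K ^ (i + 1) * (Qser5 K)⁻¹ * G =
      (Qser5 K * (Qser5 K)⁻¹) * (Rser5 K 0 * Qser5 K ^ i * G) := by ring
    _ = _ := by rw [d5_Q_inv, one_mul]

theorem d5_B_zero (G : PowerSeries K) : PowerSeries.coeff 0 (d5_B G) =
    PowerSeries.coeff 0 G := by
  have h : constantCoeff (Qser5 K)⁻¹ = 1 := by
    rw [PowerSeries.constantCoeff_inv]
    simp [Qser5]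
  simp only [d5_B, coeff_mk, mul_zero, pow_zero, mul_one, coeff_zero_eq_constantCoeff_apply,
    map_mul, h]
  simp [Rser5]

theorem d5_B_one : d5_B (1 : PowerSeries K) = 1 := by
  ext i
  rcases i with _ | i
  · rw [d5_B_zero]
  · rw [d5_B_succ, mul_one, d5_poly _ _ (by omega), coeff_one, if_neg (by omega)]

theorem d5_B_X1 : d5_B (X : PowerSeries K) =
    C (5 : K) * X := by
  ext i
  rcases i with _ | i
  · rw [d5_B_zero]
    simp
  · rw [d5_B_succ, show 5 * (i + 1) = (5 * i + 4) + 1 from by ring, coeff_succ_mul_X]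
    rcases i with _ | i
    · have e : (Rser5 K 0 * Qser5 K ^ 0 : PowerSeries K) =
          1 + C (4 : K) * X + C (9 : K) * X ^ 2 + C (10 : K) * X ^ 3 + C (5 : K) * X ^ 4 := by
        rw [pow_zero, mul_one, Rser5, if_pos rfl]
      rw [e]
      simp [coeff_one, coeff_X, coeff_X_pow]
    · rw [d5_poly _ _ (by omega)]
      simp [coeff_one, coeff_X, coeff_X_pow]

theorem d5_B_X2 : d5_B (X ^ 2 : PowerSeries K) =
    C (10 : K) * X + C (125 : K) * X ^ 2 := by
  ext i
  rcases i with _ | i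
  · rw [d5_B_zero]
    simp
  · rw [d5_B_succ, show 5 * (i + 1) = (5 * i + 3) + 2 from by ring, coeff_mul_X_pow]
    rcases i with _ | _ | i
    · have e : (Rser5 K 0 * Qser5 K ^ 0 : PowerSeries K) =
          1 + C (4 : K) * X + C (9 : K) * X ^ 2 + C (10 : K) * X ^ 3 + C (5 : K) * X ^ 4 := by
        rw [pow_zero, mul_one, Rser5, if_pos rfl]
      rw [e]
      simp [coeff_one, coeff_X, coeff_X_pow]
    · have e : (Rser5 K 0 * Qser5 K ^ (0 + 1) : PowerSeries K) =
          1 + C (9 : K) * X + C (44 : K) * X ^ 2 + C (140 : K) * X ^ 3 + C (315 : K) * X ^ 4 + C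
          (500 : K) * X ^ 5 + C (550 : K) * X ^ 6 + C (375 : K) * X ^ 7 + C (125 : K) * X ^ 8 := by
        rw [Rser5, if_pos rfl, Qser5]
        simp only [map_ofNat]
        ring
      rw [e]
      simp [coeff_one, coeff_X, coeff_X_pow]
    · rw [d5_poly _ _ (by omega)]
      simp [coeff_one, coeff_X, coeff_X_pow]

theorem d5_B_X3 : d5_B (X ^ 3 : PowerSeries K) =
    C (9 : K) * X + C (375 : K) * X ^ 2 + C (3125 : K) * X ^ 3 := by
  ext i
  rcases i with _ | i
  · rw [d5_B_zero]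
    simp
  · rw [d5_B_succ, show 5 * (i + 1) = (5 * i + 2) + 3 from by ring, coeff_mul_X_pow]
    rcases i with _ | _ | _ | i
    · have e : (Rser5 K 0 * Qser5 K ^ 0 : PowerSeries K) =
          1 + C (4 : K) * X + C (9 : K) * X ^ 2 + C (10 : K) * X ^ 3 + C (5 : K) * X ^ 4 := by
        rw [pow_zero, mul_one, Rser5, if_pos rfl]
      rw [e]
      simp [coeff_one, coeff_X, coeff_X_pow]
    · have e : (Rser5 K 0 * Qser5 K ^ (0 + 1) : PowerSeries K) =
          1 + C (9 : K) * X + C (44 : K) * X ^ 2 + C (140 : K) * X ^ 3 + C (315 : K) * X ^ 4 + C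
          (500 : K) * X ^ 5 + C (550 : K) * X ^ 6 + C (375 : K) * X ^ 7 + C (125 : K) * X ^ 8 := by
        rw [Rser5, if_pos rfl, Qser5]
        simp only [map_ofNat]
        ring
      rw [e]
      simp [coeff_one, coeff_X, coeff_X_pow]
    · have e : (Rser5 K 0 * Qser5 K ^ (0 + 1 + 1) : PowerSeries K) =
          1 + C (14 : K) * X + C (104 : K) * X ^ 2 + C (520 : K) * X ^ 3 + C (1925 : K) * X ^ 4
          + C (5500 : K) * X ^ 5 + C (12375 : K) * X ^ 6 + C (22000 : K) * X ^ 7 + C (30625 : K)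
          * X ^ 8 + C (32500 : K) * X ^ 9 + C (25000 : K) * X ^ 10 + C (12500 : K) * X ^ 11 + C
          (3125 : K) * X ^ 12 := by
        rw [Rser5, if_pos rfl, Qser5]
        simp only [map_ofNat]
        ring
      rw [e]
      simp [coeff_one, coeff_X, coeff_X_pow]
    · rw [d5_poly _ _ (by omega)]
      simp [coeff_one, coeff_X, coeff_X_pow]

theorem d5_B_X4 : d5_B (X ^ 4 : PowerSeries K) =
    C (4 : K) * X + C (550 : K) * X ^ 2 + C (12500 : K) * X ^ 3 + C (78125 : K) * X ^ 4 := by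
  ext i
  rcases i with _ | i
  · rw [d5_B_zero]
    simp
  · rw [d5_B_succ, show 5 * (i + 1) = (5 * i + 1) + 4 from by ring, coeff_mul_X_pow]
    rcases i with _ | _ | _ | _ | i
    · have e : (Rser5 K 0 * Qser5 K ^ 0 : PowerSeries K) =
          1 + C (4 : K) * X + C (9 : K) * X ^ 2 + C (10 : K) * X ^ 3 + C (5 : K) * X ^ 4 := by
        rw [pow_zero, mul_one, Rser5, if_pos rfl]
      rw [e]
      simp [coeff_one, coeff_X, coeff_X_pow]
    · have e : (Rser5 K 0 * Qser5 K ^ (0 + 1) : PowerSeries K) =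
          1 + C (9 : K) * X + C (44 : K) * X ^ 2 + C (140 : K) * X ^ 3 + C (315 : K) * X ^ 4 + C
          (500 : K) * X ^ 5 + C (550 : K) * X ^ 6 + C (375 : K) * X ^ 7 + C (125 : K) * X ^ 8 := by
        rw [Rser5, if_pos rfl, Qser5]
        simp only [map_ofNat]
        ring
      rw [e]
      simp [coeff_one, coeff_X, coeff_X_pow]
    · have e : (Rser5 K 0 * Qser5 K ^ (0 + 1 + 1) : PowerSeries K) =
          1 + C (14 : K) * X + C (104 : K) * X ^ 2 + C (520 : K) * X ^ 3 + C (1925 : K) * X ^ 4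
          + C (5500 : K) * X ^ 5 + C (12375 : K) * X ^ 6 + C (22000 : K) * X ^ 7 + C (30625 : K)
          * X ^ 8 + C (32500 : K) * X ^ 9 + C (25000 : K) * X ^ 10 + C (12500 : K) * X ^ 11 + C
          (3125 : K) * X ^ 12 := by
        rw [Rser5, if_pos rfl, Qser5]
        simp only [map_ofNat]
        ring
      rw [e]
      simp [coeff_one, coeff_X, coeff_X_pow]
    · have e : (Rser5 K 0 * Qser5 K ^ (0 + 1 + 1 + 1) : PowerSeries K) =
          1 + C (19 : K) * X + C (189 : K) * X ^ 2 + C (1275 : K) * X ^ 3 + C (6460 : K) * X ^ 4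
          + C (25875 : K) * X ^ 5 + C (84350 : K) * X ^ 6 + C (227500 : K) * X ^ 7 + C (511875 :
          K) * X ^ 8 + C (962500 : K) * X ^ 9 + C (1506250 : K) * X ^ 10 + C (1940625 : K) * X ^
          11 + C (2018750 : K) * X ^ 12 + C (1640625 : K) * X ^ 13 + C (984375 : K) * X ^ 14 + C
          (390625 : K) * X ^ 15 + C (78125 : K) * X ^ 16 := by
        rw [Rser5, if_pos rfl, Qser5]
        simp only [map_ofNat]
        ring
      rw [e]
      simp [coeff_one, coeff_X, coeff_X_pow]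
    · rw [d5_poly _ _ (by omega)]
      simp [coeff_one, coeff_X, coeff_X_pow]

theorem d5_decomp (G : PowerSeries K) : ∃ (a b c d e : K) (G₁ : PowerSeries K),
    G = C a * 1 + C b * X + C c * X ^ 2 + C d * X ^ 3 + C e * X ^ 4 +
      X ^ 5 * (Qser5 K)⁻¹ * G₁ := by
  refine ⟨coeff 0 G, coeff 1 G, coeff 2 G, coeff 3 G, coeff 4 G,
    Qser5 K * PowerSeries.mk fun n ↦ coeff (n + 5) G, ?_⟩
  have h1 : X ^ 5 * (Qser5 K)⁻¹ * (Qser5 K * PowerSeries.mk fun n ↦ coeff (n + 5) G) =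
      X ^ 5 * PowerSeries.mk fun n ↦ coeff (n + 5) G := by
    calc _ = (Qser5 K * (Qser5 K)⁻¹) * (X ^ 5 * PowerSeries.mk fun n ↦ coeff (n + 5) G) := by
          ring
      _ = _ := by rw [d5_Q_inv, one_mul]
  rw [h1]
  ext n
  simp only [map_add, PowerSeries.coeff_X_pow_mul', PowerSeries.coeff_C_mul,
    PowerSeries.coeff_X, coeff_one, coeff_X_pow]
  rcases n with _ | _ | _ | _ | _ | n
  · simp
  · simp
  · simp
  · simp
  · simp
  · simp

end Aux

/-- `U_5 (F(q^5) G(q)) = F(q) U_5 (G)`. -/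
theorem U_expand_mul5 {R : Type*} [CommRing R] (F G : PowerSeries R) :
    U 5 (F.expand 5 five_ne * G) = F * U 5 G := d5_U_expand_mul F G

/-- `U_5 θ = 5 θ U_5`. -/
theorem U_thq {R : Type*} [CommRing R] (F : PowerSeries R) :
    U 5 (thq F) = 5 * thq (U 5 F) := by
  have h5 : (5 : PowerSeries R) = C (5 : R) := (map_ofNat C 5).symm
  ext n
  rw [h5, coeff_C_mul]
  simp only [U, thq, coeff_mk]
  push_cast
  ring

variable {K : Type*} [Field K] [CharZero K]

/-- `U_5 (G(h)) = ∑ b_i f^i`, `b_i = [T^{5i}] R_0 Q^{i-1} G(T)`. -/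
theorem U_subst_hser5 (hh : HIds5 K) (G : PowerSeries K) :
    U 5 (G.subst (hser5 K)) =
      (PowerSeries.mk fun i ↦ PowerSeries.coeff (5 * i)
        (Rser5 K 0 * Qser5 K ^ i * (Qser5 K)⁻¹ * G)).subst (hauptmodul 5 K) := by
  have hB : (PowerSeries.mk fun i ↦ PowerSeries.coeff (5 * i)
        (Rser5 K 0 * Qser5 K ^ i * (Qser5 K)⁻¹ * G)) = d5_B G := rfl
  rw [hB]
  obtain ⟨A, hA0, hh1⟩ := hh.h1
  set h := hser5 K with hhd
  set f := hauptmodul 5 K with hfd
  have h0 : constantCoeff h = 0 := by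
    rw [← coeff_zero_eq_constantCoeff_apply]
    exact hh.c0
  have hs : HasSubst h := HasSubst.of_constantCoeff_zero' h0
  have hf0 : constantCoeff f = 0 := by
    have hf1 : f = h * (1 + 5 * h + 15 * h ^ 2 + 25 * h ^ 3 + 25 * h ^ 4) := hh.f1
    rw [hf1, map_mul, h0, zero_mul]
  have hfs : HasSubst f := HasSubst.of_constantCoeff_zero' hf0
  have hu : (1 + 5 * h + 15 * h ^ 2 + 25 * h ^ 3 + 25 * h ^ 4 : PowerSeries K) ≠ 0 := by
    intro hz
    have := congrArg constantCoeff hz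
    simp [h0] at this
  set L : PowerSeries K → PowerSeries K := fun G ↦ U 5 (subst h G) - subst f (d5_B G) with hL
  set f5 : PowerSeries K := PowerSeries.expand 5 five_ne f with hf5
  set A5 : PowerSeries K := PowerSeries.expand 5 five_ne A with hA5
  have hf2 : f5 * (1 + 5 * h + 15 * h ^ 2 + 25 * h ^ 3 + 25 * h ^ 4) = h ^ 5 := hh.f2
  have hsC : ∀ a : K, subst h (C a : PowerSeries K) = C a := by
    intro a
    rw [subst_C]
    rfl
  have hfC : ∀ a : K, subst f (C a : PowerSeries K) = C a := by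
    intro a
    rw [subst_C]
    rfl
  have hs1 : subst h (1 : PowerSeries K) = 1 := by
    rw [← map_one (C (R := K))]
    exact hsC 1
  have hf1' : subst f (1 : PowerSeries K) = 1 := by
    rw [← map_one (C (R := K))]
    exact hfC 1
  -- `z(h) = f(q^5)`
  have hz : subst h (X ^ 5 * (Qser5 K)⁻¹ : PowerSeries K) = f5 := by
    have e1 : subst h (Qser5 K) = 1 + 5 * h + 15 * h ^ 2 + 25 * h ^ 3 + 25 * h ^ 4 := by
      rw [Qser5, subst_add hs, subst_add hs, subst_add hs, subst_add hs, subst_mul hs,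
        subst_mul hs, subst_mul hs, subst_mul hs, subst_pow hs, subst_pow hs, subst_pow hs,
        subst_X hs, hsC, hsC, hsC, hs1]
      simp only [map_ofNat]
    have e2 : subst h (X ^ 5 * (Qser5 K)⁻¹ : PowerSeries K) *
        (1 + 5 * h + 15 * h ^ 2 + 25 * h ^ 3 + 25 * h ^ 4) = h ^ 5 := by
      rw [← e1, ← subst_mul hs]
      have e3 : (X ^ 5 * (Qser5 K)⁻¹ : PowerSeries K) * Qser5 K = X ^ 5 := by
        calc _ = X ^ 5 * (Qser5 K * (Qser5 K)⁻¹) := by ring
          _ = X ^ 5 := by rw [d5_Q_inv, mul_one]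
      rw [e3, subst_pow hs, subst_X hs]
    refine mul_right_cancel₀ hu ?_
    rw [e2, hf2]
  -- `L (z G) = f L G`
  have hLz : ∀ G₁ : PowerSeries K, L (X ^ 5 * (Qser5 K)⁻¹ * G₁) = f * L G₁ := by
    intro G₁
    simp only [hL]
    rw [subst_mul hs, hz, hf5, d5_U_expand_mul, d5_B_z, subst_mul hfs, subst_X hfs]
    ring
  have hX : (X : PowerSeries K) ≠ 0 := X_ne_zero
  have hX5 : (PowerSeries.expand 5 five_ne (X : PowerSeries K)) = X ^ 5 := expand_X _ _
  -- the variable `v`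
  set a : PowerSeries K := A⁻¹ with ha
  have hAa : A * a = 1 := by
    apply PowerSeries.mul_inv_cancel
    rw [hA0]
    exact one_ne_zero
  set a5 : PowerSeries K := PowerSeries.expand 5 five_ne a with ha5
  have hAa5 : A5 * a5 = 1 := by
    rw [hA5, ha5, ← map_mul, hAa, map_one]
  set v : PowerSeries K := X * a5 with hv
  set V : PowerSeries K := X * a ^ 5 with hV
  set w : PowerSeries K := PowerSeries.expand 5 five_ne V with hw
  have hwv : w = v ^ 5 := by
    rw [hw, hV, hv, map_mul, map_pow, hX5, ← ha5]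
    ring
  have hd : h * (1 - v - v ^ 2) = v := by
    rw [hv]
    linear_combination a5 ^ 2 * hh1 +
      (-h * (A5 * a5 + 1) + h * X * a5 + X * a5) * hAa5
  have hPd : (1 + 5 * h + 15 * h ^ 2 + 25 * h ^ 3 + 25 * h ^ 4) * (1 - v - v ^ 2) ^ 5 =
      1 - 11 * w - w ^ 2 := by
    calc (1 + 5 * h + 15 * h ^ 2 + 25 * h ^ 3 + 25 * h ^ 4) * (1 - v - v ^ 2) ^ 5 =
        (1 - v - v ^ 2) * ((1 - v - v ^ 2) ^ 4 + 5 * (h * (1 - v - v ^ 2)) *
          (1 - v - v ^ 2) ^ 3 + 15 * (h * (1 - v - v ^ 2)) ^ 2 * (1 - v - v ^ 2) ^ 2 +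
          25 * (h * (1 - v - v ^ 2)) ^ 3 * (1 - v - v ^ 2) +
          25 * (h * (1 - v - v ^ 2)) ^ 4) := by ring
      _ = _ := by
        rw [hd, hwv]
        ring
  have hfw : f5 * (1 - 11 * w - w ^ 2) = w := by
    calc f5 * (1 - 11 * w - w ^ 2) =
        (f5 * (1 + 5 * h + 15 * h ^ 2 + 25 * h ^ 3 + 25 * h ^ 4)) *
          (1 - v - v ^ 2) ^ 5 := by rw [← hPd]; ring
      _ = (h * (1 - v - v ^ 2)) ^ 5 := by rw [hf2]; ring
      _ = w := by rw [hd, hwv]
  have e11 : PowerSeries.expand 5 five_ne (11 : PowerSeries K) = 11 := map_ofNat _ _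
  have hDe : PowerSeries.expand 5 five_ne (1 - 11 * V - V ^ 2) = 1 - 11 * w - w ^ 2 := by
    rw [map_sub, map_sub, map_mul, map_pow, map_one, e11]
  -- `f D = V`
  have hfD : f * (1 - 11 * V - V ^ 2) = V := by
    have e1 : PowerSeries.expand 5 five_ne (f * (1 - 11 * V - V ^ 2)) =
        PowerSeries.expand 5 five_ne V := by
      rw [map_mul, hDe]
      exact hfw
    have e3 := congrArg (U 5) e1
    rwa [d5_U_expand, d5_U_expand] at e3
  have hD0 : (1 - 11 * V - V ^ 2 : PowerSeries K) ≠ 0 := by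
    intro e
    have := congrArg constantCoeff e
    simp [hV] at this
  have hhD : (1 - 11 * w - w ^ 2) * h =
      v * (1 + v + 2 * v ^ 2 + 3 * v ^ 3 + 5 * v ^ 4 - 3 * v ^ 5 + 2 * v ^ 6 - v ^ 7 +
        v ^ 8) := by
    calc (1 - 11 * w - w ^ 2) * h =
        (h * (1 - v - v ^ 2)) * (1 + v + 2 * v ^ 2 + 3 * v ^ 3 + 5 * v ^ 4 - 3 * v ^ 5 +
          2 * v ^ 6 - v ^ 7 + v ^ 8) := by rw [hwv]; ring
      _ = _ := by rw [hd]
  have hUvr : ∀ (r : ℕ), r ≠ 0 → r < 5 → ∀ F : PowerSeries K,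
      U 5 (v ^ r * PowerSeries.expand 5 five_ne F) = 0 := by
    intro r hr hr5 F
    have e1 : v ^ r * PowerSeries.expand 5 five_ne F =
        PowerSeries.expand 5 five_ne (a ^ r * F) * X ^ r := by
      rw [hv, map_mul, map_pow, ← ha5]
      ring
    rw [e1, d5_U_expand_mul, d5_U_X_pow r hr hr5, mul_zero]
  have hUv1 : ∀ F : PowerSeries K, U 5 (v * PowerSeries.expand 5 five_ne F) = 0 := by
    intro F
    have := hUvr 1 (by norm_num) (by norm_num) F
    rwa [pow_one] at this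
  have hUv2 := hUvr 2 (by norm_num) (by norm_num)
  have hUv3 := hUvr 3 (by norm_num) (by norm_num)
  have hUv4 := hUvr 4 (by norm_num) (by norm_num)
  -- U_5 (h^1)
  have hU1 : U 5 (h) = 5 * f := by
    refine mul_left_cancel₀ (pow_ne_zero 1 hD0) ?_
    rw [← d5_U_expand_mul, map_pow, hDe]
    have e1 : (1 - 11 * w - w ^ 2) ^ 1 * h =
        PowerSeries.expand 5 five_ne (5 * V) +
        v * PowerSeries.expand 5 five_ne (1 - 3 * V) +
        v ^ 2 * PowerSeries.expand 5 five_ne (1 + 2 * V) +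
        v ^ 3 * PowerSeries.expand 5 five_ne (2 - V) +
        v ^ 4 * PowerSeries.expand 5 five_ne (3 + V) := by
      simp only [map_add, map_sub, map_mul, map_pow, map_neg, map_one, map_ofNat, ← hw]
      rw [pow_one, hhD, hwv]
      ring
    rw [e1, d5_U_add, d5_U_add, d5_U_add, d5_U_add, d5_U_expand, hUv1, hUv2, hUv3, hUv4, add_zero,
      add_zero, add_zero, add_zero]
    calc 5 * V =
          5 * V := by ring
      _ = 5 * (f * (1 - 11 * V - V ^ 2)) := by
          rw [hfD]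
      _ = _ := by ring
  -- U_5 (h^2)
  have hU2 : U 5 (h ^ 2) = 10 * f + 125 * f ^ 2 := by
    refine mul_left_cancel₀ (pow_ne_zero 2 hD0) ?_
    rw [← d5_U_expand_mul, map_pow, hDe]
    have e1 : (1 - 11 * w - w ^ 2) ^ 2 * h ^ 2 =
        PowerSeries.expand 5 five_ne (10 * V + 15 * V ^ 2 - 10 * V ^ 3) +
        v * PowerSeries.expand 5 five_ne (20 * V - 20 * V ^ 2 + 5 * V ^ 3) +
        v ^ 2 * PowerSeries.expand 5 five_ne (1 + 16 * V + 27 * V ^ 2 - 2 * V ^ 3) +
        v ^ 3 * PowerSeries.expand 5 five_ne (2 + 27 * V - 16 * V ^ 2 + V ^ 3) +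
        v ^ 4 * PowerSeries.expand 5 five_ne (5 + 20 * V + 20 * V ^ 2) := by
      simp only [map_add, map_sub, map_mul, map_pow, map_neg, map_one, map_ofNat, ← hw]
      rw [← mul_pow, hhD, hwv]
      ring
    rw [e1, d5_U_add, d5_U_add, d5_U_add, d5_U_add, d5_U_expand, hUv1, hUv2, hUv3, hUv4, add_zero,
      add_zero, add_zero, add_zero]
    calc 10 * V + 15 * V ^ 2 - 10 * V ^ 3 =
          10 * V * (1 - 11 * V - V ^ 2) + 125 * V ^ 2 := by ring
      _ = 10 * (f * (1 - 11 * V - V ^ 2)) * (1 - 11 * V - V ^ 2) + 125 * (f * (1 - 11 * V - V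
            ^ 2)) ^ 2 := by
          rw [hfD]
      _ = _ := by ring
  -- U_5 (h^3)
  have hU3 : U 5 (h ^ 3) = 9 * f + 375 * f ^ 2 + 3125 * f ^ 3 := by
    refine mul_left_cancel₀ (pow_ne_zero 3 hD0) ?_
    rw [← d5_U_expand_mul, map_pow, hDe]
    have e1 : (1 - 11 * w - w ^ 2) ^ 3 * h ^ 3 =
        PowerSeries.expand 5 five_ne (9 * V + 177 * V ^ 2 + 71 * V ^ 3 - 177 * V ^ 4 + 9 * V ^ 5) +
        v * PowerSeries.expand 5 five_ne (22 * V + 216 * V ^ 2 - 57 * V ^ 3 + 134 * V ^ 4 - 3 * V ^ 5) +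
        v ^ 2 * PowerSeries.expand 5 five_ne (51 * V + 153 * V ^ 2 + 219 * V ^ 3 - 78 * V ^ 4 + V ^ 5) +
        v ^ 3 * PowerSeries.expand 5 five_ne (1 + 78 * V + 219 * V ^ 2 - 153 * V ^ 3 + 51 * V ^ 4) +
        v ^ 4 * PowerSeries.expand 5 five_ne (3 + 134 * V + 57 * V ^ 2 + 216 * V ^ 3 - 22 * V ^ 4) := by
      simp only [map_add, map_sub, map_mul, map_pow, map_neg, map_one, map_ofNat, ← hw]
      rw [← mul_pow, hhD, hwv]
      ring
    rw [e1, d5_U_add, d5_U_add, d5_U_add, d5_U_add, d5_U_expand, hUv1, hUv2, hUv3, hUv4, add_zero,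
      add_zero, add_zero, add_zero]
    calc 9 * V + 177 * V ^ 2 + 71 * V ^ 3 - 177 * V ^ 4 + 9 * V ^ 5 =
          9 * V * (1 - 11 * V - V ^ 2) ^ 2 + 375 * V ^ 2 * (1 - 11 * V - V ^ 2) + 3125 * V ^ 3 := by ring
      _ = 9 * (f * (1 - 11 * V - V ^ 2)) * (1 - 11 * V - V ^ 2) ^ 2 + 375 * (f * (1 - 11 * V -
            V ^ 2)) ^ 2 * (1 - 11 * V - V ^ 2) + 3125 * (f * (1 - 11 * V - V ^ 2)) ^ 3 := by
          rw [hfD]
      _ = _ := by ring
  -- U_5 (h^4)
  have hU4 : U 5 (h ^ 4) = 4 * f + 550 * f ^ 2 + 12500 * f ^ 3 + 78125 * f ^ 4 := by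
    refine mul_left_cancel₀ (pow_ne_zero 4 hD0) ?_
    rw [← d5_U_expand_mul, map_pow, hDe]
    have e1 : (1 - 11 * w - w ^ 2) ^ 4 * h ^ 4 =
        PowerSeries.expand 5 five_ne (4 * V + 418 * V ^ 2 + 1840 * V ^ 3 + 1015 * V ^ 4 - 1840 * V ^ 5 + 418 * V ^ 6 - 4 * V
          ^ 7) +
        v * PowerSeries.expand 5 five_ne (14 * V + 708 * V ^ 2 + 1815 * V ^ 3 - 60 * V ^ 4 + 1860 * V ^ 5 - 212 * V ^ 6 + V ^ 7) +
        v ^ 2 * PowerSeries.expand 5 five_ne (40 * V + 1100 * V ^ 2 + 1200 * V ^ 3 + 1500 * V ^ 4 - 1400 * V ^ 5 + 105 * V ^ 6) +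
        v ^ 3 * PowerSeries.expand 5 five_ne (105 * V + 1400 * V ^ 2 + 1500 * V ^ 3 - 1200 * V ^ 4 + 1100 * V ^ 5 - 40 * V ^ 6) +
        v ^ 4 * PowerSeries.expand 5 five_ne (1 + 212 * V + 1860 * V ^ 2 + 60 * V ^ 3 + 1815 * V ^ 4 - 708 * V ^ 5 + 14 * V ^ 6) := by
      simp only [map_add, map_sub, map_mul, map_pow, map_neg, map_one, map_ofNat, ← hw]
      rw [← mul_pow, hhD, hwv]
      ring
    rw [e1, d5_U_add, d5_U_add, d5_U_add, d5_U_add, d5_U_expand, hUv1, hUv2, hUv3, hUv4, add_zero,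
      add_zero, add_zero, add_zero]
    calc 4 * V + 418 * V ^ 2 + 1840 * V ^ 3 + 1015 * V ^ 4 - 1840 * V ^ 5 + 418 * V ^ 6 - 4 * V ^
        7 =
          4 * V * (1 - 11 * V - V ^ 2) ^ 3 + 550 * V ^ 2 * (1 - 11 * V - V ^ 2) ^ 2 + 12500 *
            V ^ 3 * (1 - 11 * V - V ^ 2) + 78125 * V ^ 4 := by ring
      _ = 4 * (f * (1 - 11 * V - V ^ 2)) * (1 - 11 * V - V ^ 2) ^ 3 + 550 * (f * (1 - 11 * V -
            V ^ 2)) ^ 2 * (1 - 11 * V - V ^ 2) ^ 2 + 12500 * (f * (1 - 11 * V - V ^ 2)) ^ 3 * (1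
            - 11 * V - V ^ 2) + 78125 * (f * (1 - 11 * V - V ^ 2)) ^ 4 := by
          rw [hfD]
      _ = _ := by ring
  have hLadd : ∀ G H : PowerSeries K, L (G + H) = L G + L H := by
    intro G H
    simp only [hL]
    rw [subst_add hs, d5_U_add, d5_B_add, subst_add hfs]
    ring
  have hLC : ∀ (a : K) (G : PowerSeries K), L (C a * G) = C a * L G := by
    intro a G
    simp only [hL]
    rw [subst_mul hs, hsC, d5_B_C_mul, subst_mul hfs, hfC, d5_U_C_mul]
    ring
  have hL1 : L 1 = 0 := by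
    simp only [hL]
    have e3 : U 5 (1 : PowerSeries K) = 1 := by
      have := d5_U_expand (1 : PowerSeries K)
      rwa [map_one] at this
    rw [hs1, d5_B_one, hf1', e3, sub_self]
  have hLX1 : L X = 0 := by
    simp only [hL]
    rw [subst_X hs, hU1, d5_B_X1, subst_mul hfs, subst_X hfs, hfC]
    simp only [map_ofNat]
    ring
  have hLX2 : L (X ^ 2) = 0 := by
    simp only [hL]
    rw [subst_pow hs, subst_X hs, hU2, d5_B_X2, subst_add hfs, subst_mul hfs, subst_mul hfs,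
      subst_pow hfs, subst_X hfs, hfC, hfC]
    simp only [map_ofNat]
    ring
  have hLX3 : L (X ^ 3) = 0 := by
    simp only [hL]
    rw [subst_pow hs, subst_X hs, hU3, d5_B_X3, subst_add hfs, subst_add hfs, subst_mul hfs,
      subst_mul hfs, subst_mul hfs, subst_pow hfs, subst_pow hfs, subst_X hfs, hfC, hfC, hfC]
    simp only [map_ofNat]
    ring
  have hLX4 : L (X ^ 4) = 0 := by
    simp only [hL]
    rw [subst_pow hs, subst_X hs, hU4, d5_B_X4, subst_add hfs, subst_add hfs, subst_add hfs,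
      subst_mul hfs, subst_mul hfs, subst_mul hfs, subst_mul hfs, subst_pow hfs, subst_pow hfs,
      subst_pow hfs, subst_X hfs, hfC, hfC, hfC, hfC]
    simp only [map_ofNat]
    ring
  have hdvd : ∀ (n : ℕ) (G : PowerSeries K), (X : PowerSeries K) ^ n ∣ L G := by
    intro n
    induction n with
    | zero => intro G; simp
    | succ n ih =>
      intro G
      obtain ⟨c0, c1, c2, c3, c4, G₁, hG⟩ := d5_decomp G
      rw [hG, hLadd, hLadd, hLadd, hLadd, hLadd, hLC, hLC, hLC, hLC, hLC, hL1, hLX1, hLX2,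
        hLX3, hLX4, hLz, mul_zero, mul_zero, mul_zero, mul_zero, mul_zero, zero_add, zero_add,
        zero_add, zero_add, zero_add, pow_succ, mul_comm]
      exact mul_dvd_mul (X_dvd_iff.2 hf0) (ih G₁)
  have hL0 : L G = 0 := by
    ext n
    have h1 := hdvd (n + 1) G
    rw [X_pow_dvd_iff] at h1
    rw [h1 n (by omega), map_zero]
  exact sub_eq_zero.1 hL0

/-- `U_5 (θ(h) G(h)) = θ(f) ∑ b_i f^i`, `b_i = [T^{5i+4}] Q^{i+1} G(T)`. -/
theorem U_theta_subst_hser5 (hh : HIds5 K) (G : PowerSeries K) :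
    U 5 (thq (hser5 K) * G.subst (hser5 K)) =
      thq (hauptmodul 5 K) * (PowerSeries.mk fun i ↦ PowerSeries.coeff (5 * i + 4)
        (Qser5 K ^ (i + 1) * G)).subst (hauptmodul 5 K) := by
  have h0 : constantCoeff (hser5 K) = 0 := by
    rw [← coeff_zero_eq_constantCoeff_apply]
    exact hh.c0
  have hs : HasSubst (hser5 K) := HasSubst.of_constantCoeff_zero' h0
  have hf0 : constantCoeff (hauptmodul 5 K) = 0 := by
    rw [hh.f1, map_mul, h0, zero_mul]
  have hfs : HasSubst (hauptmodul 5 K) := HasSubst.of_constantCoeff_zero' hf0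
  set H : PowerSeries K := PowerSeries.mk fun n ↦ PowerSeries.coeff (n - 1) G * (n : K)⁻¹ with hH
  have hHd : derivative K H = G := by
    ext n
    rw [coeff_derivative, hH, coeff_mk, Nat.add_sub_cancel]
    have : ((n + 1 : ℕ) : K) ≠ 0 := Nat.cast_ne_zero.2 (by omega)
    push_cast at this ⊢
    field_simp
  have e1 : thq (hser5 K) * G.subst (hser5 K) = thq (H.subst (hser5 K)) := by
    rw [d5_thq_eq, d5_thq_eq, derivative_subst hs, hHd]
    ring
  rw [e1, U_thq, U_subst_hser5 hh H]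
  have hB : (PowerSeries.mk fun i ↦ PowerSeries.coeff (5 * i)
        (Rser5 K 0 * Qser5 K ^ i * (Qser5 K)⁻¹ * H)) = d5_B H := rfl
  rw [hB, d5_thq_eq, d5_thq_eq, derivative_subst hfs]
  have e2 : (PowerSeries.mk fun i ↦ PowerSeries.coeff (5 * i + 4) (Qser5 K ^ (i + 1) * G)) =
      C (5 : K) * derivative K (d5_B H) := by
    ext i
    rw [coeff_mk, coeff_C_mul, coeff_derivative, d5_B_succ]
    have hR : C (5 : K) * Rser5 K 0 = C (5 : K) * Qser5 K - X * derivative K (Qser5 K) := by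
      rw [Rser5, if_pos rfl, Qser5]
      simp only [map_add, Derivation.leibniz, derivative_pow, derivative_C, derivative_X,
        smul_eq_mul, derivative_one]
      simp only [map_ofNat]
      norm_num
      ring
    have e3 : C ((5 * (i + 1) : ℕ) : K) * (Rser5 K 0 * Qser5 K ^ i * H) +
        X * derivative K (Qser5 K ^ (i + 1) * H) =
        C ((5 * (i + 1) : ℕ) : K) * (Qser5 K ^ (i + 1) * H) +
          X * (Qser5 K ^ (i + 1) * G) := by
      rw [Derivation.leibniz, derivative_pow, hHd, Nat.add_sub_cancel]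
      simp only [smul_eq_mul, map_natCast]
      have h5 : (5 : PowerSeries K) = C (5 : K) := (map_ofNat C 5).symm
      push_cast
      rw [h5]
      linear_combination ((i : PowerSeries K) + 1) * Qser5 K ^ i * H * hR
    have e4 := congrArg (PowerSeries.coeff (5 * i + 4 + 1)) e3
    rw [map_add, map_add, coeff_C_mul, coeff_C_mul, coeff_succ_X_mul, coeff_succ_X_mul,
      coeff_derivative] at e4
    rw [show 5 * (i + 1) = 5 * i + 4 + 1 from by ring] at e4 ⊢
    push_cast at e4 ⊢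
    linear_combination -e4
  rw [e2, subst_mul hfs]
  have e5 : subst (hauptmodul 5 K) (C (5 : K) : PowerSeries K) = 5 := by
    rw [subst_C]
    exact map_ofNat C 5
  rw [e5]
  ring

end D5

end GH
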